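import Mathlib

set_option autoImplicit false

/-! Cones with an order unit: either the cone is a subspace or there is a nonzero
nonnegative functional. -/

namespace Pool.Agent.TH832.Smyth

open Submodule

variable {V : Type*} [AddCommGroup V] [Module ℝ V]

/-- A cone with order unit `u`: either `-u` is in the cone, or a functional is nonnegative on the
cone and equals one at `u`. -/
theorem cone_unit (s : PointedCone ℝ V) (u : V) (hu : u ∈ s)
    (hunit : ∀ v : V, ∃ ε : ℝ, 0 < ε ∧ u + ε • v ∈ s) :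
    -u ∈ s ∨ ∃ g : V →ₗ[ℝ] ℝ, (∀ x ∈ s, 0 ≤ g x) ∧ g u = 1 := by
  by_cases hneg : -u ∈ s
  · exact Or.inl hneg
  right
  have hu0 : u ≠ 0 := by
    rintro rfl
    exact hneg (by simp)
  set f : V →ₗ.[ℝ] ℝ := LinearPMap.mkSpanSingleton u (1 : ℝ) hu0 with hf
  have hfd : f.domain = ℝ ∙ u := rfl
  have key : ∀ r : ℝ, ∀ h : r • u ∈ f.domain, f ⟨r • u, h⟩ = r := by
    intro r h
    have := LinearPMap.mkSpanSingleton'_apply u (1 : ℝ) (fun c hc => by
      rcases smul_eq_zero.1 hc with h | h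
      · simp [h]
      · exact absurd h hu0) r h
    refine this.trans ?_
    simp
  have hnn : ∀ x : f.domain, (x : V) ∈ s → 0 ≤ f x := by
    rintro ⟨x, hx⟩ hxs
    obtain ⟨r, rfl⟩ := Submodule.mem_span_singleton.1 (hfd ▸ hx)
    rw [key r hx]
    by_contra hr
    push Not at hr
    apply hneg
    have h2 : (-r)⁻¹ • (r • u) ∈ s := s.smul_mem (by
      rw [inv_nonneg]; linarith : (0 : ℝ) ≤ (-r)⁻¹) hxs
    have h3 : (-r)⁻¹ • (r • u) = -u := by
      rw [smul_smul]
      have hr0 : r ≠ 0 := hr.ne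
      have : (-r)⁻¹ * r = -1 := by field_simp
      rw [this, neg_one_smul]
    rwa [h3] at h2
  have hdense : ∀ y, ∃ x : f.domain, (x : V) + y ∈ s := by
    intro y
    obtain ⟨ε, hε, h⟩ := hunit y
    refine ⟨⟨ε⁻¹ • u, ?_⟩, ?_⟩
    · rw [hfd]; exact Submodule.smul_mem _ _ (Submodule.mem_span_singleton_self u)
    · have h2 : ε⁻¹ • (u + ε • y) ∈ s := s.smul_mem (by positivity : (0 : ℝ) ≤ ε⁻¹) h
      have h3 : ε⁻¹ • (u + ε • y) = ε⁻¹ • u + y := by
        rw [smul_add, smul_smul, inv_mul_cancel₀ hε.ne', one_smul]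
      rwa [h3] at h2
  obtain ⟨g, hg1, hg2⟩ := riesz_extension s f hnn hdense
  refine ⟨g, hg2, ?_⟩
  have h1 : (1 : ℝ) • u ∈ f.domain := by
    rw [hfd]; exact Submodule.smul_mem _ _ (Submodule.mem_span_singleton_self u)
  have h2 := hg1 ⟨(1 : ℝ) • u, h1⟩
  rw [key 1 h1] at h2
  simpa using h2

/-- A cone which, together with a finite dimensional subspace, fills the space, is either a
subspace or admits a nonzero nonnegative functional. -/
theorem cone_alt (s : PointedCone ℝ V) (V₀ : Submodule ℝ V) [FiniteDimensional ℝ V₀]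
    (hV : ∀ v : V, ∃ w ∈ V₀, v - w ∈ s) :
    (∀ x ∈ s, -x ∈ s) ∨ ∃ g : V →ₗ[ℝ] ℝ, (∀ x ∈ s, 0 ≤ g x) ∧ ∃ x ∈ s, 0 < g x := by
  classical
  set E : Submodule ℝ V := span ℝ (s : Set V) with hE
  have hsE : ∀ x ∈ s, x ∈ E := fun x hx => subset_span hx
  -- every element of `E` is a difference
  have hdiff : ∀ x ∈ E, ∃ c ∈ s, ∃ c' ∈ s, x = c - c' := by
    intro x hx
    induction hx using Submodule.span_induction with
    | mem x hx => exact ⟨x, hx, 0, s.zero_mem, by simp⟩
    | zero => exact ⟨0, s.zero_mem, 0, s.zero_mem, by simp⟩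
    | add x y _ _ hx hy =>
      obtain ⟨c, hc, c', hc', rfl⟩ := hx
      obtain ⟨d, hd, d', hd', rfl⟩ := hy
      exact ⟨c + d, s.add_mem hc hd, c' + d', s.add_mem hc' hd', by abel⟩
    | smul r x _ hx =>
      obtain ⟨c, hc, c', hc', rfl⟩ := hx
      rcases le_total 0 r with hr | hr
      · exact ⟨r • c, s.smul_mem hr hc, r • c', s.smul_mem hr hc', by rw [smul_sub]⟩
      · have hr' : 0 ≤ -r := by linarith
        refine ⟨(-r) • c', s.smul_mem hr' hc', (-r) • c, s.smul_mem hr' hc, ?_⟩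
        rw [neg_smul, neg_smul, smul_sub]; abel
  set E₀ : Submodule ℝ V := E ⊓ V₀ with hE₀
  have hfin : FiniteDimensional ℝ E₀ :=
    Submodule.finiteDimensional_of_le (inf_le_right : E₀ ≤ V₀)
  let b := Module.finBasis ℝ E₀
  have hb : ∀ k, ∃ c ∈ s, ∃ c' ∈ s, ((b k : E₀) : V) = c - c' := fun k =>
    hdiff _ (b k).2.1
  choose c hc c' hc' hcc using hb
  set u : V := ∑ k, (c k + c' k) with hu
  have hus : u ∈ s := Submodule.sum_mem _ fun k _ => s.add_mem (hc k) (hc' k)
  have hunit : ∀ v ∈ E, ∃ ε : ℝ, 0 < ε ∧ u + ε • v ∈ s := by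
    intro v hv
    obtain ⟨w, hw, hvw⟩ := hV v
    have hwE : w ∈ E := by
      have := E.sub_mem hv (hsE _ hvw)
      simpa using this
    set w' : E₀ := ⟨w, hwE, hw⟩ with hw'
    set r := fun k => b.repr w' k with hr
    have hwsum : w = ∑ k, r k • (c k - c' k) := by
      have := b.sum_repr w'
      have h2 := congrArg (Subtype.val) this
      simp only [hw', AddSubmonoidClass.coe_finsetSum, SetLike.val_smul] at h2
      rw [← h2]
      refine Finset.sum_congr rfl fun k _ => ?_
      rw [hcc k]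
    set ε : ℝ := (1 + ∑ k, |r k|)⁻¹ with hε
    have hpos : 0 < 1 + ∑ k, |r k| := by positivity
    have hεpos : 0 < ε := inv_pos.2 hpos
    have hεr : ∀ k, |ε * r k| ≤ 1 := by
      intro k
      rw [abs_mul, abs_of_pos hεpos, hε, inv_mul_le_iff₀ hpos, mul_one]
      have : |r k| ≤ ∑ k, |r k| := Finset.single_le_sum (f := fun k => |r k|)
        (fun i _ => abs_nonneg _) (Finset.mem_univ k)
      linarith
    refine ⟨ε, hεpos, ?_⟩
    have hv : v = (v - w) + w := by abel
    have h1 : u + ε • v = ε • (v - w) +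
        ∑ k, ((1 + ε * r k) • c k + (1 - ε * r k) • c' k) := by
      have h3 : ∑ k, ((1 + ε * r k) • c k + (1 - ε * r k) • c' k) =
          u + ε • w := by
        rw [hu, hwsum, Finset.smul_sum, ← Finset.sum_add_distrib]
        refine Finset.sum_congr rfl fun k _ => ?_
        rw [add_smul, sub_smul, one_smul, one_smul, smul_smul, smul_sub]
        abel
      rw [h3]
      nth_rewrite 1 [hv]
      rw [smul_add]; abel
    rw [h1]
    refine s.add_mem (s.smul_mem hεpos.le hvw) (Submodule.sum_mem _ fun k _ => s.add_mem ?_ ?_)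
    · exact s.smul_mem (by have := abs_le.1 (hεr k); linarith) (hc k)
    · exact s.smul_mem (by have := abs_le.1 (hεr k); linarith) (hc' k)
  -- transfer to the subspace `E`
  set sE : PointedCone ℝ E := s.comap (E.subtype) with hsE'
  have hmem : ∀ x : E, x ∈ sE ↔ (x : V) ∈ s := fun x => Iff.rfl
  have huE : u ∈ E := hsE u hus
  rcases cone_unit sE ⟨u, huE⟩ hus (fun v => by
    obtain ⟨ε, h1, h2⟩ := hunit v v.2
    exact ⟨ε, h1, by rw [hmem]; simpa using h2⟩) with h | ⟨g, hg, hgu⟩
  · left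
    intro x hx
    have hneg : -u ∈ s := by simpa [hmem] using h
    obtain ⟨ε, hε, h2⟩ := hunit (-x) (E.neg_mem (hsE x hx))
    have h3 : ε⁻¹ • ((u + ε • (-x)) + (-u)) ∈ s :=
      s.smul_mem (by positivity) (s.add_mem h2 hneg)
    have h4 : ε⁻¹ • ((u + ε • (-x)) + (-u)) = -x := by
      rw [add_comm u, add_assoc, add_neg_cancel, add_zero, smul_smul, inv_mul_cancel₀ hε.ne',
        one_smul]
    rwa [h4] at h3
  · right
    obtain ⟨g', hg'⟩ := LinearMap.exists_extend g
    have h5 : ∀ x : E, g' x = g x := fun x => by rw [← hg']; rfl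
    refine ⟨g', fun x hx => ?_, u, hus, ?_⟩
    · rw [h5 ⟨x, hsE x hx⟩]; exact hg _ hx
    · rw [h5 ⟨u, huE⟩, hgu]; exact one_pos

/-- Finite dimensional version: a set `T` such that every functional nonnegative on `T` vanishes
on `T` spans a cone that is a subspace. -/
theorem hull_neg [FiniteDimensional ℝ V] (T : Set V)
    (hT : ∀ g : V →ₗ[ℝ] ℝ, (∀ x ∈ T, 0 ≤ g x) → ∀ x ∈ T, g x = 0) :
    ∀ x ∈ PointedCone.hull ℝ T, -x ∈ PointedCone.hull ℝ T := by
  rcases cone_alt (PointedCone.hull ℝ T) (⊤ : Submodule ℝ V)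
    (fun v => ⟨v, Submodule.mem_top, by simp⟩) with h | ⟨g, hg, x, hx, hgx⟩
  · exact h
  · exfalso
    have h1 := hT g (fun x hx => hg x (PointedCone.subset_hull hx))
    have h2 : ∀ x ∈ PointedCone.hull ℝ T, g x = 0 := by
      intro x hx
      induction hx using Submodule.span_induction with
      | mem x hx => exact h1 x hx
      | zero => simp
      | add x y _ _ hx hy => rw [map_add, hx, hy, add_zero]
      | smul r x _ hx =>
        have : (r • x : V) = (r : ℝ) • x := rfl
        rw [this, map_smul, hx, smul_zero]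
    rw [h2 x hx] at hgx
    exact lt_irrefl _ hgx

end Pool.Agent.TH832.Smyth
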