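import Mathlib

set_option autoImplicit false

/-! Density of a number field in its archimedean completion, with linear constraints. -/

namespace Pool.Agent.TH832.Smyth

open NumberField Module
open scoped ComplexConjugate

variable {K : Type} [Field K] [NumberField K]

/-- conjugation-symmetric vectors -/
def Sym (y : (K →+* ℂ) → ℂ) : Prop :=
  ∀ σ : K →+* ℂ, conj (y σ) = y (ComplexEmbedding.conjugate σ)

lemma sym_emb (w : K) : Sym (canonicalEmbedding K w) := by
  intro σ
  rw [canonicalEmbedding.apply_at, canonicalEmbedding.apply_at,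
    ComplexEmbedding.conjugate_coe_eq]

theorem dense_sym {y : (K →+* ℂ) → ℂ} (hy : Sym y) {ε : ℝ} (hε : 0 < ε) :
    ∃ w : K, ‖canonicalEmbedding K w - y‖ < ε := by
  classical
  set b := canonicalEmbedding.latticeBasis K with hb
  set c := b.repr y with hc
  have hbσ : ∀ k σ, b k σ = σ (integralBasis K k) := by
    intro k σ
    rw [hb, canonicalEmbedding.latticeBasis_apply, canonicalEmbedding.apply_at]
  have hy1 : ∑ k, c k • b k = y := b.sum_repr y
  have hy2 : ∑ k, (conj (c k)) • b k = y := by
    funext σ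
    have h1 : y σ = conj (y (ComplexEmbedding.conjugate σ)) := by
      rw [← hy σ, Complex.conj_conj]
    rw [h1, ← hy1]
    simp only [Finset.sum_apply, Pi.smul_apply, smul_eq_mul, map_sum, map_mul, hbσ]
    refine Finset.sum_congr rfl fun k _ => ?_
    rw [ComplexEmbedding.conjugate_coe_eq, Complex.conj_conj]
  have hreal : ∀ k, conj (c k) = c k := by
    intro k
    have h1 : b.repr y = b.repr (∑ k, (conj (c k)) • b k) := by rw [hy2]
    have h2 := congrArg (fun f => f k) h1
    rw [map_sum] at h2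
    simp only [map_smul, Basis.repr_self, Finsupp.smul_single, smul_eq_mul, mul_one,
      Finsupp.coe_finset_sum, Finset.sum_apply] at h2
    rw [Finset.sum_eq_single k (fun i _ hi => Finsupp.single_eq_of_ne (by tauto))
      (fun h => absurd (Finset.mem_univ k) h), Finsupp.single_eq_same] at h2
    exact h2.symm
  have hre : ∀ k, c k = ((c k).re : ℂ) := fun k => (Complex.conj_eq_iff_real.1 (hreal k)).elim
    fun r hr => by rw [hr, Complex.ofReal_re]
  set S : ℝ := 1 + ∑ k, ‖b k‖ with hS
  have hSpos : 0 < S := by positivity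
  have hq : ∀ k, ∃ q : ℚ, |(q : ℝ) - (c k).re| < ε / S := by
    intro k
    obtain ⟨q, hq1, hq2⟩ := exists_rat_btwn (show (c k).re < (c k).re + ε / S by
      have : 0 < ε / S := by positivity
      linarith)
    refine ⟨q, ?_⟩
    rw [abs_lt]
    constructor <;> linarith [show 0 < ε / S by positivity]
  choose q hq using hq
  refine ⟨∑ k, (q k) • integralBasis K k, ?_⟩
  have h1 : canonicalEmbedding K (∑ k, (q k) • integralBasis K k) - y =
      ∑ k, (((q k : ℝ) - (c k).re : ℝ) : ℂ) • b k := by
    nth_rewrite 1 [← hy1]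
    rw [map_sum, ← Finset.sum_sub_distrib]
    refine Finset.sum_congr rfl fun k _ => ?_
    funext σ
    simp only [Pi.sub_apply, Pi.smul_apply, canonicalEmbedding.apply_at, hbσ, smul_eq_mul]
    rw [Rat.smul_def, map_mul, map_ratCast]
    nth_rewrite 1 [hre k]
    push_cast
    ring
  rw [h1]
  calc ‖∑ k, (((q k : ℝ) - (c k).re : ℝ) : ℂ) • b k‖
      ≤ ∑ k, ‖(((q k : ℝ) - (c k).re : ℝ) : ℂ) • b k‖ := norm_sum_le _ _
    _ ≤ ∑ k, ε / S * ‖b k‖ := by
        refine Finset.sum_le_sum fun k _ => ?_
        rw [norm_smul, Complex.norm_real, Real.norm_eq_abs]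
        exact mul_le_mul_of_nonneg_right (hq k).le (norm_nonneg _)
    _ = ε / S * ∑ k, ‖b k‖ := by rw [Finset.mul_sum]
    _ < ε / S * S := by
        refine mul_lt_mul_of_pos_left ?_ (by positivity)
        rw [hS]; linarith
    _ = ε := by field_simp

theorem dens_rel {n : ℕ} (a : Fin n → K) (i₀ : Fin n) (ha : a i₀ ≠ 0) (c : K)
    (y : Fin n → (K →+* ℂ) → ℂ) (hy : ∀ i, Sym (y i))
    (hrel : ∑ i, canonicalEmbedding K (a i) * y i = canonicalEmbedding K c) {ε : ℝ}
    (hε : 0 < ε) :
    ∃ w : Fin n → K, ∑ i, a i * w i = c ∧ ∀ i, ‖canonicalEmbedding K (w i) - y i‖ < ε := by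
  classical
  set ι := canonicalEmbedding K with hι
  set C : ℝ := ‖ι (a i₀)⁻¹‖ * ∑ i, ‖ι (a i)‖ with hC
  have hC0 : 0 ≤ C := by positivity
  set δ : ℝ := ε / (1 + C) with hδ
  have hδpos : 0 < δ := by positivity
  have hδε : δ ≤ ε := by
    rw [hδ, div_le_iff₀ (by positivity)]
    nlinarith
  have hCδ : C * δ < ε := by
    rw [hδ, ← mul_div_assoc, div_lt_iff₀ (by positivity)]
    nlinarith
  choose w hw using fun i => dense_sym (hy i) hδpos
  set w' : Fin n → K := Function.update w i₀
    ((a i₀)⁻¹ * (c - ∑ i ∈ Finset.univ.erase i₀, a i * w i)) with hw'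
  have hwne : ∀ i, i ≠ i₀ → w' i = w i := fun i hi => Function.update_of_ne hi _ _
  have hweq : w' i₀ = (a i₀)⁻¹ * (c - ∑ i ∈ Finset.univ.erase i₀, a i * w i) :=
    Function.update_self _ _ _
  refine ⟨w', ?_, ?_⟩
  · rw [← Finset.add_sum_erase _ _ (Finset.mem_univ i₀), hweq, ← mul_assoc,
      mul_inv_cancel₀ ha, one_mul]
    have : ∑ i ∈ Finset.univ.erase i₀, a i * w' i = ∑ i ∈ Finset.univ.erase i₀, a i * w i :=
      Finset.sum_congr rfl fun i hi => by rw [hwne i (Finset.ne_of_mem_erase hi)]
    rw [this]; ring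
  · intro i
    by_cases hi : i = i₀
    · subst hi
      have hinv : ι (a i)⁻¹ * ι (a i) = 1 := by rw [← map_mul, inv_mul_cancel₀ ha, map_one]
      have h1 : ι (w' i) - y i =
          ι (a i)⁻¹ * ∑ j ∈ Finset.univ.erase i, ι (a j) * (y j - ι (w j)) := by
        have h2 : ι c = ι (a i) * y i + ∑ j ∈ Finset.univ.erase i, ι (a j) * y j := by
          rw [← hrel, ← Finset.add_sum_erase _ _ (Finset.mem_univ i)]
        rw [hweq, map_mul, map_sub, map_sum, h2]
        have h3 : ∑ j ∈ Finset.univ.erase i, ι (a j) * (y j - ι (w j)) =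
            ∑ j ∈ Finset.univ.erase i, ι (a j) * y j -
            ∑ j ∈ Finset.univ.erase i, ι (a j * w j) := by
          rw [← Finset.sum_sub_distrib]
          refine Finset.sum_congr rfl fun j _ => ?_
          rw [map_mul]; ring
        rw [h3]
        linear_combination (y i) * hinv
      rw [h1]
      calc ‖ι (a i)⁻¹ * ∑ j ∈ Finset.univ.erase i, ι (a j) * (y j - ι (w j))‖
          ≤ ‖ι (a i)⁻¹‖ * ‖∑ j ∈ Finset.univ.erase i, ι (a j) * (y j - ι (w j))‖ :=
            norm_mul_le _ _
        _ ≤ ‖ι (a i)⁻¹‖ * ∑ j ∈ Finset.univ.erase i, ‖ι (a j)‖ * δ := by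
            refine mul_le_mul_of_nonneg_left ?_ (norm_nonneg _)
            refine (norm_sum_le _ _).trans (Finset.sum_le_sum fun j _ => ?_)
            refine (norm_mul_le _ _).trans (mul_le_mul_of_nonneg_left ?_ (norm_nonneg _))
            rw [norm_sub_rev]; exact (hw j).le
        _ ≤ C * δ := by
            rw [← Finset.sum_mul, ← mul_assoc, hC]
            refine mul_le_mul_of_nonneg_right (mul_le_mul_of_nonneg_left ?_ (norm_nonneg _))
              hδpos.le
            exact Finset.sum_le_sum_of_subset_of_nonneg (Finset.erase_subset _ _)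
              fun _ _ _ => norm_nonneg _
        _ < ε := hCδ
    · rw [hwne i hi]
      exact (hw i).trans_le hδε

end Pool.Agent.TH832.Smyth
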