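import Mathlib
import Pool.Agent.TH832.Smyth.Dens

set_option autoImplicit false

/-! Contraction: every large element is a coordinate of a relation whose other coordinates are
definitely smaller. -/

namespace Pool.Agent.TH832.Smyth

open NumberField Module
open scoped ComplexConjugate

variable {K : Type} [Field K] [NumberField K] {n : ℕ}

/-- relations -/
def Rel (a x : Fin n → 𝓞 K) : Prop := ∑ i, a i * x i = 0

/-- the strict archimedean criterion, in terms of embeddings -/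
def Arch (a : Fin n → 𝓞 K) : Prop :=
  ∀ σ : K →+* ℂ, ∀ i, ‖σ (a i : K)‖ < ∑ j ∈ Finset.univ.erase i, ‖σ (a j : K)‖

/-- the nonarchimedean criterion, in terms of ideals -/
def Nonarch (a : Fin n → 𝓞 K) : Prop :=
  ∀ i, ∃ c : Fin n → 𝓞 K, a i = ∑ j ∈ Finset.univ.erase i, c j * a j

/-- the size of an integer -/
noncomputable def sz (t : 𝓞 K) : ℝ := ‖canonicalEmbedding K (t : K)‖

lemma sz_nonneg (t : 𝓞 K) : 0 ≤ sz t := norm_nonneg _

lemma ratio {a : Fin n → 𝓞 K} (ha : Arch a) (i : Fin n) :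
    ∃ w : Fin n → K, ∑ j ∈ Finset.univ.erase i, (a j : K) * w j = a i ∧
      ∃ ρ : ℝ, 0 ≤ ρ ∧ ρ < 1 ∧ ∀ j, j ≠ i → ‖canonicalEmbedding K (w j)‖ ≤ ρ := by
  classical
  set S : (K →+* ℂ) → ℝ := fun σ => ∑ j ∈ Finset.univ.erase i, ‖σ (a j : K)‖ with hS
  have hSpos : ∀ σ, 0 < S σ := fun σ => (norm_nonneg _).trans_lt (ha σ i)
  obtain ⟨σ₀⟩ := (inferInstance : Nonempty (K →+* ℂ))
  -- an index with a nonzero coefficient
  obtain ⟨k, hk, hak⟩ : ∃ k ∈ Finset.univ.erase i, (a k : K) ≠ 0 := by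
    by_contra hcon
    push Not at hcon
    have h1 : S σ₀ = 0 := Finset.sum_eq_zero fun j hj => by rw [hcon j hj, map_zero, norm_zero]
    exact (hSpos σ₀).ne' h1
  have hki : k ≠ i := Finset.ne_of_mem_erase hk
  -- the ratio
  obtain ⟨σ₁, -, hσ₁⟩ := Finset.exists_max_image Finset.univ
    (fun σ : K →+* ℂ => ‖σ (a i : K)‖ / S σ) ⟨σ₀, Finset.mem_univ _⟩
  set r : ℝ := ‖σ₁ (a i : K)‖ / S σ₁ with hr
  have hr0 : 0 ≤ r := by have := hSpos σ₁; positivity
  have hr1 : r < 1 := by rw [hr, div_lt_one (hSpos σ₁)]; exact ha σ₁ i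
  have hconjS : ∀ σ, S (ComplexEmbedding.conjugate σ) = S σ := by
    intro σ
    simp only [hS, ComplexEmbedding.conjugate_coe_eq, Complex.norm_conj]
  set y : Fin n → (K →+* ℂ) → ℂ := fun j σ =>
    σ (a i : K) * conj (σ (a j : K)) / ((‖σ (a j : K)‖ * S σ : ℝ) : ℂ) with hy
  have hysym : ∀ j, Sym (y j) := by
    intro j σ
    simp only [hy, ComplexEmbedding.conjugate_coe_eq, map_div₀, map_mul, Complex.conj_ofReal,
      Complex.norm_conj, hconjS]
  have hynorm : ∀ j, ‖y j‖ ≤ r := by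
    intro j
    rw [pi_norm_le_iff_of_nonneg hr0]
    intro σ
    have h1 : ‖y j σ‖ ≤ ‖σ (a i : K)‖ / S σ := by
      simp only [hy]
      rw [norm_div, norm_mul, Complex.norm_conj, Complex.norm_real, Real.norm_eq_abs,
        abs_of_nonneg (mul_nonneg (norm_nonneg _) (hSpos σ).le)]
      rcases eq_or_ne (‖σ (a j : K)‖) 0 with h0 | h0
      · rw [h0]; simp only [mul_zero, zero_mul, div_zero]
        have := hSpos σ; positivity
      · rw [mul_comm (‖σ (a i : K)‖), mul_div_mul_left _ _ h0]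
    exact h1.trans (hσ₁ σ (Finset.mem_univ _))
  set a' : Fin n → K := Function.update (fun j => (a j : K)) i 0 with ha'
  have ha'k : a' k ≠ 0 := by rw [ha', Function.update_of_ne hki]; exact hak
  have hsum : ∀ (M : Type) [inst : AddCommMonoid M] (f g : Fin n → M), g i = 0 →
      (∀ j, j ≠ i → g j = f j) → ∑ j, g j = ∑ j ∈ Finset.univ.erase i, f j := by
    intro M _ f g h0 h1
    rw [← Finset.add_sum_erase _ _ (Finset.mem_univ i), h0, zero_add]
    exact Finset.sum_congr rfl fun j hj => h1 j (Finset.ne_of_mem_erase hj)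
  have hrel : ∑ j, canonicalEmbedding K (a' j) * y j = canonicalEmbedding K (a i : K) := by
    rw [hsum _ (fun j => canonicalEmbedding K (a j : K) * y j) _
      (by rw [ha', Function.update_self, map_zero, zero_mul])
      (fun j hj => by rw [ha', Function.update_of_ne hj])]
    funext σ
    rw [Finset.sum_apply, canonicalEmbedding.apply_at]
    have hterm : ∀ j ∈ Finset.univ.erase i, (canonicalEmbedding K (a j : K) * y j) σ =
        σ (a i : K) * ((‖σ (a j : K)‖ / S σ : ℝ) : ℂ) := by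
      intro j _
      rw [Pi.mul_apply, canonicalEmbedding.apply_at]
      simp only [hy]
      rcases eq_or_ne (σ (a j : K)) 0 with h0 | h0
      · rw [h0]; simp
      · have h2 : ((‖σ (a j : K)‖ : ℝ) : ℂ) ≠ 0 := by
          exact_mod_cast norm_ne_zero_iff.2 h0
        have h3 : ((S σ : ℝ) : ℂ) ≠ 0 := by exact_mod_cast (hSpos σ).ne'
        have h4 : σ (a j : K) * conj (σ (a j : K)) = ((‖σ (a j : K)‖ : ℝ) : ℂ) ^ 2 := by
          rw [Complex.mul_conj, Complex.normSq_eq_norm_sq]; push_cast; ring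
        push_cast
        field_simp
        linear_combination (σ (a i : K)) * h4
    rw [Finset.sum_congr rfl hterm, ← Finset.mul_sum, ← Complex.ofReal_sum, ← Finset.sum_div]
    rw [show (∑ j ∈ Finset.univ.erase i, ‖σ (a j : K)‖) / S σ = 1 from div_self (hSpos σ).ne']
    simp
  obtain ⟨w, hw1, hw2⟩ := dens_rel a' k ha'k (a i : K) y hysym hrel
    (show (0 : ℝ) < (1 - r) / 2 by linarith)
  refine ⟨w, ?_, r + (1 - r) / 2, by linarith, by linarith, fun j _ => ?_⟩
  · rw [← hw1]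
    exact (hsum _ (fun j => (a j : K) * w j) _
      (by rw [ha', Function.update_self, zero_mul])
      (fun j hj => by rw [ha', Function.update_of_ne hj])).symm
  · have h1 := hw2 j
    have h2 := hynorm j
    have h3 : ‖canonicalEmbedding K (w j)‖ ≤ ‖canonicalEmbedding K (w j) - y j‖ + ‖y j‖ := by
      have := norm_add_le (canonicalEmbedding K (w j) - y j) (y j)
      simpa using this
    linarith

theorem contract_one {a : Fin n → 𝓞 K} (ha : Arch a) (hna : Nonarch a) (i : Fin n) :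
    ∃ ρ M : ℝ, 0 < ρ ∧ ρ < 1 ∧ 0 < M ∧ ∀ t : 𝓞 K, M ≤ sz t →
      ∃ x : Fin n → 𝓞 K, Rel a x ∧ x i = t ∧ ∀ j, j ≠ i → sz (x j) ≤ ρ * sz t := by
  classical
  obtain ⟨w, hw, ρ, hρ0, hρ1, hwρ⟩ := ratio ha i
  obtain ⟨c, hc⟩ := hna i
  obtain ⟨b, hb⟩ := IsLocalization.exist_integer_multiples_of_finite
    (nonZeroDivisors (𝓞 K)) w
  have hbw : ∀ j, ∃ z : 𝓞 K, (z : K) = (b : 𝓞 K) * w j := by
    intro j
    obtain ⟨z, hz⟩ := hb j
    exact ⟨z, by rw [← Algebra.smul_def]; exact hz⟩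
  choose z hz using hbw
  have hb0 : (b : 𝓞 K) ≠ 0 := nonZeroDivisors.ne_zero b.2
  set I : Ideal (𝓞 K) := Ideal.span {(b : 𝓞 K)} with hI
  have hI0 : I ≠ ⊥ := by rw [hI, Ne, Ideal.span_singleton_eq_bot]; exact hb0
  have hfin : Finite (𝓞 K ⧸ I) := Ideal.finiteQuotientOfFreeOfNeBot I hI0
  have hrep : ∀ t : 𝓞 K, ∃ q r : 𝓞 K, t = b * q + r ∧
      r ∈ Set.range (fun u : 𝓞 K ⧸ I => Quotient.out u) := by
    intro t
    have h1 : Ideal.Quotient.mk I (t - Quotient.out (Ideal.Quotient.mk I t)) = 0 := by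
      rw [map_sub, sub_eq_zero]
      exact (Quotient.out_eq (Ideal.Quotient.mk I t)).symm
    rw [Ideal.Quotient.eq_zero_iff_mem, hI, Ideal.mem_span_singleton'] at h1
    obtain ⟨q, hq⟩ := h1
    exact ⟨q, _, by rw [mul_comm, hq]; ring, ⟨_, rfl⟩⟩
  obtain ⟨R, hR⟩ : ∃ R : ℝ, ∀ r ∈ Set.range (fun u : 𝓞 K ⧸ I => Quotient.out u), sz r ≤ R := by
    obtain ⟨R, hR⟩ := ((Set.finite_range (fun u : 𝓞 K ⧸ I => Quotient.out u)).image
      sz).bddAbove
    exact ⟨R, fun r hr => hR ⟨r, hr, rfl⟩⟩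
  set R' : ℝ := max R 0 with hR'
  set Cc : ℝ := ∑ j, sz (c j) with hCc
  have hCc0 : 0 ≤ Cc := Finset.sum_nonneg fun j _ => sz_nonneg _
  have hR'0 : 0 ≤ R' := le_max_right _ _
  set D : ℝ := ρ * R' + Cc * R' with hD
  have hD0 : 0 ≤ D := by positivity
  set ρ' : ℝ := (1 + ρ) / 2 with hρ'
  refine ⟨ρ', (D + 1) / (ρ' - ρ), by linarith, by linarith, by
    have : 0 < ρ' - ρ := by linarith
    positivity, fun t ht => ?_⟩
  obtain ⟨q, r, htq, hr⟩ := hrep t
  have hr2 : sz r ≤ R' := (hR r hr).trans (le_max_left _ _)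
  have hc' : (a i : K) = ∑ j ∈ Finset.univ.erase i, (c j : K) * a j := by
    have := congrArg (algebraMap (𝓞 K) K) hc
    simpa [map_sum, map_mul] using this
  refine ⟨Function.update (fun j => -(z j * q) - c j * r) i t, ?_, Function.update_self _ _ _,
    fun j hj => ?_⟩
  · unfold Rel
    apply FaithfulSMul.algebraMap_injective (𝓞 K) K
    rw [map_sum, map_zero, ← Finset.add_sum_erase _ _ (Finset.mem_univ i),
      Function.update_self]
    have h1 : ∑ j ∈ Finset.univ.erase i, algebraMap (𝓞 K) K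
        (a j * Function.update (fun j => -(z j * q) - c j * r) i t j) =
        ∑ j ∈ Finset.univ.erase i, (-((b : 𝓞 K) : K) * q * (a j * w j) -
          r * (c j * a j)) := by
      refine Finset.sum_congr rfl fun j hj => ?_
      rw [Function.update_of_ne (Finset.ne_of_mem_erase hj)]
      simp only [map_mul, map_sub, map_neg]
      have := hz j
      change (algebraMap (𝓞 K) K (z j)) = algebraMap (𝓞 K) K b * w j at this
      rw [this]; ring
    rw [h1, Finset.sum_sub_distrib, ← Finset.mul_sum, ← Finset.mul_sum, hw, ← hc', htq]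
    simp only [map_mul, map_add]
    ring
  · rw [Function.update_of_ne hj]
    have h1 : ((-(z j * q) - c j * r : 𝓞 K) : K) =
        -(w j * ((t : K) - (r : K))) - (c j : K) * (r : K) := by
      have h2 : (t : K) - (r : K) = ((b : 𝓞 K) : K) * (q : K) := by
        rw [htq]; simp only [map_add, map_mul]; ring
      rw [h2]
      have := hz j
      simp only [map_sub, map_neg, map_mul, this]
      ring
    have h2 : sz (-(z j * q) - c j * r) ≤ ρ * (sz t + sz r) + sz (c j) * sz r := by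
      unfold sz
      rw [h1, map_sub, map_neg, map_mul, map_mul, map_sub]
      refine (norm_sub_le _ _).trans (add_le_add ?_ (norm_mul_le _ _))
      rw [norm_neg]
      refine (norm_mul_le _ _).trans (mul_le_mul (hwρ j hj) (norm_sub_le _ _)
        (norm_nonneg _) hρ0)
    have h3 : sz (c j) ≤ Cc := Finset.single_le_sum (f := fun j => sz (c j))
      (fun _ _ => sz_nonneg _) (Finset.mem_univ j)
    have h4 : sz (c j) * sz r ≤ Cc * R' := mul_le_mul h3 hr2 (sz_nonneg _) hCc0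
    have h5 : ρ * sz r ≤ ρ * R' := mul_le_mul_of_nonneg_left hr2 hρ0
    have h6 : D + 1 ≤ (ρ' - ρ) * sz t := by
      rw [div_le_iff₀ (by linarith)] at ht
      linarith
    nlinarith

theorem contract [NeZero n] {a : Fin n → 𝓞 K} (ha : Arch a) (hna : Nonarch a) :
    ∃ ρ M : ℝ, 0 < ρ ∧ ρ < 1 ∧ 0 < M ∧ ∀ i, ∀ t : 𝓞 K, M ≤ sz t →
      ∃ x : Fin n → 𝓞 K, Rel a x ∧ x i = t ∧ ∀ j, j ≠ i → sz (x j) ≤ ρ * sz t := by
  classical
  choose ρ M h1 h2 h3 h4 using contract_one ha hna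
  obtain ⟨i₁, -, hi₁⟩ := Finset.exists_max_image Finset.univ ρ ⟨0, Finset.mem_univ _⟩
  obtain ⟨i₂, -, hi₂⟩ := Finset.exists_max_image Finset.univ M ⟨0, Finset.mem_univ _⟩
  refine ⟨ρ i₁, M i₂, h1 _, h2 _, h3 _, fun i t ht => ?_⟩
  obtain ⟨x, hx1, hx2, hx3⟩ := h4 i t ((hi₂ i (Finset.mem_univ _)).trans ht)
  exact ⟨x, hx1, hx2, fun j hj => (hx3 j hj).trans
    (mul_le_mul_of_nonneg_right (hi₁ i (Finset.mem_univ _)) (sz_nonneg _))⟩

end Pool.Agent.TH832.Smyth
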