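import Mathlib

set_option autoImplicit false

/-! Closed polygons with prescribed side lengths. -/

namespace Pool.Agent.TH832.Smyth

open scoped ComplexConjugate

/-- two-step triangle: from a vector of length `r'`, add a vector of length `l` to get length `r` -/
lemma triangle (w : ℂ) (l r : ℝ) (hl : 0 ≤ l) (_hr : 0 ≤ r) (h1 : r ≤ ‖w‖ + l)
    (h2 : ‖w‖ ≤ r + l) (h3 : l ≤ r + ‖w‖) : ∃ u : ℂ, ‖u‖ = 1 ∧ ‖w + (l : ℂ) * u‖ = r := by
  rcases eq_or_ne w 0 with rfl | hw
  · refine ⟨1, by simp, ?_⟩
    simp only [norm_zero, zero_add, add_zero] at h1 h3 ⊢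
    rw [mul_one, Complex.norm_real, Real.norm_eq_abs, abs_of_nonneg hl]
    linarith
  · set e : ℂ := w / ‖w‖ with he
    have hn : (‖w‖ : ℂ) ≠ 0 := by exact_mod_cast norm_ne_zero_iff.2 hw
    have hnr : ‖w‖ ≠ 0 := norm_ne_zero_iff.2 hw
    have hen : ‖e‖ = 1 := by
      rw [he, norm_div, Complex.norm_real, norm_norm, div_self hnr]
    have hwe : w = (‖w‖ : ℂ) * e := by rw [he]; field_simp
    set f : ℝ → ℝ := fun θ => ‖w + (l : ℂ) * (e * Complex.exp (θ * Complex.I))‖ with hf
    have hcont : Continuous f := by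
      rw [hf]; fun_prop
    have hf0 : f 0 = ‖w‖ + l := by
      have : w + (l : ℂ) * (e * Complex.exp ((0 : ℝ) * Complex.I)) = ((‖w‖ + l : ℝ) : ℂ) * e := by
        nth_rewrite 1 [hwe]
        simp; ring
      rw [hf]; simp only
      rw [this, norm_mul, hen, mul_one, Complex.norm_real, Real.norm_eq_abs,
        abs_of_nonneg (by positivity)]
    have hfpi : f Real.pi = |‖w‖ - l| := by
      have : w + (l : ℂ) * (e * Complex.exp ((Real.pi : ℝ) * Complex.I)) =
          ((‖w‖ - l : ℝ) : ℂ) * e := by
        nth_rewrite 1 [hwe]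
        rw [Complex.exp_pi_mul_I]
        push_cast; ring
      rw [hf]; simp only
      rw [this, norm_mul, hen, mul_one, Complex.norm_real, Real.norm_eq_abs]
    have hmem : r ∈ Set.Icc (f Real.pi) (f 0) := by
      rw [hfpi, hf0]
      refine ⟨?_, h1⟩
      rw [abs_le]; constructor <;> linarith
    obtain ⟨θ, -, hθ⟩ := intermediate_value_Icc' Real.pi_pos.le hcont.continuousOn hmem
    refine ⟨e * Complex.exp (θ * Complex.I), ?_, hθ⟩
    rw [norm_mul, hen, one_mul, Complex.norm_exp_ofReal_mul_I]

theorem polygon_aux {ι : Type*} [DecidableEq ι] (l : ι → ℝ) (S : Finset ι) :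
    (∀ i ∈ S, 0 ≤ l i) → ∀ r : ℝ, 0 ≤ r → r ≤ ∑ i ∈ S, l i →
    (∀ i ∈ S, l i ≤ r + ∑ j ∈ S.erase i, l j) →
    ∃ u : ι → ℂ, (∀ i, ‖u i‖ = 1) ∧ ‖∑ i ∈ S, (l i : ℂ) * u i‖ = r := by
  induction S using Finset.induction_on with
  | empty =>
    intro _ r hr h1 _
    refine ⟨fun _ => 1, by simp, ?_⟩
    simp only [Finset.sum_empty, norm_zero] at h1 ⊢
    linarith
  | insert a S ha ih =>
    intro hl r hr h1 h2
    have hla : 0 ≤ l a := hl a (Finset.mem_insert_self _ _)
    have hlS : ∀ i ∈ S, 0 ≤ l i := fun i hi => hl i (Finset.mem_insert_of_mem hi)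
    set s : ℝ := ∑ i ∈ S, l i with hs
    have hs0 : 0 ≤ s := Finset.sum_nonneg hlS
    rw [Finset.sum_insert ha] at h1
    have h2a : l a ≤ r + s := by
      have := h2 a (Finset.mem_insert_self _ _)
      rwa [Finset.erase_insert ha] at this
    have h2S : ∀ i ∈ S, 2 * l i - s ≤ r + l a := by
      intro i hi
      have h3 := h2 i (Finset.mem_insert_of_mem hi)
      have hne : a ≠ i := by rintro rfl; exact ha hi
      rw [Finset.erase_insert_of_ne hne, Finset.sum_insert (by
        intro h; exact ha (Finset.mem_of_mem_erase h))] at h3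
      have h4 : ∑ j ∈ S.erase i, l j = s - l i := by
        rw [hs, ← Finset.add_sum_erase _ _ hi]; ring
      rw [h4] at h3
      linarith
    have h2S' : ∀ i ∈ S, 2 * l i - s ≤ s := by
      intro i hi
      have := Finset.single_le_sum hlS hi
      linarith
    -- the intermediate length
    set r' : ℝ := (insert a S).sup' ⟨a, Finset.mem_insert_self _ _⟩
      (fun i => if i = a then |r - l a| else 2 * l i - s) with hr'
    have hr'a : |r - l a| ≤ r' := by
      have := Finset.le_sup' (fun i => if i = a then |r - l a| else 2 * l i - s)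
        (Finset.mem_insert_self a S)
      rw [if_pos rfl] at this
      exact this
    have hr'i : ∀ i ∈ S, 2 * l i - s ≤ r' := by
      intro i hi
      have := Finset.le_sup' (fun i => if i = a then |r - l a| else 2 * l i - s)
        (Finset.mem_insert_of_mem (a := i) (b := a) hi)
      have hne : i ≠ a := by rintro rfl; exact ha hi
      rw [if_neg hne] at this
      exact this
    have hr's : r' ≤ s := by
      rw [hr']
      refine Finset.sup'_le _ _ fun i hi => ?_
      by_cases hia : i = a
      · rw [if_pos hia, abs_le]; constructor <;> linarith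
      · rw [if_neg hia]; exact h2S' i ((Finset.mem_insert.1 hi).resolve_left hia)
    have hr'2 : r' ≤ r + l a := by
      rw [hr']
      refine Finset.sup'_le _ _ fun i hi => ?_
      by_cases hia : i = a
      · rw [if_pos hia, abs_le]; constructor <;> linarith
      · rw [if_neg hia]; exact h2S i ((Finset.mem_insert.1 hi).resolve_left hia)
    have hr'0 : 0 ≤ r' := (abs_nonneg _).trans hr'a
    obtain ⟨u, hu1, hu2⟩ := ih hlS r' hr'0 hr's (fun i hi => by
      have h4 : ∑ j ∈ S.erase i, l j = s - l i := by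
        rw [hs, ← Finset.add_sum_erase _ _ hi]; ring
      rw [h4]
      have := hr'i i hi
      linarith)
    have habs := abs_le.1 hr'a
    obtain ⟨v, hv1, hv2⟩ := triangle (∑ i ∈ S, (l i : ℂ) * u i) (l a) r hla hr
      (by rw [hu2]; linarith) (by rw [hu2]; linarith) (by rw [hu2]; linarith)
    refine ⟨Function.update u a v, fun i => ?_, ?_⟩
    · by_cases hia : i = a
      · subst hia; rw [Function.update_self, hv1]
      · rw [Function.update_of_ne hia, hu1]
    · rw [Finset.sum_insert ha, Function.update_self, add_comm]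
      rw [← hv2]
      congr 2
      exact Finset.sum_congr rfl fun i hi => by
        rw [Function.update_of_ne (by rintro rfl; exact ha hi)]

/-- Given complex coefficients `b i` and radii `r i` satisfying the polygon inequalities, there is
a vector of complex numbers with these radii killed by the coefficients. -/
theorem polygon {n : ℕ} (b : Fin n → ℂ) (r : Fin n → ℝ) (hr : ∀ i, 0 ≤ r i)
    (h : ∀ i, ‖b i‖ * r i ≤ ∑ j ∈ Finset.univ.erase i, ‖b j‖ * r j) :
    ∃ z : Fin n → ℂ, (∀ i, ‖z i‖ = r i) ∧ ∑ i, b i * z i = 0 := by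
  classical
  obtain ⟨u, hu1, hu2⟩ := polygon_aux (fun i => ‖b i‖ * r i) Finset.univ
    (fun i _ => mul_nonneg (norm_nonneg _) (hr i)) 0 le_rfl
    (Finset.sum_nonneg fun i _ => mul_nonneg (norm_nonneg _) (hr i))
    (fun i _ => by rw [zero_add]; exact h i)
  rw [norm_eq_zero] at hu2
  refine ⟨fun i => if b i = 0 then (r i : ℂ) else (r i : ℂ) * (conj (b i) / ‖b i‖) * u i,
    fun i => ?_, ?_⟩
  · by_cases hb : b i = 0
    · simp only [hb, if_true]
      rw [Complex.norm_real, Real.norm_eq_abs, abs_of_nonneg (hr i)]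
    · simp only [hb, if_false]
      have : ‖b i‖ ≠ 0 := norm_ne_zero_iff.2 hb
      rw [norm_mul, norm_mul, norm_div, Complex.norm_conj, Complex.norm_real, Complex.norm_real,
        norm_norm, div_self this, hu1, mul_one, mul_one, Real.norm_eq_abs, abs_of_nonneg (hr i)]
  · refine (Finset.sum_congr rfl fun i _ => ?_).trans hu2
    by_cases hb : b i = 0
    · simp [hb]
    · simp only [hb, if_false]
      have h0 : (‖b i‖ : ℂ) ≠ 0 := by exact_mod_cast norm_ne_zero_iff.2 hb
      have h4 : b i * conj (b i) = (‖b i‖ : ℂ) ^ 2 := by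
        rw [Complex.mul_conj, Complex.normSq_eq_norm_sq]; push_cast; ring
      push_cast
      field_simp
      linear_combination (r i : ℂ) * (u i) * h4

end Pool.Agent.TH832.Smyth
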