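import Mathlib
import Pool.Agent.TH832.Smyth.Contract
import Pool.Agent.TH832.Smyth.Polygon

set_option autoImplicit false

/-! Functionals on moment differences that are nonnegative on relations vanish on relations. -/

namespace Pool.Agent.TH832.Smyth

open NumberField Module MeasureTheory
open scoped ComplexConjugate

variable {K : Type} [Field K] [NumberField K] {n : ℕ}

noncomputable local instance instMSCircle : MeasurableSpace Circle := borel Circle
local instance instBSCircle : BorelSpace Circle := ⟨rfl⟩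

/-- moment vector -/
noncomputable def mom (L : ℕ) (y : (K →+* ℂ) → ℂ) : ((K →+* ℂ) → Fin L) → ℂ :=
  fun α => ∏ σ, y σ ^ (α σ : ℕ)

/-- differences of moment vectors -/
noncomputable def dmom [NeZero n] (L : ℕ) (x : Fin n → (K →+* ℂ) → ℂ) :
    Fin n → ((K →+* ℂ) → Fin L) → ℂ :=
  fun i => mom L (x i) - mom L (x 0)

/-- the symmetric part -/
noncomputable def sre (x : (K →+* ℂ) → ℂ) : (K →+* ℂ) → ℂ :=
  fun σ => (x σ + conj (x (ComplexEmbedding.conjugate σ))) / 2

lemma conjugate_conjugate (σ : K →+* ℂ) :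
    ComplexEmbedding.conjugate (ComplexEmbedding.conjugate σ) = σ := star_star σ

lemma sym_sre (x : (K →+* ℂ) → ℂ) : Sym (sre x) := by
  intro σ
  simp only [sre, map_div₀, map_add, Complex.conj_conj, conjugate_conjugate, Complex.conj_ofNat]
  ring

lemma sre_of_sym {x : (K →+* ℂ) → ℂ} (hx : Sym x) : sre x = x := by
  funext σ
  simp only [sre]
  rw [← hx σ, Complex.conj_conj]
  ring

lemma sre_mul (c : K) (x : (K →+* ℂ) → ℂ) :
    sre (canonicalEmbedding K c * x) = canonicalEmbedding K c * sre x := by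
  funext σ
  simp only [sre, Pi.mul_apply, canonicalEmbedding.apply_at, map_mul,
    ComplexEmbedding.conjugate_coe_eq, Complex.conj_conj]
  ring

lemma sre_sum {ι : Type*} (S : Finset ι) (f : ι → (K →+* ℂ) → ℂ) :
    sre (∑ i ∈ S, f i) = ∑ i ∈ S, sre (f i) := by
  funext σ
  simp only [sre, Finset.sum_apply, map_sum]
  rw [← Finset.sum_add_distrib, Finset.sum_div]

lemma sre_zero : sre (0 : (K →+* ℂ) → ℂ) = 0 := by
  funext σ; simp [sre]

lemma continuous_mom (L : ℕ) : Continuous (mom L : ((K →+* ℂ) → ℂ) → _) := by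
  unfold mom; fun_prop

lemma continuous_sre : Continuous (sre : ((K →+* ℂ) → ℂ) → _) := by
  unfold sre
  fun_prop

lemma continuous_dmom [NeZero n] (L : ℕ) :
    Continuous (dmom L : (Fin n → (K →+* ℂ) → ℂ) → _) := by
  have h := continuous_mom (K := K) L
  unfold dmom
  fun_prop

/-- archimedean relations -/
def RelC (a : Fin n → 𝓞 K) (x : Fin n → (K →+* ℂ) → ℂ) : Prop :=
  ∑ i, canonicalEmbedding K (a i : K) * x i = 0

/-- rational relations -/
def RelK (a : Fin n → 𝓞 K) (x : Fin n → K) : Prop := ∑ i, (a i : K) * x i = 0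

lemma relC_of_relK {a : Fin n → 𝓞 K} {x : Fin n → K} (hx : RelK a x) :
    RelC a (fun i => canonicalEmbedding K (x i)) := by
  unfold RelC; unfold RelK at hx
  rw [← map_zero (canonicalEmbedding K), ← hx, map_sum]
  simp only [map_mul]

lemma relK_of_rel {a x : Fin n → 𝓞 K} (hx : Rel a x) : RelK a (fun i => (x i : K)) := by
  unfold RelK; unfold Rel at hx
  have := congrArg (algebraMap (𝓞 K) K) hx
  simpa [map_sum, map_mul] using this

lemma relC_sre {a : Fin n → 𝓞 K} {x : Fin n → (K →+* ℂ) → ℂ} (hx : RelC a x) :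
    RelC a (fun i => sre (x i)) := by
  unfold RelC at *
  rw [← sre_zero, ← hx, sre_sum]
  simp only [sre_mul]

section main

variable [NeZero n] {L : ℕ} {a : Fin n → 𝓞 K}
  (g : (Fin n → ((K →+* ℂ) → Fin L) → ℂ) →ₗ[ℝ] ℝ)

lemma exists_ne (ha : Arch a) : ∃ i₀, (a i₀ : K) ≠ 0 := by
  obtain ⟨σ₀⟩ := (inferInstance : Nonempty (K →+* ℂ))
  by_contra hcon
  push Not at hcon
  have h1 := ha σ₀ 0
  rw [hcon 0, Finset.sum_eq_zero (fun j _ => by rw [hcon j, map_zero, norm_zero]), map_zero,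
    norm_zero] at h1
  exact lt_irrefl _ h1

lemma continuous_g : Continuous g := LinearMap.continuous_of_finiteDimensional g

/-- nonnegativity extends to symmetric archimedean relations -/
lemma nonneg_sym (ha : Arch a)
    (hg : ∀ x : Fin n → K, RelK a x → 0 ≤ g (dmom L fun i => canonicalEmbedding K (x i)))
    (x : Fin n → (K →+* ℂ) → ℂ) (hx : ∀ i, Sym (x i)) (hr : RelC a x) :
    0 ≤ g (dmom L x) := by
  by_contra hneg
  push Not at hneg
  obtain ⟨i₀, hi₀⟩ := exists_ne ha
  have hopen : IsOpen {x : Fin n → (K →+* ℂ) → ℂ | g (dmom L x) < 0} :=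
    isOpen_lt ((continuous_g g).comp (continuous_dmom L)) continuous_const
  obtain ⟨ε, hε, hball⟩ := Metric.isOpen_iff.1 hopen x hneg
  obtain ⟨w, hw1, hw2⟩ := dens_rel (fun i => (a i : K)) i₀ hi₀ 0 x hx
    (by rw [map_zero]; exact hr) hε
  have h1 : (fun i => canonicalEmbedding K (w i)) ∈ Metric.ball x ε := by
    rw [Metric.mem_ball, dist_pi_lt_iff hε]
    intro i
    rw [dist_eq_norm]; exact hw2 i
  exact absurd (hball h1) (not_lt.2 (hg w hw1))

/-- the separated pieces -/
noncomputable def pc (i : Fin n) (z : (K →+* ℂ) → ℂ) : ℝ :=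
  g (Pi.single i (mom L (sre z))) - if i = 0 then g (fun _ => mom L (sre z)) else 0

lemma pc_continuous (i : Fin n) : Continuous (pc g i) := by
  have h1 : Continuous fun z : (K →+* ℂ) → ℂ => mom L (sre z) :=
    (continuous_mom L).comp continuous_sre
  have h2 := continuous_g g
  unfold pc
  refine Continuous.sub (h2.comp ?_) ?_
  · exact (continuous_single i).comp h1
  · split_ifs
    · exact h2.comp (continuous_pi fun _ => h1)
    · exact continuous_const

lemma sum_single_eq (f : Fin n → ((K →+* ℂ) → Fin L) → ℂ) :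
    ∑ i, g (Pi.single i (f i)) = g f := by
  rw [← map_sum]
  congr 1
  exact Finset.univ_sum_single f

lemma pc_sum (x : Fin n → (K →+* ℂ) → ℂ) :
    ∑ i, pc g i (x i) = g (dmom L fun i => sre (x i)) := by
  unfold pc
  rw [Finset.sum_sub_distrib, sum_single_eq g (fun i => mom L (sre (x i))),
    Finset.sum_ite_eq' Finset.univ 0]
  simp only [Finset.mem_univ, if_true]
  rw [← map_sub]
  rfl

lemma pc_sum_zero (z : (K →+* ℂ) → ℂ) : ∑ i, pc g i z = 0 := by
  rw [pc_sum g (fun _ => z)]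
  have : (dmom L fun _ : Fin n => sre z) = 0 := by
    funext i; simp [dmom]
  rw [this, map_zero]

/-- rotation -/
noncomputable def rot (ζ : (K →+* ℂ) → Circle) (z : (K →+* ℂ) → ℂ) : (K →+* ℂ) → ℂ :=
  fun σ => (ζ σ : ℂ) * z σ

lemma rot_mul (ζ ξ : (K →+* ℂ) → Circle) (z : (K →+* ℂ) → ℂ) :
    rot (ζ * ξ) z = rot ζ (rot ξ z) := by
  funext σ; simp [rot, mul_assoc]

lemma rot_continuous (z : (K →+* ℂ) → ℂ) :
    Continuous fun ζ : (K →+* ℂ) → Circle => rot ζ z := by
  unfold rot; fun_prop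

lemma rot_one (z : (K →+* ℂ) → ℂ) : rot 1 z = z := by
  funext σ; simp [rot]

lemma relC_rot {x : Fin n → (K →+* ℂ) → ℂ} (hx : RelC a x) (ζ : (K →+* ℂ) → Circle) :
    RelC a (fun i => rot ζ (x i)) := by
  unfold RelC at *
  funext σ
  have := congrFun hx σ
  simp only [Finset.sum_apply, Pi.mul_apply, Pi.zero_apply, rot] at this ⊢
  rw [← mul_zero (ζ σ : ℂ), ← this, Finset.mul_sum]
  exact Finset.sum_congr rfl fun i _ => by ring

/-- the rotation average -/
noncomputable def av (i : Fin n) (z : (K →+* ℂ) → ℂ) : ℝ :=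
  ∫ ζ : (K →+* ℂ) → Circle, pc g i (rot ζ z) ∂(Measure.haar)

lemma av_eq (i : Fin n) (z z' : (K →+* ℂ) → ℂ) (h : ∀ σ, ‖z σ‖ = ‖z' σ‖) :
    av g i z = av g i z' := by
  have hu : ∀ σ, ∃ u : Circle, z' σ = (u : ℂ) * z σ := by
    intro σ
    rcases eq_or_ne (z σ) 0 with h0 | h0
    · refine ⟨1, ?_⟩
      have : ‖z' σ‖ = 0 := by rw [← h σ, h0, norm_zero]
      rw [norm_eq_zero.1 this, h0, mul_zero]
    · have hn : ‖z' σ / z σ‖ = 1 := by
        rw [norm_div, ← h σ, div_self (norm_ne_zero_iff.2 h0)]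
      refine ⟨⟨z' σ / z σ, mem_sphere_zero_iff_norm.2 hn⟩, ?_⟩
      simp only
      field_simp
  choose u hu using hu
  have hz' : z' = rot u z := funext hu
  rw [hz']
  unfold av
  simp only [← rot_mul]
  exact (integral_mul_right_eq_self (μ := Measure.haar)
    (fun ζ => pc g i (rot ζ z)) u).symm

lemma av_integrable (i : Fin n) (z : (K →+* ℂ) → ℂ) :
    Integrable (fun ζ : (K →+* ℂ) → Circle => pc g i (rot ζ z)) Measure.haar :=
  ((pc_continuous g i).comp (rot_continuous z)).integrable_of_hasCompactSupport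
    (HasCompactSupport.of_compactSpace _)

lemma av_sum (x : Fin n → (K →+* ℂ) → ℂ) :
    ∑ i, av g i (x i) =
      ∫ ζ : (K →+* ℂ) → Circle, g (dmom L fun i => sre (rot ζ (x i))) ∂(Measure.haar) := by
  unfold av
  rw [← integral_finsetSum _ fun i _ => av_integrable g i (x i)]
  refine integral_congr_ae (Filter.Eventually.of_forall fun ζ => ?_)
  exact pc_sum g (fun i => rot ζ (x i))

lemma av_sum_zero (z : (K →+* ℂ) → ℂ) : ∑ i, av g i z = 0 := by
  rw [av_sum g (fun _ => z)]
  have : ∀ ζ : (K →+* ℂ) → Circle, g (dmom L fun _ : Fin n => sre (rot ζ z)) = 0 := by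
    intro ζ
    rw [← pc_sum g (fun _ => rot ζ z)]; exact pc_sum_zero g _
  simp only [this, integral_zero]

variable {g}

lemma av_nonneg (ha : Arch a)
    (hg : ∀ x : Fin n → K, RelK a x → 0 ≤ g (dmom L fun i => canonicalEmbedding K (x i)))
    (x : Fin n → (K →+* ℂ) → ℂ) (hr : RelC a x) : 0 ≤ ∑ i, av g i (x i) := by
  rw [av_sum]
  exact integral_nonneg fun ζ => nonneg_sym g ha hg _ (fun i => sym_sre _)
    (relC_sre (relC_rot hr ζ))

/-- relations with prescribed radii -/
lemma exists_radii (R : Fin n → (K →+* ℂ) → ℝ) (hR : ∀ i σ, 0 ≤ R i σ)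
    (h : ∀ σ : K →+* ℂ, ∀ i, ‖σ (a i : K)‖ * R i σ ≤
      ∑ j ∈ Finset.univ.erase i, ‖σ (a j : K)‖ * R j σ) :
    ∃ x : Fin n → (K →+* ℂ) → ℂ, RelC a x ∧ ∀ i σ, ‖x i σ‖ = R i σ := by
  choose z hz1 hz2 using fun σ : K →+* ℂ => polygon (fun i => σ (a i : K)) (fun i => R i σ)
    (fun i => hR i σ) (h σ)
  refine ⟨fun i σ => z σ i, ?_, fun i σ => hz1 σ i⟩
  unfold RelC
  funext σ
  simp only [Finset.sum_apply, Pi.mul_apply, canonicalEmbedding.apply_at, Pi.zero_apply]
  exact hz2 σ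

/-- the margin in the strict archimedean criterion -/
lemma margin (ha : Arch a) : ∃ η : ℝ, 0 < η ∧ η < 1 ∧ ∀ σ : K →+* ℂ, ∀ i,
    ‖σ (a i : K)‖ * (1 + η) ≤ ∑ j ∈ Finset.univ.erase i, ‖σ (a j : K)‖ * (1 - η) := by
  classical
  have h1 : ∀ p : (K →+* ℂ) × Fin n, ∃ η : ℝ, 0 < η ∧ ∀ η', 0 < η' → η' ≤ η →
      ‖p.1 (a p.2 : K)‖ * (1 + η') ≤
        (∑ j ∈ Finset.univ.erase p.2, ‖p.1 (a j : K)‖) * (1 - η') := by
    intro p
    set A := ‖p.1 (a p.2 : K)‖
    set B := ∑ j ∈ Finset.univ.erase p.2, ‖p.1 (a j : K)‖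
    have hAB : A < B := ha p.1 p.2
    have hA : 0 ≤ A := norm_nonneg _
    refine ⟨(B - A) / (B + A), by
      have : 0 < B - A := by linarith
      have : 0 < B + A := by linarith
      positivity, fun η' _ h => ?_⟩
    rw [le_div_iff₀ (by linarith)] at h
    nlinarith
  choose η hη hη' using h1
  obtain ⟨p, -, hp⟩ := Finset.exists_min_image (Finset.univ : Finset ((K →+* ℂ) × Fin n)) η
    (by
      obtain ⟨σ₀⟩ := (inferInstance : Nonempty (K →+* ℂ))
      exact ⟨(σ₀, 0), Finset.mem_univ _⟩)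
  have hpos : 0 < min (η p) (1 / 2) := lt_min (hη p) (by norm_num)
  refine ⟨min (η p) (1 / 2), hpos,
    (min_le_right _ _).trans_lt (by norm_num), fun σ i => ?_⟩
  rw [← Finset.sum_mul]
  exact hη' (σ, i) _ hpos ((min_le_left _ _).trans (hp (σ, i) (Finset.mem_univ _)))

lemma annulus (ha : Arch a)
    (hg : ∀ x : Fin n → K, RelK a x → 0 ≤ g (dmom L fun i => canonicalEmbedding K (x i)))
    {η : ℝ} (hη0 : 0 < η) (hη1 : η < 1) (hη : ∀ σ : K →+* ℂ, ∀ i,
      ‖σ (a i : K)‖ * (1 + η) ≤ ∑ j ∈ Finset.univ.erase i, ‖σ (a j : K)‖ * (1 - η))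
    (ρ : ℝ) (hρ : 0 < ρ) (x : Fin n → (K →+* ℂ) → ℂ) (hr : RelC a x)
    (hx : ∀ i σ, (1 - η) * ρ ≤ ‖x i σ‖ ∧ ‖x i σ‖ ≤ (1 + η) * ρ) :
    g (dmom L fun i => sre (x i)) = 0 := by
  classical
  have hpoly : ∀ R : Fin n → (K →+* ℂ) → ℝ,
      (∀ i σ, (1 - η) * ρ ≤ R i σ ∧ R i σ ≤ (1 + η) * ρ) →
      ∃ x : Fin n → (K →+* ℂ) → ℂ, RelC a x ∧ ∀ i σ, ‖x i σ‖ = R i σ := by
    intro R hR
    refine exists_radii R (fun i σ => le_trans (by
      have : 0 < 1 - η := by linarith
      positivity) (hR i σ).1) fun σ i => ?_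
    calc ‖σ (a i : K)‖ * R i σ ≤ ‖σ (a i : K)‖ * ((1 + η) * ρ) :=
          mul_le_mul_of_nonneg_left (hR i σ).2 (norm_nonneg _)
      _ = (‖σ (a i : K)‖ * (1 + η)) * ρ := by ring
      _ ≤ (∑ j ∈ Finset.univ.erase i, ‖σ (a j : K)‖ * (1 - η)) * ρ :=
          mul_le_mul_of_nonneg_right (hη σ i) hρ.le
      _ = ∑ j ∈ Finset.univ.erase i, ‖σ (a j : K)‖ * ((1 - η) * ρ) := by
          rw [Finset.sum_mul]; exact Finset.sum_congr rfl fun _ _ => by ring
      _ ≤ ∑ j ∈ Finset.univ.erase i, ‖σ (a j : K)‖ * R j σ :=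
          Finset.sum_le_sum fun j _ => mul_le_mul_of_nonneg_left (hR j σ).1 (norm_nonneg _)
  -- all averages agree
  have hkey : ∀ (z z' : (K →+* ℂ) → ℂ),
      (∀ σ, (1 - η) * ρ ≤ ‖z σ‖ ∧ ‖z σ‖ ≤ (1 + η) * ρ) →
      (∀ σ, (1 - η) * ρ ≤ ‖z' σ‖ ∧ ‖z' σ‖ ≤ (1 + η) * ρ) → ∀ i,
      av g i z' ≤ av g i z := by
    intro z z' hz hz' i
    obtain ⟨y, hy1, hy2⟩ := hpoly (fun j σ => if j = i then ‖z σ‖ else ‖z' σ‖) (by
      intro j σ
      by_cases hj : j = i
      · simp only [hj, if_true]; exact hz σ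
      · simp only [hj, if_false]; exact hz' σ)
    have h1 := av_nonneg ha hg y hy1
    have h2 := av_sum_zero g z'
    rw [← Finset.add_sum_erase _ _ (Finset.mem_univ i)] at h1 h2
    have h3 : av g i (y i) = av g i z := av_eq g i _ _ fun σ => by rw [hy2, if_pos rfl]
    have h4 : ∑ j ∈ Finset.univ.erase i, av g j (y j) =
        ∑ j ∈ Finset.univ.erase i, av g j z' := Finset.sum_congr rfl fun j hj =>
      av_eq g j _ _ fun σ => by rw [hy2, if_neg (Finset.ne_of_mem_erase hj)]
    rw [h3, h4] at h1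
    linarith
  have hzero : ∑ i, av g i (x i) = 0 := by
    have h1 : ∑ i, av g i (x i) = ∑ i, av g i (x 0) := Finset.sum_congr rfl fun i _ =>
      le_antisymm (hkey (x 0) (x i) (hx 0) (hx i) i) (hkey (x i) (x 0) (hx i) (hx 0) i)
    rw [h1, av_sum_zero]
  rw [av_sum] at hzero
  have hcont : Continuous fun ζ : (K →+* ℂ) → Circle =>
      g (dmom L fun i => sre (rot ζ (x i))) := by
    refine (continuous_g g).comp ((continuous_dmom L).comp (continuous_pi fun i => ?_))
    exact continuous_sre.comp (rot_continuous (x i))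
  have hnn : 0 ≤ fun ζ : (K →+* ℂ) → Circle => g (dmom L fun i => sre (rot ζ (x i))) :=
    fun ζ => nonneg_sym g ha hg _ (fun i => sym_sre _) (relC_sre (relC_rot hr ζ))
  by_contra hne
  have h1 : (fun ζ : (K →+* ℂ) → Circle => g (dmom L fun i => sre (rot ζ (x i)))) 1 ≠ 0 := by
    simpa only [rot_one] using hne
  have h2 := hcont.integral_pos_of_hasCompactSupport_nonneg_nonzero (μ := Measure.haar)
    (HasCompactSupport.of_compactSpace _) hnn h1
  rw [hzero] at h2
  exact lt_irrefl _ h2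

theorem poly_liouville (ha : Arch a)
    (hg : ∀ x : Fin n → K, RelK a x → 0 ≤ g (dmom L fun i => canonicalEmbedding K (x i)))
    (x : Fin n → K) (hx : RelK a x) : g (dmom L fun i => canonicalEmbedding K (x i)) = 0 := by
  classical
  obtain ⟨η, hη0, hη1, hη⟩ := margin ha
  obtain ⟨u, hu1, hu2⟩ := exists_radii (a := a) (fun _ _ => 1) (fun _ _ => zero_le_one) (by
    intro σ i
    simp only [mul_one]
    exact (ha σ i).le)
  set y : Fin n → (K →+* ℂ) → ℂ := fun i => canonicalEmbedding K (x i) with hy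
  have hyrel : RelC a y := relC_of_relK hx
  set C : ℝ := ∑ i, ‖y i‖ with hC
  have hC0 : 0 ≤ C := Finset.sum_nonneg fun _ _ => norm_nonneg _
  have hyC : ∀ i σ, ‖y i σ‖ ≤ C := fun i σ => (norm_le_pi_norm (y i) σ).trans
    (Finset.single_le_sum (f := fun i => ‖y i‖) (fun _ _ => norm_nonneg _) (Finset.mem_univ i))
  -- the function of the scale
  set h : ℝ → ℝ := fun T => g (dmom L fun i => sre (fun σ => y i σ + (T : ℂ) * u i σ)) with hh
  have hbig : ∀ T : ℝ, (C + 1) / η < T → h T = 0 := by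
    intro T hT
    have hTpos : 0 < T := lt_trans (by positivity) hT
    have hCT : C ≤ η * T := by
      rw [div_lt_iff₀ hη0] at hT
      linarith
    refine annulus ha hg hη0 hη1 hη T hTpos _ ?_ fun i σ => ?_
    · unfold RelC at *
      funext σ
      have h1 := congrFun hyrel σ
      have h2 := congrFun hu1 σ
      simp only [Finset.sum_apply, Pi.mul_apply, Pi.zero_apply] at h1 h2 ⊢
      simp only [mul_add, Finset.sum_add_distrib]
      rw [h1, zero_add]
      rw [← mul_zero (T : ℂ), ← h2, Finset.mul_sum]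
      exact Finset.sum_congr rfl fun i _ => by ring
    · have h1 : ‖(T : ℂ) * u i σ‖ = T := by
        rw [norm_mul, hu2, mul_one, Complex.norm_real, Real.norm_eq_abs, abs_of_pos hTpos]
      have h2 := norm_add_le (y i σ) ((T : ℂ) * u i σ)
      have h3 := norm_sub_norm_le ((T : ℂ) * u i σ) (-(y i σ))
      rw [sub_neg_eq_add, norm_neg, add_comm ((T : ℂ) * u i σ)] at h3
      have h4 := hyC i σ
      rw [h1] at h2 h3
      constructor <;> nlinarith
  have han : AnalyticOnNhd ℝ h Set.univ := by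
    intro T _
    have h1 : AnalyticAt ℝ (fun T : ℝ => (T : ℂ)) T := Complex.ofRealCLM.analyticAt T
    have h2 : ∀ i σ, AnalyticAt ℝ (fun T : ℝ =>
        sre (fun σ => y i σ + (T : ℂ) * u i σ) σ) T := by
      intro i σ
      have : (fun T : ℝ => sre (fun σ => y i σ + (T : ℂ) * u i σ) σ) = fun T : ℝ =>
          ((y i σ + (T : ℂ) * u i σ) + (conj (y i (ComplexEmbedding.conjugate σ)) +
            (T : ℂ) * conj (u i (ComplexEmbedding.conjugate σ)))) / 2 := by
        funext T
        simp only [sre, map_add, map_mul, Complex.conj_ofReal]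
      rw [this]
      fun_prop
    have h3 : ∀ i, AnalyticAt ℝ (fun T : ℝ =>
        mom L (sre (fun σ => y i σ + (T : ℂ) * u i σ))) T := by
      intro i
      rw [analyticAt_pi_iff]
      intro α
      unfold mom
      apply Finset.analyticAt_fun_prod
      intro σ _
      exact (h2 i σ).pow _
    have h4 : AnalyticAt ℝ (fun T : ℝ =>
        dmom L fun i => sre (fun σ => y i σ + (T : ℂ) * u i σ)) T := by
      rw [analyticAt_pi_iff]
      intro i
      unfold dmom
      exact (h3 i).sub (h3 0)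
    exact ((LinearMap.toContinuousLinearMap g).analyticAt _).comp h4
  have h0 : h 0 = 0 := by
    set T₀ := (C + 1) / η + 1
    have hev : h =ᶠ[nhds T₀] fun _ => 0 := by
      filter_upwards [lt_mem_nhds (show (C + 1) / η < T₀ by linarith)] with T hT
      exact hbig T hT
    have := han.eqOn_zero_of_preconnected_of_eventuallyEq_zero isPreconnected_univ
      (Set.mem_univ T₀) hev
    exact this (Set.mem_univ 0)
  rw [hh] at h0
  simp only [Complex.ofReal_zero, zero_mul, add_zero] at h0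
  have h5 : ∀ i, sre (fun σ => y i σ) = y i := fun i => sre_of_sym (sym_emb (x i))
  simp only [h5] at h0
  exact h0

end main

end Pool.Agent.TH832.Smyth
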