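import Mathlib
import Pool.Agent.TH832.Smyth.Cone
import Pool.Agent.TH832.Smyth.PolyLiou

set_option autoImplicit false
set_option linter.unusedSectionVars false

/-! Finite positive measures on integral relations with matching moments. -/

namespace Pool.Agent.TH832.Smyth

open NumberField Module

/-- If the cone spanned by `T` is a subspace then it is spanned by a finite subset. -/
theorem finite_hull {V : Type*} [AddCommGroup V] [Module ℝ V] [FiniteDimensional ℝ V] (T : Set V)
    (h : ∀ x ∈ PointedCone.hull ℝ T, -x ∈ PointedCone.hull ℝ T) :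
    ∃ T₁ : Finset V, ↑T₁ ⊆ T ∧
      ∀ x ∈ PointedCone.hull ℝ T, x ∈ PointedCone.hull ℝ (T₁ : Set V) := by
  classical
  set E : Submodule ℝ V :=
    { carrier := {x | x ∈ PointedCone.hull ℝ T}
      add_mem' := fun hx hy => (PointedCone.hull ℝ T).add_mem hx hy
      zero_mem' := (PointedCone.hull ℝ T).zero_mem
      smul_mem' := by
        intro r x hx
        rcases le_total 0 r with hr | hr
        · exact (PointedCone.hull ℝ T).smul_mem hr hx
        · have h1 := (PointedCone.hull ℝ T).smul_mem (show 0 ≤ -r by linarith) (h x hx)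
          simpa using h1 } with hE
  let b := Module.finBasis ℝ E
  have hb : ∀ k, ∃ S : Finset V, ↑S ⊆ T ∧ ((b k : E) : V) ∈ PointedCone.hull ℝ (S : Set V) :=
    fun k => Submodule.mem_span_finite_of_mem_span (b k).2
  have hb' : ∀ k, ∃ S : Finset V, ↑S ⊆ T ∧ -((b k : E) : V) ∈ PointedCone.hull ℝ (S : Set V) :=
    fun k => Submodule.mem_span_finite_of_mem_span (h _ (b k).2)
  choose S hS1 hS2 using hb
  choose S' hS1' hS2' using hb'
  refine ⟨Finset.univ.biUnion fun k => S k ∪ S' k, ?_, ?_⟩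
  · intro x hx
    simp only [Finset.coe_biUnion, Finset.coe_univ, Set.mem_univ, Finset.coe_union,
      Set.iUnion_true, Set.mem_iUnion, Set.mem_union, Finset.mem_coe] at hx
    obtain ⟨k, hk | hk⟩ := hx
    · exact hS1 k hk
    · exact hS1' k hk
  · intro x hx
    set T₁ : Set V := ((Finset.univ.biUnion fun k => S k ∪ S' k : Finset V) : Set V) with hT₁
    have hmono : ∀ k, (S k : Set V) ⊆ T₁ := by
      intro k y hy
      rw [hT₁]
      simp only [Finset.coe_biUnion, Finset.coe_univ, Set.mem_univ, Finset.coe_union,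
        Set.iUnion_true, Set.mem_iUnion, Set.mem_union, Finset.mem_coe]
      exact ⟨k, Or.inl hy⟩
    have hmono' : ∀ k, (S' k : Set V) ⊆ T₁ := by
      intro k y hy
      rw [hT₁]
      simp only [Finset.coe_biUnion, Finset.coe_univ, Set.mem_univ, Finset.coe_union,
        Set.iUnion_true, Set.mem_iUnion, Set.mem_union, Finset.mem_coe]
      exact ⟨k, Or.inr hy⟩
    have h1 : x = ∑ k, (b.repr ⟨x, hx⟩ k) • ((b k : E) : V) := by
      have := b.sum_repr ⟨x, hx⟩
      have h2 := congrArg (Subtype.val) this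
      simp only [AddSubmonoidClass.coe_finsetSum, SetLike.val_smul] at h2
      exact h2.symm
    rw [h1]
    refine Submodule.sum_mem _ fun k _ => ?_
    rcases le_total 0 (b.repr ⟨x, hx⟩ k) with hr | hr
    · exact (PointedCone.hull ℝ T₁).smul_mem hr (Submodule.span_mono (hmono k) (hS2 k))
    · have h3 := (PointedCone.hull ℝ T₁).smul_mem
        (show 0 ≤ -(b.repr ⟨x, hx⟩ k) by linarith) (Submodule.span_mono (hmono' k) (hS2' k))
      simpa using h3

variable {K : Type} [Field K] [NumberField K] {n : ℕ} [NeZero n]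

/-- degree scaling on moment vectors -/
noncomputable def scl (L : ℕ) (N : ℝ) :
    (Fin n → ((K →+* ℂ) → Fin L) → ℂ) →ₗ[ℝ] (Fin n → ((K →+* ℂ) → Fin L) → ℂ) where
  toFun e := fun i α => ((N ^ (∑ σ, (α σ : ℕ)) : ℝ) : ℂ) * e i α
  map_add' e f := by funext i α; simp [mul_add]
  map_smul' r e := by funext i α; simp; ring

lemma scl_mul (L : ℕ) (N N' : ℝ) (e : Fin n → ((K →+* ℂ) → Fin L) → ℂ) :
    scl L N (scl L N' e) = scl L (N * N') e := by
  funext i α
  simp only [scl, LinearMap.coe_mk, AddHom.coe_mk]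
  rw [mul_pow]; push_cast; ring

lemma scl_one (L : ℕ) (e : Fin n → ((K →+* ℂ) → Fin L) → ℂ) : scl L 1 e = e := by
  funext i α
  simp [scl]

lemma mom_smul (L : ℕ) (N : ℕ) (x : K) (α : (K →+* ℂ) → Fin L) :
    mom L (canonicalEmbedding K ((N : K) * x)) α =
      (((N : ℝ) ^ (∑ σ, (α σ : ℕ)) : ℝ) : ℂ) * mom L (canonicalEmbedding K x) α := by
  unfold mom
  simp only [canonicalEmbedding.apply_at, map_mul, map_natCast, mul_pow,
    Finset.prod_mul_distrib, Finset.prod_pow_eq_pow_sum]
  push_cast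
  rfl

lemma dmom_smul (L : ℕ) (N : ℕ) (x : Fin n → K) :
    dmom L (fun i => canonicalEmbedding K ((N : K) * x i)) =
      scl L (N : ℝ) (dmom L fun i => canonicalEmbedding K (x i)) := by
  funext i α
  simp only [dmom, scl, LinearMap.coe_mk, AddHom.coe_mk, Pi.sub_apply, mom_smul]
  ring

variable {a : Fin n → 𝓞 K}

theorem neg_mem_hull (ha : Arch a) (L : ℕ) (y : Fin n → 𝓞 K) (hy : Rel a y) :
    -(dmom L fun i => canonicalEmbedding K (y i : K)) ∈
      PointedCone.hull ℝ {e : Fin n → ((K →+* ℂ) → Fin L) → ℂ |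
        ∃ x : Fin n → 𝓞 K, Rel a x ∧ e = dmom L fun i => canonicalEmbedding K (x i : K)} := by
  classical
  set TK : Set (Fin n → ((K →+* ℂ) → Fin L) → ℂ) :=
    {e | ∃ x : Fin n → K, RelK a x ∧ e = dmom L fun i => canonicalEmbedding K (x i)} with hTK
  set TO : Set (Fin n → ((K →+* ℂ) → Fin L) → ℂ) :=
    {e | ∃ x : Fin n → 𝓞 K, Rel a x ∧ e = dmom L fun i => canonicalEmbedding K (x i : K)}
    with hTO
  have hneg : ∀ e ∈ PointedCone.hull ℝ TK, -e ∈ PointedCone.hull ℝ TK := by
    refine hull_neg TK fun g hg e he => ?_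
    obtain ⟨x, hx, rfl⟩ := he
    exact poly_liouville ha (fun x hx => hg _ ⟨x, hx, rfl⟩) x hx
  obtain ⟨T₁, hT₁, hT₁'⟩ := finite_hull TK hneg
  choose! X hX1 hX2 using fun e (he : e ∈ TK) => he
  -- a common denominator
  obtain ⟨N, hN, hNint⟩ : ∃ N : ℕ, N ≠ 0 ∧ ∀ e ∈ T₁, ∀ i, IsIntegral ℤ ((N : K) * X e i) := by
    obtain ⟨d, hd, hd'⟩ := exists_integral_multiples ℤ ℚ
      (T₁.biUnion fun e => Finset.univ.image fun i => X e i)
    refine ⟨d.natAbs, Int.natAbs_ne_zero.2 hd, fun e he i => ?_⟩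
    have h1 := hd' (X e i) (Finset.mem_biUnion.2 ⟨e, he, Finset.mem_image.2
      ⟨i, Finset.mem_univ _, rfl⟩⟩)
    rw [zsmul_eq_mul] at h1
    rcases Int.natAbs_eq d with h | h
    · rw [h] at h1; simpa using h1
    · rw [h] at h1
      have := h1.neg
      simpa using this
  have hNR : (N : ℝ) ≠ 0 := by exact_mod_cast hN
  have hNK : (N : K) ≠ 0 := by exact_mod_cast hN
  -- the scaled down point
  set y' : Fin n → K := fun i => (N : K)⁻¹ * (y i : K) with hy'
  have hy'rel : RelK a y' := by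
    have h1 := relK_of_rel hy
    unfold RelK at *
    have : ∑ i, (a i : K) * y' i = (N : K)⁻¹ * ∑ i, (a i : K) * (y i : K) := by
      rw [Finset.mul_sum]; exact Finset.sum_congr rfl fun i _ => by rw [hy']; ring
    rw [this, h1, mul_zero]
  have hscale : (dmom L fun i => canonicalEmbedding K (y i : K)) =
      scl L (N : ℝ) (dmom L fun i => canonicalEmbedding K (y' i)) := by
    rw [← dmom_smul]
    congr 1
    funext i
    rw [hy']
    simp only
    rw [mul_inv_cancel_left₀ hNK]
  have h1 : -(dmom L fun i => canonicalEmbedding K (y' i)) ∈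
      PointedCone.hull ℝ (T₁ : Set (Fin n → ((K →+* ℂ) → Fin L) → ℂ)) :=
    hT₁' _ (hneg _ (PointedCone.subset_hull ⟨y', hy'rel, rfl⟩))
  have h2 : ∀ e ∈ PointedCone.hull ℝ (T₁ : Set (Fin n → ((K →+* ℂ) → Fin L) → ℂ)),
      scl L (N : ℝ) e ∈ PointedCone.hull ℝ TO := by
    intro e he
    induction he using Submodule.span_induction with
    | mem e he =>
      have he' : e ∈ TK := hT₁ he
      apply PointedCone.subset_hull
      refine ⟨fun i => ⟨(N : K) * X e i, hNint e he i⟩, ?_, ?_⟩
      · have h3 := hX1 e he'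
        unfold Rel
        unfold RelK at h3
        apply FaithfulSMul.algebraMap_injective (𝓞 K) K
        rw [map_sum, map_zero]
        have : ∀ i, algebraMap (𝓞 K) K (a i * ⟨(N : K) * X e i, hNint e he i⟩) =
            (N : K) * ((a i : K) * X e i) := by
          intro i
          rw [map_mul]
          change (a i : K) * ((N : K) * X e i) = _
          ring
        simp only [this]
        rw [← Finset.mul_sum, h3, mul_zero]
      · conv_lhs => rw [hX2 e he']
        rw [← dmom_smul]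
        rfl
    | zero => rw [map_zero]; exact (PointedCone.hull ℝ TO).zero_mem
    | add x y _ _ hx hy => rw [map_add]; exact (PointedCone.hull ℝ TO).add_mem hx hy
    | smul r x _ hx =>
      have : (r • x : Fin n → ((K →+* ℂ) → Fin L) → ℂ) = (r : ℝ) • x := rfl
      rw [this, map_smul]
      exact (PointedCone.hull ℝ TO).smul_mem r.2 hx
  have h3 := h2 _ h1
  rw [map_neg, ← hscale] at h3
  exact h3

/-- A finite positive measure on integral relations, charging a prescribed finite set, with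
matching moments. -/
theorem matched (ha : Arch a) (L : ℕ) (Y : Finset (Fin n → 𝓞 K)) (hY : ∀ y ∈ Y, Rel a y) :
    ∃ (T : Finset (Fin n → 𝓞 K)) (w : (Fin n → 𝓞 K) → ℝ), Y ⊆ T ∧ (∀ x ∈ T, Rel a x) ∧
      (∀ x ∈ T, 0 < w x) ∧
      ∑ x ∈ T, w x • (dmom L fun i => canonicalEmbedding K (x i : K)) = 0 := by
  classical
  set F : {x : Fin n → 𝓞 K // Rel a x} → (Fin n → ((K →+* ℂ) → Fin L) → ℂ) :=
    fun x => dmom L fun i => canonicalEmbedding K (x.1 i : K) with hF
  have hset : {e : Fin n → ((K →+* ℂ) → Fin L) → ℂ |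
        ∃ x : Fin n → 𝓞 K, Rel a x ∧ e = dmom L fun i => canonicalEmbedding K (x i : K)} =
      Set.range F := by
    ext e
    constructor
    · rintro ⟨x, hx, rfl⟩; exact ⟨⟨x, hx⟩, rfl⟩
    · rintro ⟨x, rfl⟩; exact ⟨x.1, x.2, rfl⟩
  have h1 : ∑ y ∈ Y.attach, -(F ⟨y.1, hY y.1 y.2⟩) ∈ PointedCone.hull ℝ (Set.range F) := by
    refine Submodule.sum_mem _ fun y _ => ?_
    rw [← hset]
    exact neg_mem_hull ha L y.1 (hY y.1 y.2)
  obtain ⟨c, hc⟩ := Finsupp.mem_span_range_iff_exists_finsupp.1 h1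
  set w : (Fin n → 𝓞 K) → ℝ := fun x =>
    (if x ∈ Y then 1 else 0) + (if h : Rel a x then ((c ⟨x, h⟩ : {r : ℝ // 0 ≤ r}) : ℝ) else 0)
    with hw
  set T : Finset (Fin n → 𝓞 K) := Y ∪ c.support.image Subtype.val with hT
  have hTrel : ∀ x ∈ T, Rel a x := by
    intro x hx
    rcases Finset.mem_union.1 hx with h | h
    · exact hY x h
    · obtain ⟨z, -, rfl⟩ := Finset.mem_image.1 h
      exact z.2
  refine ⟨T, w, Finset.subset_union_left, hTrel, fun x hx => ?_, ?_⟩
  · have hnn : 0 ≤ (if h : Rel a x then ((c ⟨x, h⟩ : {r : ℝ // 0 ≤ r}) : ℝ) else 0) := by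
      split_ifs with h
      · exact (c ⟨x, h⟩).2
      · exact le_rfl
    by_cases hxY : x ∈ Y
    · simp only [hw, hxY, if_true]
      linarith
    · simp only [hw, hxY, if_false, zero_add]
      rw [dif_pos (hTrel x hx)]
      have h2 := (Finset.mem_union.1 hx).resolve_left hxY
      obtain ⟨z, hz, rfl⟩ := Finset.mem_image.1 h2
      have h3 : c z ≠ 0 := Finsupp.mem_support_iff.1 hz
      exact lt_of_le_of_ne (c z).2 fun h => h3 (Subtype.ext h.symm)
  · -- extend `F` by zero
    set F' : (Fin n → 𝓞 K) → (Fin n → ((K →+* ℂ) → Fin L) → ℂ) :=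
      fun x => dmom L fun i => canonicalEmbedding K (x i : K) with hF'
    have e1 : ∑ x ∈ T, w x • F' x =
        ∑ x ∈ T, (if x ∈ Y then (1 : ℝ) else 0) • F' x +
        ∑ x ∈ T, (if h : Rel a x then ((c ⟨x, h⟩ : {r : ℝ // 0 ≤ r}) : ℝ) else 0) • F' x := by
      rw [← Finset.sum_add_distrib]
      exact Finset.sum_congr rfl fun x _ => by rw [hw, add_smul]
    have e2 : ∑ x ∈ T, (if x ∈ Y then (1 : ℝ) else 0) • F' x = ∑ x ∈ Y, F' x := by
      simp only [ite_smul, one_smul, zero_smul]
      rw [← Finset.sum_filter]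
      congr 1
      ext x
      simp only [Finset.mem_filter, hT, Finset.mem_union]
      tauto
    have e3 : ∑ x ∈ T, (if h : Rel a x then ((c ⟨x, h⟩ : {r : ℝ // 0 ≤ r}) : ℝ) else 0) • F' x =
        c.sum fun i r => r • F i := by
      rw [Finsupp.sum]
      rw [← Finset.sum_subset (Finset.subset_union_right :
        c.support.image Subtype.val ⊆ T)]
      · rw [Finset.sum_image (fun x _ y _ h => Subtype.ext h)]
        refine Finset.sum_congr rfl fun x _ => ?_
        rw [dif_pos x.2]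
        rfl
      · intro x hx hx'
        rw [dif_pos (hTrel x hx)]
        have : c ⟨x, hTrel x hx⟩ = 0 := by
          by_contra hne
          exact hx' (Finset.mem_image.2 ⟨⟨x, hTrel x hx⟩, Finsupp.mem_support_iff.2 hne, rfl⟩)
        rw [this]
        exact zero_smul ℝ _
    have e4 : ∑ y ∈ Y.attach, -(F ⟨y.1, hY y.1 y.2⟩) = -∑ x ∈ Y, F' x := by
      rw [Finset.sum_neg_distrib, ← Finset.sum_attach Y]
    rw [e1, e2, e3, hc, e4, add_neg_cancel]

end Pool.Agent.TH832.Smyth
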