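import Mathlib

set_option autoImplicit false

/-! Estimates for characteristic functions of finitely supported laws. -/

namespace Pool.Agent.TH832.Smyth

open scoped ComplexConjugate

/-- the additive character of the real line -/
noncomputable def ee (x : ℝ) : ℂ := Complex.exp (((2 * Real.pi * x : ℝ) : ℂ) * Complex.I)

lemma ee_norm (x : ℝ) : ‖ee x‖ = 1 := Complex.norm_exp_ofReal_mul_I _

lemma ee_zero : ee 0 = 1 := by simp [ee]

lemma ee_add (x y : ℝ) : ee (x + y) = ee x * ee y := by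
  unfold ee
  rw [← Complex.exp_add]
  congr 1
  push_cast; ring

lemma ee_neg (x : ℝ) : ee (-x) = conj (ee x) := by
  unfold ee
  rw [← Complex.exp_conj]
  congr 1
  rw [map_mul, Complex.conj_ofReal, Complex.conj_I]
  push_cast; ring

lemma ee_int (m : ℤ) : ee m = 1 := by
  unfold ee
  rw [Complex.exp_eq_one_iff]
  exact ⟨m, by push_cast; ring⟩

lemma norm_one_add_ee {θ : ℝ} (h : |θ| ≤ 1 / 2) : ‖1 + ee θ‖ ≤ 2 * (1 - 2 * θ ^ 2) := by
  have h1 : 1 + ee θ = ee (θ / 2) * ((2 * Real.cos (Real.pi * θ) : ℝ) : ℂ) := by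
    have h2 : ee θ = ee (θ / 2) * ee (θ / 2) := by rw [← ee_add]; ring_nf
    have h3 : ee (θ / 2) * ee (-(θ / 2)) = 1 := by rw [← ee_add]; simp [ee_zero]
    have h4 : ((2 * Real.cos (Real.pi * θ) : ℝ) : ℂ) = ee (θ / 2) + ee (-(θ / 2)) := by
      unfold ee
      push_cast
      rw [Complex.two_cos]
      congr 2 <;> ring
    rw [h4, mul_add, h3, ← h2]; ring
  have hpi := Real.pi_pos
  have hab := abs_le.1 h
  have hcos : 0 ≤ Real.cos (Real.pi * θ) := by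
    apply Real.cos_nonneg_of_mem_Icc
    constructor <;> nlinarith
  have hle : Real.cos (Real.pi * θ) ≤ 1 - 2 * θ ^ 2 := by
    have h5 := Real.cos_le_one_sub_mul_cos_sq (x := Real.pi * θ) (by
      rw [abs_mul, abs_of_pos hpi]; nlinarith [abs_nonneg θ])
    have h6 : 2 / Real.pi ^ 2 * (Real.pi * θ) ^ 2 = 2 * θ ^ 2 := by
      field_simp
    linarith
  rw [h1, norm_mul, ee_norm, one_mul, Complex.norm_real, Real.norm_eq_abs, abs_of_nonneg
    (by positivity)]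
  linarith

section

variable {ι : Type*} [Fintype ι] (p : ι → ℝ)

/-- characteristic function -/
noncomputable def ch (u : ι → ℝ) : ℂ := ∑ t, (p t : ℂ) * ee (u t)

variable {p}

lemma charbound (hp : ∀ t, 0 ≤ p t) (hsum : ∑ t, p t = 1) (u : ι → ℝ) {t₀ t₁ : ι}
    (hne : t₀ ≠ t₁) {θ c : ℝ} (h0 : u t₀ = 0) (h1 : u t₁ = θ) (hθ : |θ| ≤ 1 / 2)
    (hc : 0 ≤ c) (hc0 : c ≤ p t₀) (hc1 : c ≤ p t₁) : ‖ch p u‖ ≤ 1 - 4 * c * θ ^ 2 := by
  classical
  have hmem : t₁ ∈ Finset.univ.erase t₀ := Finset.mem_erase.2 ⟨hne.symm, Finset.mem_univ _⟩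
  set R : ℝ := ∑ t ∈ (Finset.univ.erase t₀).erase t₁, p t with hR
  have hR1 : p t₀ + (p t₁ + R) = 1 := by
    rw [hR, Finset.add_sum_erase _ _ hmem, Finset.add_sum_erase _ _ (Finset.mem_univ _), hsum]
  have hsplit : ch p u = (p t₀ : ℂ) + ((p t₁ : ℂ) * ee θ +
      ∑ t ∈ (Finset.univ.erase t₀).erase t₁, (p t : ℂ) * ee (u t)) := by
    unfold ch
    rw [← Finset.add_sum_erase _ _ (Finset.mem_univ t₀), ← Finset.add_sum_erase _ _ hmem,
      h0, h1, ee_zero, mul_one]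
  have h2 : ch p u = ((p t₀ - c : ℝ) : ℂ) + ((p t₁ - c : ℝ) : ℂ) * ee θ +
      (c : ℂ) * (1 + ee θ) +
      ∑ t ∈ (Finset.univ.erase t₀).erase t₁, (p t : ℂ) * ee (u t) := by
    rw [hsplit]; push_cast; ring
  have hn1 : ‖((p t₀ - c : ℝ) : ℂ)‖ = p t₀ - c := by
    rw [Complex.norm_real, Real.norm_eq_abs, abs_of_nonneg (by linarith)]
  have hn2 : ‖((p t₁ - c : ℝ) : ℂ) * ee θ‖ = p t₁ - c := by
    rw [norm_mul, ee_norm, mul_one, Complex.norm_real, Real.norm_eq_abs,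
      abs_of_nonneg (by linarith)]
  have hn3 : ‖(c : ℂ) * (1 + ee θ)‖ ≤ c * (2 * (1 - 2 * θ ^ 2)) := by
    rw [norm_mul, Complex.norm_real, Real.norm_eq_abs, abs_of_nonneg hc]
    exact mul_le_mul_of_nonneg_left (norm_one_add_ee hθ) hc
  have hn4 : ‖∑ t ∈ (Finset.univ.erase t₀).erase t₁, (p t : ℂ) * ee (u t)‖ ≤ R := by
    refine (norm_sum_le _ _).trans (le_of_eq (Finset.sum_congr rfl fun t _ => ?_))
    rw [norm_mul, ee_norm, mul_one, Complex.norm_real, Real.norm_eq_abs, abs_of_nonneg (hp t)]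
  rw [h2]
  have h3 := norm_add_le (((p t₀ - c : ℝ) : ℂ) + ((p t₁ - c : ℝ) : ℂ) * ee θ +
      (c : ℂ) * (1 + ee θ)) (∑ t ∈ (Finset.univ.erase t₀).erase t₁, (p t : ℂ) * ee (u t))
  have h4 := norm_add_le (((p t₀ - c : ℝ) : ℂ) + ((p t₁ - c : ℝ) : ℂ) * ee θ)
      ((c : ℂ) * (1 + ee θ))
  have h5 := norm_add_le ((p t₀ - c : ℝ) : ℂ) (((p t₁ - c : ℝ) : ℂ) * ee θ)
  nlinarith

lemma ch_norm_le_one (hp : ∀ t, 0 ≤ p t) (hsum : ∑ t, p t = 1) (u : ι → ℝ) :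
    ‖ch p u‖ ≤ 1 := by
  rw [← hsum]
  refine (norm_sum_le _ _).trans (le_of_eq (Finset.sum_congr rfl fun t _ => ?_))
  rw [norm_mul, ee_norm, mul_one, Complex.norm_real, Real.norm_eq_abs, abs_of_nonneg (hp t)]

lemma chardiff (hp : ∀ t, 0 ≤ p t) (hsum : ∑ t, p t = 1) (u v : ι → ℝ) (L : ℕ) {D ϑ : ℝ}
    (hD : 0 ≤ D) (hϑ0 : 0 ≤ ϑ) (hϑ1 : ϑ ≤ 1) (hu : ∀ t, |u t| ≤ D * ϑ) (hv : ∀ t, |v t| ≤ D * ϑ)
    (hmom : ∀ l, l < L → ∑ t, p t * u t ^ l = ∑ t, p t * v t ^ l) :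
    ‖ch p u - ch p v‖ ≤ 2 * (2 * Real.pi * D * ϑ) ^ L * Real.exp (2 * Real.pi * D) := by
  classical
  have hpi := Real.pi_pos
  set z : ℝ → ℂ := fun x => ((2 * Real.pi * x : ℝ) : ℂ) * Complex.I with hz
  set P : ℝ → ℂ := fun x => ∑ m ∈ Finset.range L, z x ^ m / (m.factorial : ℂ) with hP
  have hrem : ∀ w : ι → ℝ, (∀ t, |w t| ≤ D * ϑ) →
      ‖ch p w - ∑ t, (p t : ℂ) * P (w t)‖ ≤
        (2 * Real.pi * D * ϑ) ^ L * Real.exp (2 * Real.pi * D) := by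
    intro w hw
    unfold ch
    rw [← Finset.sum_sub_distrib]
    refine (norm_sum_le _ _).trans ?_
    calc ∑ t, ‖(p t : ℂ) * ee (w t) - (p t : ℂ) * P (w t)‖
        ≤ ∑ t, p t * ((2 * Real.pi * D * ϑ) ^ L * Real.exp (2 * Real.pi * D)) := by
          refine Finset.sum_le_sum fun t _ => ?_
          rw [← mul_sub, norm_mul, Complex.norm_real, Real.norm_eq_abs, abs_of_nonneg (hp t)]
          refine mul_le_mul_of_nonneg_left ?_ (hp t)
          have h1 := Complex.norm_exp_sub_sum_le_norm_mul_exp (z (w t)) L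
          have h2 : ‖z (w t)‖ = 2 * Real.pi * |w t| := by
            rw [hz]; simp only
            rw [norm_mul, Complex.norm_I, mul_one, Complex.norm_real, Real.norm_eq_abs,
              abs_mul, abs_of_pos (by positivity : (0 : ℝ) < 2 * Real.pi)]
          have h3 : ‖z (w t)‖ ≤ 2 * Real.pi * D * ϑ := by
            rw [h2, mul_assoc (2 * Real.pi)]
            exact mul_le_mul_of_nonneg_left (hw t) (by positivity)
          have h4 : ‖z (w t)‖ ≤ 2 * Real.pi * D := h3.trans (by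
            have : 0 ≤ 2 * Real.pi * D := by positivity
            nlinarith)
          refine h1.trans (mul_le_mul (pow_le_pow_left₀ (norm_nonneg _) h3 L)
            (Real.exp_le_exp.2 h4) (Real.exp_pos _).le (by positivity))
      _ = _ := by rw [← Finset.sum_mul, hsum, one_mul]
  have hPeq : ∑ t, (p t : ℂ) * P (u t) = ∑ t, (p t : ℂ) * P (v t) := by
    have hexp : ∀ w : ι → ℝ, ∑ t, (p t : ℂ) * P (w t) =
        ∑ m ∈ Finset.range L, ((2 * Real.pi : ℝ) * Complex.I) ^ m / (m.factorial : ℂ) *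
          ((∑ t, p t * w t ^ m : ℝ) : ℂ) := by
      intro w
      rw [hP]
      simp only [Finset.mul_sum]
      rw [Finset.sum_comm]
      refine Finset.sum_congr rfl fun m _ => ?_
      push_cast
      rw [Finset.mul_sum]
      refine Finset.sum_congr rfl fun t _ => ?_
      rw [hz]
      push_cast
      ring
    rw [hexp, hexp]
    refine Finset.sum_congr rfl fun m hm => ?_
    rw [hmom m (Finset.mem_range.1 hm)]
  have h1 := hrem u hu
  have h2 := hrem v hv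
  have h3 : ch p u - ch p v = (ch p u - ∑ t, (p t : ℂ) * P (u t)) -
      (ch p v - ∑ t, (p t : ℂ) * P (v t)) := by rw [hPeq]; ring
  rw [h3]
  refine (norm_sub_le _ _).trans ?_
  linarith

end

lemma pow_sub_pow_le (a b : ℂ) {q δ : ℝ} (ha : ‖a‖ ≤ q) (hb : ‖b‖ ≤ q) (hab : ‖a - b‖ ≤ δ)
    (N : ℕ) : ‖a ^ (N + 1) - b ^ (N + 1)‖ ≤ (N + 1) * q ^ N * δ := by
  have hq : 0 ≤ q := (norm_nonneg _).trans ha
  have hδ : 0 ≤ δ := (norm_nonneg _).trans hab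
  induction N with
  | zero => simpa using hab
  | succ N ih =>
    have h1 : a ^ (N + 1 + 1) - b ^ (N + 1 + 1) =
        a * (a ^ (N + 1) - b ^ (N + 1)) + (a - b) * b ^ (N + 1) := by ring
    rw [h1]
    refine (norm_add_le _ _).trans ?_
    rw [norm_mul, norm_mul, norm_pow]
    have h2 : ‖a‖ * ‖a ^ (N + 1) - b ^ (N + 1)‖ ≤ q * ((N + 1) * q ^ N * δ) :=
      mul_le_mul ha ih (norm_nonneg _) hq
    have h3 : ‖a - b‖ * ‖b‖ ^ (N + 1) ≤ δ * q ^ (N + 1) :=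
      mul_le_mul hab (pow_le_pow_left₀ (norm_nonneg _) hb _) (by positivity) hδ
    push_cast
    calc _ ≤ q * ((N + 1) * q ^ N * δ) + δ * q ^ (N + 1) := add_le_add h2 h3
      _ = _ := by ring

lemma mixed_diff (a b : ℂ) {q δ : ℝ} (ha : ‖a‖ ≤ q) (hb : ‖b‖ ≤ q) (hab : ‖a - b‖ ≤ δ)
    (N : ℕ) : ‖a ^ (N + 2) * conj a ^ (N + 1) - b ^ (N + 2) * conj b ^ (N + 1)‖ ≤
      (2 * N + 3) * q ^ (2 * N + 2) * δ := by
  have hq : 0 ≤ q := (norm_nonneg _).trans ha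
  have hδ : 0 ≤ δ := (norm_nonneg _).trans hab
  have h1 := pow_sub_pow_le a b ha hb hab (N + 1)
  have hab' : ‖conj a - conj b‖ ≤ δ := by rw [← map_sub, Complex.norm_conj]; exact hab
  have h2 := pow_sub_pow_le (conj a) (conj b) (q := q) (by rwa [Complex.norm_conj])
    (by rwa [Complex.norm_conj]) hab' N
  have h3 : a ^ (N + 2) * conj a ^ (N + 1) - b ^ (N + 2) * conj b ^ (N + 1) =
      (a ^ (N + 2) - b ^ (N + 2)) * conj a ^ (N + 1) +
      b ^ (N + 2) * (conj a ^ (N + 1) - conj b ^ (N + 1)) := by ring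
  rw [h3]
  refine (norm_add_le _ _).trans ?_
  rw [norm_mul, norm_mul, norm_pow, norm_pow, Complex.norm_conj]
  have h4 : ‖a ^ (N + 2) - b ^ (N + 2)‖ * ‖a‖ ^ (N + 1) ≤
      ((((N + 1 : ℕ) : ℝ) + 1) * q ^ (N + 1) * δ) * q ^ (N + 1) :=
    mul_le_mul h1 (pow_le_pow_left₀ (norm_nonneg _) ha _) (by positivity) (by positivity)
  have h5 : ‖b‖ ^ (N + 2) * ‖conj a ^ (N + 1) - conj b ^ (N + 1)‖ ≤
      q ^ (N + 2) * ((N + 1) * q ^ N * δ) :=
    mul_le_mul (pow_le_pow_left₀ (norm_nonneg _) hb _) h2 (norm_nonneg _) (by positivity)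
  calc _ ≤ ((((N + 1 : ℕ) : ℝ) + 1) * q ^ (N + 1) * δ) * q ^ (N + 1) +
        q ^ (N + 2) * ((N + 1) * q ^ N * δ) := add_le_add h4 h5
    _ = _ := by push_cast; ring

/-- the final estimate -/
lemma diff_bound {ι : Type*} [Fintype ι] {p : ι → ℝ} (hp : ∀ t, 0 ≤ p t)
    (hsum : ∑ t, p t = 1) (u v : ι → ℝ) (ℓ : ℕ) {D ϑ c : ℝ}
    (hD : 0 ≤ D) (hϑ0 : 0 ≤ ϑ) (hϑ1 : ϑ ≤ 1) (hc : 0 < c)
    (hu : ∀ t, |u t| ≤ D * ϑ) (hv : ∀ t, |v t| ≤ D * ϑ)
    (hmom : ∀ l, l < 2 * ℓ → ∑ t, p t * u t ^ l = ∑ t, p t * v t ^ l)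
    (hqu : ‖ch p u‖ ≤ 1 - c * ϑ ^ 2) (hqv : ‖ch p v‖ ≤ 1 - c * ϑ ^ 2) (N : ℕ) :
    ‖ch p u ^ (N + 2) * conj (ch p u) ^ (N + 1) -
      ch p v ^ (N + 2) * conj (ch p v) ^ (N + 1)‖ ≤
      (2 * N + 3) * (2 * (2 * Real.pi * D) ^ (2 * ℓ) * Real.exp (2 * Real.pi * D)) *
        (ℓ.factorial / (c * (2 * N + 2)) ^ ℓ) := by
  have hpi := Real.pi_pos
  have h1 := chardiff hp hsum u v (2 * ℓ) hD hϑ0 hϑ1 hu hv hmom
  have hexp : 1 - c * ϑ ^ 2 ≤ Real.exp (-(c * ϑ ^ 2)) := by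
    have := Real.add_one_le_exp (-(c * ϑ ^ 2))
    linarith
  have h2 := mixed_diff (ch p u) (ch p v) (hqu.trans hexp) (hqv.trans hexp) h1 N
  refine h2.trans ?_
  set s : ℝ := c * (2 * N + 2) * ϑ ^ 2 with hs
  have hs0 : 0 ≤ s := by positivity
  have h3 : Real.exp (-(c * ϑ ^ 2)) ^ (2 * N + 2) = Real.exp (-s) := by
    rw [← Real.exp_nat_mul]; congr 1; push_cast; rw [hs]; ring
  have h4 := Real.pow_div_factorial_le_exp s hs0 ℓ
  have hfac : (0 : ℝ) < ℓ.factorial := by exact_mod_cast ℓ.factorial_pos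
  have h5 : Real.exp (-s) * s ^ ℓ ≤ ℓ.factorial := by
    rw [div_le_iff₀ hfac] at h4
    rw [Real.exp_neg, inv_mul_le_iff₀ (Real.exp_pos _)]
    exact h4
  have hden : 0 < (c * (2 * N + 2)) ^ ℓ := by positivity
  have h6 : Real.exp (-s) * ϑ ^ (2 * ℓ) ≤ ℓ.factorial / (c * (2 * N + 2)) ^ ℓ := by
    rw [le_div_iff₀ hden]
    have h7 : s ^ ℓ = ϑ ^ (2 * ℓ) * (c * (2 * N + 2)) ^ ℓ := by
      rw [hs, mul_pow _ (ϑ ^ 2), ← pow_mul, mul_comm]
    rw [mul_assoc, ← h7]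
    exact h5
  rw [h3]
  calc (2 * (N : ℝ) + 3) * Real.exp (-s) *
        (2 * (2 * Real.pi * D * ϑ) ^ (2 * ℓ) * Real.exp (2 * Real.pi * D))
      = (2 * (N : ℝ) + 3) * (2 * (2 * Real.pi * D) ^ (2 * ℓ) * Real.exp (2 * Real.pi * D)) *
        (Real.exp (-s) * ϑ ^ (2 * ℓ)) := by rw [mul_pow (2 * Real.pi * D) ϑ]; ring
    _ ≤ _ := mul_le_mul_of_nonneg_left h6 (by positivity)

end Pool.Agent.TH832.Smyth
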