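import Mathlib
import Pool.Agent.TH832.Smyth.Chars
import Pool.Agent.TH832.Smyth.PolyLiou

set_option autoImplicit false
set_option linter.unusedSectionVars false

/-! Integral coordinates, linear phases, and inversion on a grid. -/

namespace Pool.Agent.TH832.Smyth

open NumberField Module
open scoped ComplexConjugate

lemma ee_sum {J : Type*} (S : Finset J) (f : J → ℝ) :
    ee (∑ k ∈ S, f k) = ∏ k ∈ S, ee (f k) := by
  classical
  induction S using Finset.induction_on with
  | empty => simp [ee_zero]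
  | insert a S ha ih => rw [Finset.sum_insert ha, Finset.prod_insert ha, ee_add, ih]

/-- grid frequencies -/
noncomputable def gr (m : ℕ) (j : Fin (2 * m + 1)) : ℝ := ((j : ℝ) - m) / (2 * m + 1)

lemma gr_abs (m : ℕ) (j : Fin (2 * m + 1)) : |gr m j| ≤ 1 / 2 := by
  unfold gr
  have h1 : (0 : ℝ) < 2 * m + 1 := by positivity
  have h2 : (j : ℝ) ≤ 2 * m := by
    have := j.2
    exact_mod_cast Nat.lt_succ_iff.1 this
  have h3 : (0 : ℝ) ≤ (j : ℝ) := Nat.cast_nonneg _
  rw [abs_div, abs_of_pos h1, div_le_iff₀ h1, abs_le]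
  constructor <;> linarith

lemma grid_one (m : ℕ) (u : ℤ) (hu : |u| ≤ 2 * m) :
    ∑ j : Fin (2 * m + 1), ee (gr m j * u) = if u = 0 then ((2 * m + 1 : ℕ) : ℂ) else 0 := by
  split_ifs with h0
  · subst h0
    simp [ee_zero]
  · set M : ℝ := 2 * m + 1 with hM
    have hMpos : 0 < M := by positivity
    set z : ℂ := ee (u / M) with hz
    have hzM : z ^ (2 * m + 1) = 1 := by
      have h1 : ∀ k : ℕ, z ^ k = ee (k * (u / M)) := by
        intro k
        induction k with
        | zero => simp [ee_zero]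
        | succ k ih => rw [pow_succ, ih, hz, ← ee_add]; congr 1; push_cast; ring
      rw [h1, ← ee_int u]
      congr 1
      push_cast
      rw [← hM]; field_simp
    have hz1 : z ≠ 1 := by
      intro h
      rw [hz] at h
      unfold ee at h
      rw [Complex.exp_eq_one_iff] at h
      obtain ⟨k, hk⟩ := h
      have h2 : ((2 * Real.pi * (u / M) : ℝ) : ℂ) = ((k * (2 * Real.pi) : ℝ) : ℂ) := by
        have hI : Complex.I ≠ 0 := Complex.I_ne_zero
        apply mul_right_cancel₀ hI
        rw [hk]; push_cast; ring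
      have h3 : 2 * Real.pi * (u / M) = k * (2 * Real.pi) := by exact_mod_cast h2
      have h4 : (u : ℝ) = k * M := by
        have hpi := Real.pi_pos
        field_simp at h3
        linarith
      have h5 : u = k * (2 * m + 1) := by
        have : (u : ℝ) = ((k * (2 * m + 1) : ℤ) : ℝ) := by rw [h4, hM]; push_cast; ring
        exact_mod_cast this
      have hk0 : k ≠ 0 := by rintro rfl; rw [zero_mul] at h5; exact h0 h5
      have h6 : (2 * m + 1 : ℤ) ≤ |u| := by
        rw [h5, abs_mul, abs_of_nonneg (by positivity : (0 : ℤ) ≤ 2 * m + 1)]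
        have : 1 ≤ |k| := Int.one_le_abs hk0
        nlinarith [show (0 : ℤ) ≤ 2 * (m : ℤ) + 1 by positivity]
      omega
    have hterm : ∀ j : Fin (2 * m + 1), ee (gr m j * u) = ee (-(m * (u / M))) * z ^ (j : ℕ) := by
      intro j
      have h1 : ∀ k : ℕ, z ^ k = ee (k * (u / M)) := by
        intro k
        induction k with
        | zero => simp [ee_zero]
        | succ k ih => rw [pow_succ, ih, hz, ← ee_add]; congr 1; push_cast; ring
      rw [h1, ← ee_add]
      congr 1
      unfold gr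
      rw [← hM]; ring
    rw [Finset.sum_congr rfl fun j _ => hterm j, ← Finset.mul_sum,
      Fin.sum_univ_eq_sum_range (fun k => z ^ k)]
    have h3 : (z - 1) * ∑ k ∈ Finset.range (2 * m + 1), z ^ k = 0 := by
      rw [mul_geom_sum, hzM, sub_self]
    rcases mul_eq_zero.1 h3 with h4 | h4
    · exact absurd (sub_eq_zero.1 h4) hz1
    · rw [h4, mul_zero]

lemma grid {J : Type*} [Fintype J] [DecidableEq J] (m : ℕ) (u : J → ℤ)
    (hu : ∀ k, |u k| ≤ 2 * m) :
    ∑ g : J → Fin (2 * m + 1), ee (∑ k, gr m (g k) * u k) =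
      if u = 0 then ((2 * m + 1 : ℕ) : ℂ) ^ Fintype.card J else 0 := by
  simp only [ee_sum]
  have h1 : ∑ g : J → Fin (2 * m + 1), ∏ k, ee (gr m (g k) * u k) =
      ∏ k, ∑ j : Fin (2 * m + 1), ee (gr m j * u k) := by
    rw [Finset.prod_univ_sum, Fintype.piFinset_univ]
  rw [h1]
  split_ifs with h0
  · subst h0
    have : ∀ k : J, ∑ j : Fin (2 * m + 1), ee (gr m j * ((0 : J → ℤ) k : ℤ)) =
        ((2 * m + 1 : ℕ) : ℂ) := by
      intro k
      rw [grid_one m _ (hu k), Pi.zero_apply, if_pos rfl]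
    rw [Finset.prod_congr rfl fun k _ => this k, Finset.prod_const, Finset.card_univ]
  · obtain ⟨k, hk⟩ : ∃ k, u k ≠ 0 := by
      by_contra hcon
      push Not at hcon
      exact h0 (funext hcon)
    apply Finset.prod_eq_zero (Finset.mem_univ k)
    rw [grid_one m _ (hu k), if_neg hk]

variable {K : Type} [Field K] [NumberField K]

/-- integral coordinates -/
noncomputable def co (t : 𝓞 K) (k : Free.ChooseBasisIndex ℤ (𝓞 K)) : ℤ :=
  (RingOfIntegers.basis K).repr t k

/-- linear phase -/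
noncomputable def lin (θ : Free.ChooseBasisIndex ℤ (𝓞 K) → ℝ) (t : 𝓞 K) : ℝ :=
  ∑ k, θ k * co t k

lemma co_add (s t : 𝓞 K) (k) : co (s + t) k = co s k + co t k := by
  simp [co]

lemma co_sub (s t : 𝓞 K) (k) : co (s - t) k = co s k - co t k := by
  simp [co]

lemma co_zero (k) : co (0 : 𝓞 K) k = 0 := by simp [co]

lemma co_sum {ι : Type*} (S : Finset ι) (f : ι → 𝓞 K) (k) :
    co (∑ t ∈ S, f t) k = ∑ t ∈ S, co (f t) k := by
  simp [co, map_sum]

lemma co_inj {s t : 𝓞 K} (h : ∀ k, co s k = co t k) : s = t :=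
  (RingOfIntegers.basis K).ext_elem h

lemma co_basis (k l : Free.ChooseBasisIndex ℤ (𝓞 K)) [DecidableEq (Free.ChooseBasisIndex ℤ (𝓞 K))] :
    co (RingOfIntegers.basis K k) l = if k = l then 1 else 0 := by
  simp [co, Finsupp.single_apply]

lemma lin_add (θ) (s t : 𝓞 K) : lin θ (s + t) = lin θ s + lin θ t := by
  unfold lin
  rw [← Finset.sum_add_distrib]
  exact Finset.sum_congr rfl fun k _ => by rw [co_add]; push_cast; ring

lemma lin_zero (θ) : lin θ (0 : 𝓞 K) = 0 := by
  unfold lin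
  simp [co_zero]

lemma lin_neg (θ) (t : 𝓞 K) : lin θ (-t) = -lin θ t := by
  have := lin_add θ t (-t)
  rw [add_neg_cancel, lin_zero] at this
  linarith

lemma lin_sum {ι : Type*} (θ) (S : Finset ι) (f : ι → 𝓞 K) :
    lin θ (∑ t ∈ S, f t) = ∑ t ∈ S, lin θ (f t) := by
  classical
  induction S using Finset.induction_on with
  | empty => simp [lin_zero]
  | insert a S ha ih => rw [Finset.sum_insert ha, Finset.sum_insert ha, lin_add, ih]

lemma co_eq_repr (t : 𝓞 K) (k) :
    ((co t k : ℤ) : ℂ) =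
      (canonicalEmbedding.latticeBasis K).repr (canonicalEmbedding K (t : K)) k := by
  rw [canonicalEmbedding.integralBasis_repr_apply]
  have := integralBasis_repr_apply K t k
  rw [this]
  simp [co]

lemma lin_eq (θ : Free.ChooseBasisIndex ℤ (𝓞 K) → ℝ) :
    ∃ e : (K →+* ℂ) → ℂ, ∀ t : 𝓞 K, ((lin θ t : ℝ) : ℂ) = ∑ σ, e σ * σ (t : K) := by
  classical
  set b := canonicalEmbedding.latticeBasis K with hb
  refine ⟨fun σ => ∑ k, (θ k : ℂ) * b.repr (Pi.single σ 1) k, fun t => ?_⟩
  have h1 : canonicalEmbedding K (t : K) = ∑ σ, (σ (t : K)) • (Pi.single σ (1 : ℂ)) := by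
    funext τ
    rw [canonicalEmbedding.apply_at, Finset.sum_apply]
    simp [Pi.single_apply]
  unfold lin
  push_cast
  simp only [co_eq_repr, Finset.sum_mul]
  rw [Finset.sum_comm]
  refine Finset.sum_congr rfl fun k _ => ?_
  rw [h1, map_sum]
  simp only [map_smul, Finsupp.coe_finsetSum, Finset.sum_apply, Finsupp.smul_apply, smul_eq_mul,
    Finset.mul_sum]
  exact Finset.sum_congr rfl fun σ _ => by rw [← hb]; ring

lemma lin_pow_moment {ι : Type*} [Fintype ι] (p : ι → ℝ) (x y : ι → 𝓞 K) (L : ℕ)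
    (hm : ∀ α : (K →+* ℂ) → Fin L,
      ∑ t, (p t : ℂ) * mom L (canonicalEmbedding K (x t : K)) α =
      ∑ t, (p t : ℂ) * mom L (canonicalEmbedding K (y t : K)) α)
    (θ : Free.ChooseBasisIndex ℤ (𝓞 K) → ℝ) (l : ℕ) (hl : l < L) :
    ∑ t, p t * lin θ (x t) ^ l = ∑ t, p t * lin θ (y t) ^ l := by
  classical
  obtain ⟨e, he⟩ := lin_eq θ
  have hexp : ∀ z : ι → 𝓞 K, ((∑ t, p t * lin θ (z t) ^ l : ℝ) : ℂ) =
      ∑ α ∈ (Finset.univ : Finset (K →+* ℂ)).piAntidiag l,
        (Nat.multinomial Finset.univ α : ℂ) * (∏ σ, e σ ^ α σ) *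
          ∑ t, (p t : ℂ) * ∏ σ, (σ (z t : K)) ^ α σ := by
    intro z
    push_cast
    simp only [he, Finset.sum_pow_eq_sum_piAntidiag, mul_pow, Finset.prod_mul_distrib,
      Finset.mul_sum]
    rw [Finset.sum_comm]
    exact Finset.sum_congr rfl fun α _ => Finset.sum_congr rfl fun t _ => by ring
  have h2 : ((∑ t, p t * lin θ (x t) ^ l : ℝ) : ℂ) = ((∑ t, p t * lin θ (y t) ^ l : ℝ) : ℂ) := by
    rw [hexp, hexp]
    refine Finset.sum_congr rfl fun α hα => ?_
    congr 1
    rw [Finset.mem_piAntidiag] at hα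
    have hlt : ∀ σ, α σ < L := by
      intro σ
      have : α σ ≤ Finset.univ.sum α := Finset.single_le_sum (fun _ _ => Nat.zero_le _)
        (Finset.mem_univ σ)
      rw [hα.1] at this
      omega
    have := hm fun σ => ⟨α σ, hlt σ⟩
    simpa only [mom, canonicalEmbedding.apply_at] using this
  exact_mod_cast h2

end Pool.Agent.TH832.Smyth
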