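import Mathlib
import Pool.Agent.TH832.Smyth.Coord

set_option autoImplicit false
set_option linter.unusedSectionVars false

/-! The random walk and its marginal laws. -/

namespace Pool.Agent.TH832.Smyth

open NumberField Module
open scoped ComplexConjugate

variable {K : Type} [Field K] [NumberField K] {ι : Type} [Fintype ι]

/-- path space -/
abbrev Path (ι : Type) (N : ℕ) : Type := ι × (Fin (N + 1) → ι) × (Fin (N + 1) → ι)

/-- path weights -/
noncomputable def pw (p : ι → ℝ) (N : ℕ) (ω : Path ι N) : ℝ :=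
  p ω.1 * ((∏ k, p (ω.2.1 k)) * ∏ k, p (ω.2.2 k))

/-- end point -/
noncomputable def ep {A : Type*} [AddCommGroup A] (x : ι → A) (N : ℕ) (ω : Path ι N) : A :=
  x ω.1 + (∑ k, x (ω.2.1 k) - ∑ k, x (ω.2.2 k))

lemma pw_nonneg {p : ι → ℝ} (hp : ∀ t, 0 ≤ p t) (N : ℕ) (ω : Path ι N) : 0 ≤ pw p N ω :=
  mul_nonneg (hp _) (mul_nonneg (Finset.prod_nonneg fun _ _ => hp _)
    (Finset.prod_nonneg fun _ _ => hp _))

lemma sum_path (N : ℕ) (f : ι → ℂ) (g h : ι → ℂ) :
    ∑ ω : Path ι N, f ω.1 * ((∏ k, g (ω.2.1 k)) * ∏ k, h (ω.2.2 k)) =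
      (∑ t, f t) * ((∑ t, g t) ^ (N + 1) * (∑ t, h t) ^ (N + 1)) := by
  rw [Fintype.sum_pow, Fintype.sum_pow]
  rw [Fintype.sum_prod_type, Finset.sum_mul]
  refine Finset.sum_congr rfl fun t _ => ?_
  rw [Fintype.sum_prod_type, Finset.sum_mul, Finset.mul_sum]
  refine Finset.sum_congr rfl fun τ _ => ?_
  rw [Finset.mul_sum, Finset.mul_sum]

lemma char_walk (p : ι → ℝ) (x : ι → 𝓞 K) (N : ℕ)
    (θ : Free.ChooseBasisIndex ℤ (𝓞 K) → ℝ) :
    ∑ ω : Path ι N, (pw p N ω : ℂ) * ee (lin θ (ep x N ω)) =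
      ch p (fun t => lin θ (x t)) ^ (N + 2) * conj (ch p fun t => lin θ (x t)) ^ (N + 1) := by
  have h1 : ∀ ω : Path ι N, (pw p N ω : ℂ) * ee (lin θ (ep x N ω)) =
      ((p ω.1 : ℂ) * ee (lin θ (x ω.1))) *
        ((∏ k, ((p (ω.2.1 k) : ℂ) * ee (lin θ (x (ω.2.1 k))))) *
          ∏ k, ((p (ω.2.2 k) : ℂ) * conj (ee (lin θ (x (ω.2.2 k)))))) := by
    intro ω
    unfold pw ep
    rw [sub_eq_add_neg, lin_add, lin_add, lin_neg, lin_sum, lin_sum, ee_add, ee_add, ee_neg,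
      ee_sum, ee_sum, map_prod, Finset.prod_mul_distrib, Finset.prod_mul_distrib]
    push_cast
    ring
  rw [Finset.sum_congr rfl fun ω _ => h1 ω, sum_path N (fun t => (p t : ℂ) * ee (lin θ (x t)))
    (fun t => (p t : ℂ) * ee (lin θ (x t))) (fun t => (p t : ℂ) * conj (ee (lin θ (x t))))]
  have h2 : ∑ t, (p t : ℂ) * conj (ee (lin θ (x t))) = conj (ch p fun t => lin θ (x t)) := by
    unfold ch
    rw [map_sum]
    exact Finset.sum_congr rfl fun t _ => by rw [map_mul, Complex.conj_ofReal]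
  rw [h2]
  unfold ch
  ring

/-- the law of an end point -/
noncomputable def lw [DecidableEq (𝓞 K)] (p : ι → ℝ) (x : ι → 𝓞 K) (N : ℕ) (s : 𝓞 K) : ℝ :=
  ∑ ω : Path ι N, if ep x N ω = s then pw p N ω else 0

lemma law_inv [DecidableEq (𝓞 K)] (p : ι → ℝ) (x : ι → 𝓞 K) (N m : ℕ) (s : 𝓞 K)
    (hm : ∀ ω : Path ι N, ∀ k, |co (ep x N ω) k - co s k| ≤ 2 * m) :
    (lw p x N s : ℂ) * ((2 * m + 1 : ℕ) : ℂ) ^ Fintype.card (Free.ChooseBasisIndex ℤ (𝓞 K)) =
      ∑ g : Free.ChooseBasisIndex ℤ (𝓞 K) → Fin (2 * m + 1),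
        ee (-lin (fun k => gr m (g k)) s) *
          (ch p (fun t => lin (fun k => gr m (g k)) (x t)) ^ (N + 2) *
            conj (ch p fun t => lin (fun k => gr m (g k)) (x t)) ^ (N + 1)) := by
  classical
  simp only [← char_walk, Finset.mul_sum]
  rw [Finset.sum_comm]
  unfold lw
  push_cast
  rw [Finset.sum_mul]
  refine Finset.sum_congr rfl fun ω _ => ?_
  have h1 : ∀ g : Free.ChooseBasisIndex ℤ (𝓞 K) → Fin (2 * m + 1),
      ee (-lin (fun k => gr m (g k)) s) *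
        ((pw p N ω : ℂ) * ee (lin (fun k => gr m (g k)) (ep x N ω))) =
      (pw p N ω : ℂ) * ee (∑ k, gr m (g k) * ((co (ep x N ω) k - co s k : ℤ) : ℝ)) := by
    intro g
    rw [mul_left_comm, ← ee_add]
    congr 2
    unfold lin
    rw [← Finset.sum_neg_distrib, ← Finset.sum_add_distrib]
    exact Finset.sum_congr rfl fun k _ => by push_cast; ring
  rw [Finset.sum_congr rfl fun g _ => h1 g, ← Finset.mul_sum,
    grid m (fun k => co (ep x N ω) k - co s k) (hm ω)]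
  by_cases h : ep x N ω = s
  · rw [if_pos h, if_pos]
    · push_cast; rfl
    · funext k; rw [h, sub_self]; rfl
  · rw [if_neg h, if_neg]
    · push_cast; ring
    · intro h2
      apply h
      apply co_inj
      intro k
      have := congrFun h2 k
      simpa [sub_eq_zero] using this

lemma law_diff [DecidableEq (𝓞 K)] (p : ι → ℝ) (x y : ι → 𝓞 K) (N m : ℕ) (s : 𝓞 K)
    (hx : ∀ ω : Path ι N, ∀ k, |co (ep x N ω) k - co s k| ≤ 2 * m)
    (hy : ∀ ω : Path ι N, ∀ k, |co (ep y N ω) k - co s k| ≤ 2 * m) {ε : ℝ}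
    (hε : ∀ θ : Free.ChooseBasisIndex ℤ (𝓞 K) → ℝ, (∀ k, |θ k| ≤ 1 / 2) →
      ‖ch p (fun t => lin θ (x t)) ^ (N + 2) * conj (ch p fun t => lin θ (x t)) ^ (N + 1) -
        ch p (fun t => lin θ (y t)) ^ (N + 2) * conj (ch p fun t => lin θ (y t)) ^ (N + 1)‖
        ≤ ε) :
    |lw p x N s - lw p y N s| ≤ ε := by
  classical
  set d := Fintype.card (Free.ChooseBasisIndex ℤ (𝓞 K)) with hd
  have h1 := law_inv p x N m s hx
  have h2 := law_inv p y N m s hy
  have hMpos : (0 : ℝ) < ((2 * m + 1 : ℕ) : ℝ) ^ d := by positivity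
  have h3 : (((lw p x N s - lw p y N s : ℝ) : ℂ)) * ((2 * m + 1 : ℕ) : ℂ) ^ d =
      ∑ g : Free.ChooseBasisIndex ℤ (𝓞 K) → Fin (2 * m + 1),
        ee (-lin (fun k => gr m (g k)) s) *
          (ch p (fun t => lin (fun k => gr m (g k)) (x t)) ^ (N + 2) *
            conj (ch p fun t => lin (fun k => gr m (g k)) (x t)) ^ (N + 1) -
          ch p (fun t => lin (fun k => gr m (g k)) (y t)) ^ (N + 2) *
            conj (ch p fun t => lin (fun k => gr m (g k)) (y t)) ^ (N + 1)) := by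
    simp only [mul_sub, Finset.sum_sub_distrib]
    rw [← h1, ← h2]
    push_cast
    ring
  have h4 := congrArg norm h3
  rw [norm_mul, norm_pow, Complex.norm_real, Complex.norm_natCast, Real.norm_eq_abs] at h4
  have h5 : |lw p x N s - lw p y N s| * ((2 * m + 1 : ℕ) : ℝ) ^ d ≤
      ((2 * m + 1 : ℕ) : ℝ) ^ d * ε := by
    rw [h4]
    refine (norm_sum_le _ _).trans ?_
    calc _ ≤ ∑ _g : Free.ChooseBasisIndex ℤ (𝓞 K) → Fin (2 * m + 1), ε := by
          refine Finset.sum_le_sum fun g _ => ?_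
          rw [norm_mul, ee_norm, one_mul]
          exact hε _ fun k => gr_abs m (g k)
      _ = ((2 * m + 1 : ℕ) : ℝ) ^ d * ε := by
          rw [Finset.sum_const, Finset.card_univ, Fintype.card_fun, Fintype.card_fin,
            nsmul_eq_mul]
          push_cast
          rfl
  rw [mul_comm] at h5
  exact le_of_mul_le_mul_left h5 hMpos

/-- collision probability -/
lemma collision {A : Type*} [AddCommGroup A] [DecidableEq A] {p : ι → ℝ} (hp : ∀ t, 0 ≤ p t)
    (hsum : ∑ t, p t = 1) (x : ι → A) (N : ℕ) (B : Finset A)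
    (hB : ∀ τ : Fin (N + 1) → ι, ∑ k, x (τ k) ∈ B) (t₀ : ι) :
    p t₀ ≤ B.card * ∑ ω : Path ι N, if ep x N ω = x t₀ then pw p N ω else 0 := by
  classical
  set P : (Fin (N + 1) → ι) → ℝ := fun τ => ∏ k, p (τ k) with hP
  have hPnn : ∀ τ, 0 ≤ P τ := fun τ => Finset.prod_nonneg fun _ _ => hp _
  have hPsum : ∑ τ, P τ = 1 := by
    have := Fintype.sum_pow p (N + 1)
    rw [hsum, one_pow] at this
    exact this.symm
  set q : A → ℝ := fun b => ∑ τ : Fin (N + 1) → ι, if ∑ k, x (τ k) = b then P τ else 0 with hq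
  have hqsum : ∑ b ∈ B, q b = 1 := by
    rw [hq]
    rw [Finset.sum_comm, ← hPsum]
    refine Finset.sum_congr rfl fun τ _ => ?_
    rw [Finset.sum_ite_eq B, if_pos (hB τ)]
  have hcs : (1 : ℝ) ≤ B.card * ∑ b ∈ B, q b ^ 2 := by
    have := sq_sum_le_card_mul_sum_sq (s := B) (f := q)
    rwa [hqsum, one_pow] at this
  have hcol : ∑ b ∈ B, q b ^ 2 =
      ∑ τ : Fin (N + 1) → ι, ∑ τ' : Fin (N + 1) → ι,
        if ∑ k, x (τ k) = ∑ k, x (τ' k) then P τ * P τ' else 0 := by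
    have h1 : ∀ b, q b ^ 2 = ∑ τ : Fin (N + 1) → ι, ∑ τ' : Fin (N + 1) → ι,
        if ∑ k, x (τ k) = b then (if ∑ k, x (τ' k) = b then P τ * P τ' else 0) else 0 := by
      intro b
      rw [sq, hq]
      simp only
      rw [Finset.sum_mul_sum]
      refine Finset.sum_congr rfl fun τ _ => Finset.sum_congr rfl fun τ' _ => ?_
      split_ifs <;> simp
    rw [Finset.sum_congr rfl fun b _ => h1 b, Finset.sum_comm]
    refine Finset.sum_congr rfl fun τ _ => ?_
    rw [Finset.sum_comm]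
    refine Finset.sum_congr rfl fun τ' _ => ?_
    rw [Finset.sum_ite_eq B, if_pos (hB τ)]
    by_cases h : ∑ k, x (τ k) = ∑ k, x (τ' k)
    · rw [if_pos h, if_pos h.symm]
    · rw [if_neg h, if_neg (Ne.symm h)]
  have hlow : p t₀ * ∑ b ∈ B, q b ^ 2 ≤
      ∑ ω : Path ι N, if ep x N ω = x t₀ then pw p N ω else 0 := by
    rw [Fintype.sum_prod_type, hcol]
    have h2 : p t₀ * ∑ τ : Fin (N + 1) → ι, ∑ τ' : Fin (N + 1) → ι,
        (if ∑ k, x (τ k) = ∑ k, x (τ' k) then P τ * P τ' else 0) =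
        ∑ ξ : (Fin (N + 1) → ι) × (Fin (N + 1) → ι),
          if ep x N (t₀, ξ) = x t₀ then pw p N (t₀, ξ) else 0 := by
      rw [Fintype.sum_prod_type, Finset.mul_sum]
      refine Finset.sum_congr rfl fun τ _ => ?_
      rw [Finset.mul_sum]
      refine Finset.sum_congr rfl fun τ' _ => ?_
      have h3 : (ep x N (t₀, τ, τ') = x t₀) ↔ ∑ k, x (τ k) = ∑ k, x (τ' k) := by
        unfold ep
        simp only [add_eq_left, sub_eq_zero]
      by_cases h : ∑ k, x (τ k) = ∑ k, x (τ' k)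
      · rw [if_pos h, if_pos (h3.2 h)]; rfl
      · rw [if_neg h, if_neg (fun h4 => h (h3.1 h4)), mul_zero]
    rw [h2]
    refine Finset.single_le_sum (f := fun t => ∑ ξ : (Fin (N + 1) → ι) × (Fin (N + 1) → ι),
      if ep x N (t, ξ) = x t₀ then pw p N (t, ξ) else 0) (fun t _ => ?_) (Finset.mem_univ t₀)
    refine Finset.sum_nonneg fun ξ _ => ?_
    split_ifs
    · exact pw_nonneg hp N _
    · exact le_rfl
  have hBnn : (0 : ℝ) ≤ B.card := Nat.cast_nonneg _
  calc p t₀ = p t₀ * 1 := (mul_one _).symm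
    _ ≤ p t₀ * (B.card * ∑ b ∈ B, q b ^ 2) := mul_le_mul_of_nonneg_left hcs (hp _)
    _ = B.card * (p t₀ * ∑ b ∈ B, q b ^ 2) := by ring
    _ ≤ _ := mul_le_mul_of_nonneg_left hlow hBnn

end Pool.Agent.TH832.Smyth
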