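import Mathlib
import Pool.Agent.TH832.Smyth.Walk
import Pool.Agent.TH832.Smyth.Match

set_option autoImplicit false
set_option linter.unusedSectionVars false

/-! Separated functions of polynomial growth that are nonnegative on relations vanish there. -/

namespace Pool.Agent.TH832.Smyth

open NumberField Module
open scoped ComplexConjugate

variable {K : Type} [Field K] [NumberField K]

/-- coordinate box -/
noncomputable def box (K : Type) [Field K] [NumberField K] (m : ℕ) : Finset (𝓞 K) := by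
  classical
  exact (Fintype.piFinset fun _ : Free.ChooseBasisIndex ℤ (𝓞 K) =>
    Finset.Icc (-(m : ℤ)) m).image fun g => ∑ k, g k • RingOfIntegers.basis K k

lemma mem_box {m : ℕ} {s : 𝓞 K} : s ∈ box K m ↔ ∀ k, |co s k| ≤ m := by
  classical
  unfold box
  constructor
  · intro h k
    obtain ⟨g, hg, rfl⟩ := Finset.mem_image.1 h
    rw [Fintype.mem_piFinset] at hg
    have h1 : co (∑ k, g k • RingOfIntegers.basis K k) k = g k := by
      unfold co
      rw [Basis.repr_sum_self]
    rw [h1, abs_le]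
    have := Finset.mem_Icc.1 (hg k)
    exact this
  · intro h
    refine Finset.mem_image.2 ⟨fun k => co s k, ?_, ?_⟩
    · rw [Fintype.mem_piFinset]
      intro k
      exact Finset.mem_Icc.2 (abs_le.1 (h k))
    · exact (RingOfIntegers.basis K).sum_repr s

lemma card_box (m : ℕ) :
    (box K m).card ≤ (2 * m + 1) ^ Fintype.card (Free.ChooseBasisIndex ℤ (𝓞 K)) := by
  classical
  unfold box
  refine Finset.card_image_le.trans ?_
  rw [Fintype.card_piFinset]
  simp only [Int.card_Icc]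
  rw [Finset.prod_const, Finset.card_univ]
  apply le_of_eq
  congr 1
  omega

lemma sz_le (s : 𝓞 K) :
    sz s ≤ ∑ k, |(co s k : ℝ)| * sz (RingOfIntegers.basis K k) := by
  have h1 : s = ∑ k, co s k • RingOfIntegers.basis K k :=
    ((RingOfIntegers.basis K).sum_repr s).symm
  have h2 : canonicalEmbedding K (s : K) =
      ∑ k, ((co s k : ℤ) : (K →+* ℂ) → ℂ) *
        canonicalEmbedding K ((RingOfIntegers.basis K k : 𝓞 K) : K) := by
    conv_lhs => rw [h1]
    change canonicalEmbedding K (algebraMap (𝓞 K) K (∑ k, co s k • RingOfIntegers.basis K k)) = _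
    rw [map_sum, map_sum]
    refine Finset.sum_congr rfl fun k _ => ?_
    rw [zsmul_eq_mul, map_mul, map_mul, map_intCast, map_intCast]
  unfold sz
  rw [h2]
  refine (norm_sum_le _ _).trans (Finset.sum_le_sum fun k _ => ?_)
  refine (norm_mul_le _ _).trans (mul_le_mul_of_nonneg_right ?_ (norm_nonneg _))
  rw [pi_norm_le_iff_of_nonneg (abs_nonneg _)]
  intro σ
  have : ((co s k : ℤ) : (K →+* ℂ) → ℂ) σ = ((co s k : ℤ) : ℂ) := rfl
  rw [this, Complex.norm_intCast]

variable {n : ℕ} [NeZero n] {a : Fin n → 𝓞 K}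

lemma exists_rel_coord (hna : Nonarch a) (i : Fin n) (s : 𝓞 K) :
    ∃ x : Fin n → 𝓞 K, Rel a x ∧ x i = s := by
  classical
  obtain ⟨c, hc⟩ := hna i
  refine ⟨Function.update (fun j => -(c j * s)) i s, ?_, Function.update_self _ _ _⟩
  unfold Rel
  rw [← Finset.add_sum_erase _ _ (Finset.mem_univ i), Function.update_self]
  have : ∑ j ∈ Finset.univ.erase i, a j * Function.update (fun j => -(c j * s)) i s j =
      -((∑ j ∈ Finset.univ.erase i, c j * a j) * s) := by
    rw [Finset.sum_mul, ← Finset.sum_neg_distrib]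
    refine Finset.sum_congr rfl fun j hj => ?_
    rw [Function.update_of_ne (Finset.ne_of_mem_erase hj)]
    ring
  rw [this, ← hc]
  ring

theorem liouville (ha : Arch a) (hna : Nonarch a) (f : Fin n → 𝓞 K → ℝ)
    (hf0 : ∀ s, ∑ i, f i s = 0) (C : ℝ) (c : ℕ) (hgrow : ∀ i s, |f i s| ≤ C * (1 + sz s) ^ c)
    (hF : ∀ x : Fin n → 𝓞 K, Rel a x → 0 ≤ ∑ i, f i (x i)) (y : Fin n → 𝓞 K)
    (hy : Rel a y) : ∑ i, f i (y i) = 0 := by
  classical
  by_contra hne
  have hFy : 0 < ∑ i, f i (y i) := lt_of_le_of_ne (hF y hy) (Ne.symm hne)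
  have hC0 : 0 ≤ C := by
    have h1 := hgrow 0 0
    have h2 : (0 : ℝ) < (1 + sz (0 : 𝓞 K)) ^ c := by
      have := sz_nonneg (0 : 𝓞 K); positivity
    have h3 := (abs_nonneg _).trans h1
    by_contra h4
    push Not at h4
    nlinarith
  set J := Free.ChooseBasisIndex ℤ (𝓞 K) with hJ
  set d := Fintype.card J with hd
  choose X hX1 hX2 using fun (i : Fin n) (k : J) =>
    exists_rel_coord hna i (RingOfIntegers.basis K k)
  set ℓ : ℕ := d * n + d + c + 2 with hℓ
  set Y : Finset (Fin n → 𝓞 K) :=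
    insert 0 (insert y (Finset.univ.image fun q : Fin n × J => X q.1 q.2)) with hY
  have hYrel : ∀ z ∈ Y, Rel a z := by
    intro z hz
    rcases Finset.mem_insert.1 hz with rfl | hz
    · unfold Rel; simp
    rcases Finset.mem_insert.1 hz with rfl | hz
    · exact hy
    obtain ⟨q, -, rfl⟩ := Finset.mem_image.1 hz
    exact hX1 _ _
  obtain ⟨T, w, hYT, hTrel, hwpos, hmatch⟩ := matched ha (2 * ℓ) Y hYrel
  -- index type and weights
  set W : ℝ := ∑ x ∈ T, w x with hW
  have h0T : (0 : Fin n → 𝓞 K) ∈ T := hYT (Finset.mem_insert_self _ _)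
  have hyT : y ∈ T := hYT (Finset.mem_insert_of_mem (Finset.mem_insert_self _ _))
  have hXT : ∀ i k, X i k ∈ T := fun i k => hYT (Finset.mem_insert_of_mem
    (Finset.mem_insert_of_mem (Finset.mem_image.2 ⟨(i, k), Finset.mem_univ _, rfl⟩)))
  have hWpos : 0 < W := Finset.sum_pos hwpos ⟨0, h0T⟩
  set ι : Type := {x // x ∈ T} with hι
  set p : ι → ℝ := fun t => w t.1 / W with hp
  have hppos : ∀ t, 0 < p t := fun t => div_pos (hwpos _ t.2) hWpos
  have hpnn : ∀ t, 0 ≤ p t := fun t => (hppos t).le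
  have hpsum : ∑ t, p t = 1 := by
    rw [hp, ← Finset.sum_div, Finset.sum_coe_sort T w, ← hW, div_self hWpos.ne']
  set x : ι → Fin n → 𝓞 K := fun t => t.1 with hx
  have hxrel : ∀ t, Rel a (x t) := fun t => hTrel _ t.2
  have hmom : ∀ i (α : (K →+* ℂ) → Fin (2 * ℓ)),
      ∑ t, (p t : ℂ) * mom (2 * ℓ) (canonicalEmbedding K (x t i : K)) α =
      ∑ t, (p t : ℂ) * mom (2 * ℓ) (canonicalEmbedding K (x t 0 : K)) α := by
    intro i α
    have h1 := congrFun (congrFun hmatch i) α
    simp only [Finset.sum_apply, Pi.smul_apply, Pi.zero_apply, dmom, Pi.sub_apply,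
      Complex.real_smul] at h1
    have h2 : ∑ z ∈ T, (w z : ℂ) * mom (2 * ℓ) (canonicalEmbedding K (z i : K)) α =
        ∑ z ∈ T, (w z : ℂ) * mom (2 * ℓ) (canonicalEmbedding K (z 0 : K)) α := by
      rw [← sub_eq_zero, ← Finset.sum_sub_distrib, ← h1]
      exact Finset.sum_congr rfl fun z _ => by ring
    have h3 : ∀ j : Fin n, ∑ t : ι, (p t : ℂ) *
        mom (2 * ℓ) (canonicalEmbedding K (x t j : K)) α =
        (∑ z ∈ T, (w z : ℂ) * mom (2 * ℓ) (canonicalEmbedding K (z j : K)) α) / W := by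
      intro j
      rw [← Finset.sum_coe_sort T
        (fun z => (w z : ℂ) * mom (2 * ℓ) (canonicalEmbedding K (z j : K)) α), Finset.sum_div]
      refine Finset.sum_congr rfl fun t _ => ?_
      rw [hp]; push_cast; ring
    rw [h3, h3, h2]
  -- minimal weight
  obtain ⟨tm, -, htm⟩ := Finset.exists_min_image Finset.univ p ⟨⟨0, h0T⟩, Finset.mem_univ _⟩
  set c₀ : ℝ := p tm with hc₀
  have hc₀pos : 0 < c₀ := hppos tm
  -- coordinate bound
  obtain ⟨D₁, hD₁⟩ : ∃ D₁ : ℕ, ∀ t i k, |co (x t i) k| ≤ D₁ := by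
    refine ⟨∑ t : ι, ∑ i, ∑ k, (co (x t i) k).natAbs, fun t i k => ?_⟩
    rw [Int.abs_eq_natAbs]
    have h1 : (co (x t i) k).natAbs ≤ ∑ k, (co (x t i) k).natAbs :=
      Finset.single_le_sum (f := fun k => (co (x t i) k).natAbs) (fun _ _ => Nat.zero_le _)
        (Finset.mem_univ k)
    have h2 : ∑ k, (co (x t i) k).natAbs ≤ ∑ i, ∑ k, (co (x t i) k).natAbs :=
      Finset.single_le_sum (f := fun i => ∑ k, (co (x t i) k).natAbs)
        (fun _ _ => Nat.zero_le _) (Finset.mem_univ i)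
    have h3 : ∑ i, ∑ k, (co (x t i) k).natAbs ≤ ∑ t : ι, ∑ i, ∑ k, (co (x t i) k).natAbs :=
      Finset.single_le_sum (f := fun t : ι => ∑ i, ∑ k, (co (x t i) k).natAbs)
        (fun _ _ => Nat.zero_le _) (Finset.mem_univ t)
    exact_mod_cast h1.trans (h2.trans h3)
  set D : ℝ := d * D₁ with hD
  have hD0 : 0 ≤ D := by positivity
  set C₁ : ℝ := 2 * (2 * Real.pi * D) ^ (2 * ℓ) * Real.exp (2 * Real.pi * D) with hC₁
  have hpi := Real.pi_pos
  have hC₁0 : 0 ≤ C₁ := by positivity
  -- characteristic function estimate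
  have hchar : ∀ (i : Fin n) (N : ℕ) (θ : J → ℝ), (∀ k, |θ k| ≤ 1 / 2) →
      ‖ch p (fun t => lin θ (x t i)) ^ (N + 2) *
          conj (ch p fun t => lin θ (x t i)) ^ (N + 1) -
        ch p (fun t => lin θ (x t 0)) ^ (N + 2) *
          conj (ch p fun t => lin θ (x t 0)) ^ (N + 1)‖ ≤
        (2 * N + 3) * C₁ * (ℓ.factorial / (4 * c₀ * (2 * N + 2)) ^ ℓ) := by
    intro i N θ hθ
    have hJne : (Finset.univ : Finset J).Nonempty := by
      have : Nonempty J := (RingOfIntegers.basis K).index_nonempty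
      exact Finset.univ_nonempty
    obtain ⟨k₀, -, hk₀⟩ := Finset.exists_max_image Finset.univ (fun k => |θ k|) hJne
    set ϑ : ℝ := |θ k₀| with hϑ
    have hϑ0 : 0 ≤ ϑ := abs_nonneg _
    have hϑ1 : ϑ ≤ 1 := (hθ k₀).trans (by norm_num)
    have hlin : ∀ t j, |lin θ (x t j)| ≤ D * ϑ := by
      intro t j
      unfold lin
      refine (Finset.abs_sum_le_sum_abs _ _).trans ?_
      calc ∑ k, |θ k * (co (x t j) k : ℝ)| ≤ ∑ _k : J, ϑ * D₁ := by
            refine Finset.sum_le_sum fun k _ => ?_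
            rw [abs_mul]
            refine mul_le_mul (hk₀ k (Finset.mem_univ _)) ?_ (abs_nonneg _) hϑ0
            exact_mod_cast hD₁ t j k
        _ = D * ϑ := by rw [Finset.sum_const, Finset.card_univ, nsmul_eq_mul, hD]; ring
    have hq : ∀ j, ‖ch p fun t => lin θ (x t j)‖ ≤ 1 - 4 * c₀ * ϑ ^ 2 := by
      intro j
      have h1 := charbound hpnn hpsum (fun t => lin θ (x t j)) (t₀ := ⟨0, h0T⟩)
        (t₁ := ⟨X j k₀, hXT j k₀⟩) (θ := θ k₀) (c := c₀) ?_ ?_ ?_ (hθ k₀) hc₀pos.le
        (htm _ (Finset.mem_univ _)) (htm _ (Finset.mem_univ _))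
      · rwa [hϑ, sq_abs]
      · intro h
        have h2 := congrArg (fun t : ι => t.1 j) h
        simp only [Pi.zero_apply] at h2
        rw [hX2] at h2
        exact (RingOfIntegers.basis K).ne_zero k₀ h2.symm
      · exact lin_zero θ
      · change lin θ (X j k₀ j) = θ k₀
        rw [hX2]
        unfold lin
        simp only [co_basis]
        simp
    exact diff_bound hpnn hpsum _ _ ℓ hD0 hϑ0 hϑ1 (by positivity) (fun t => hlin t i)
      (fun t => hlin t 0)
      (fun l hl => lin_pow_moment p (fun t => x t i) (fun t => x t 0) (2 * ℓ) (hmom i) θ l hl)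
      (hq i) (hq 0) N
  -- size constants
  set Cb : ℝ := ∑ k, sz (RingOfIntegers.basis K k) with hCb
  have hCb0 : 0 ≤ Cb := Finset.sum_nonneg fun _ _ => sz_nonneg _
  -- the main inequality for each `N`
  have hmain : ∀ N : ℕ, (∑ i, f i (y i)) * p ⟨y, hyT⟩ ≤
      ((2 * ((N + 1) * D₁) + 1 : ℕ) : ℝ) ^ (d * n) *
        (n * (((2 * ((2 * N + 3) * D₁) + 1 : ℕ) : ℝ) ^ d *
          (((2 * N + 3) * C₁ * (ℓ.factorial / (4 * c₀ * (2 * N + 2)) ^ ℓ)) *
            (C * (1 + Cb * ((2 * N + 3) * D₁)) ^ c)))) := by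
    intro N
    set m : ℕ := (2 * N + 3) * D₁ with hm
    set m' : ℕ := (N + 1) * D₁ with hm'
    set B : Finset (𝓞 K) := box K m with hB
    set B' : Finset (Fin n → 𝓞 K) := Fintype.piFinset fun _ => box K m' with hB'
    set E : ℝ := (2 * N + 3) * C₁ * (ℓ.factorial / (4 * c₀ * (2 * N + 2)) ^ ℓ) with hE
    have hE0 : 0 ≤ E := by positivity
    -- partial sums
    have hpart : ∀ (τ : Fin (N + 1) → ι) i k, |co (∑ r, x (τ r) i) k| ≤ m' := by
      intro τ i k
      rw [co_sum]
      refine (Finset.abs_sum_le_sum_abs _ _).trans ?_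
      calc ∑ r, |co (x (τ r) i) k| ≤ ∑ _r : Fin (N + 1), (D₁ : ℤ) :=
            Finset.sum_le_sum fun r _ => hD₁ _ _ _
        _ = m' := by rw [Finset.sum_const, Finset.card_univ, Fintype.card_fin, hm']; simp
    have hep : ∀ (ω : Path ι N) i, ep (fun t => x t i) N ω ∈ B := by
      intro ω i
      rw [hB, mem_box]
      intro k
      unfold ep
      rw [co_add, co_sub]
      have h1 := hD₁ ω.1 i k
      have h2 := hpart ω.2.1 i k
      have h3 := hpart ω.2.2 i k
      rw [abs_le] at h1 h2 h3 ⊢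
      have h4 : (m : ℤ) = D₁ + (m' + m') := by rw [hm, hm']; push_cast; ring
      constructor <;> linarith
    have hB'mem : ∀ τ : Fin (N + 1) → ι, ∑ r, x (τ r) ∈ B' := by
      intro τ
      rw [hB', Fintype.mem_piFinset]
      intro i
      rw [mem_box]
      intro k
      rw [Finset.sum_apply]
      exact hpart τ i k
    -- lower bound
    have hcol := collision hpnn hpsum x N B' hB'mem ⟨y, hyT⟩
    have hlow : (∑ i, f i (y i)) *
        (∑ ω : Path ι N, if ep x N ω = x ⟨y, hyT⟩ then pw p N ω else 0) ≤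
        ∑ ω : Path ι N, pw p N ω * ∑ i, f i (ep x N ω i) := by
      rw [Finset.mul_sum]
      refine Finset.sum_le_sum fun ω _ => ?_
      have hrel : Rel a (ep x N ω) := by
        have hz : ∀ u v : Fin n → 𝓞 K, Rel a u → Rel a v → Rel a (u + v) := by
          intro u v hu hv
          unfold Rel at *
          simp only [Pi.add_apply, mul_add, Finset.sum_add_distrib, hu, hv, add_zero]
        have hzn : ∀ u : Fin n → 𝓞 K, Rel a u → Rel a (-u) := by
          intro u hu
          unfold Rel at *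
          simp only [Pi.neg_apply, mul_neg, Finset.sum_neg_distrib, hu, neg_zero]
        have hz0 : Rel a (0 : Fin n → 𝓞 K) := by unfold Rel; simp
        have hzs : ∀ τ : Fin (N + 1) → ι, Rel a (∑ r, x (τ r)) := by
          intro τ
          refine Finset.sum_induction _ (Rel a) hz hz0 fun r _ => hxrel _
        unfold ep
        rw [sub_eq_add_neg]
        exact hz _ _ (hxrel _) (hz _ _ (hzs _) (hzn _ (hzs _)))
      split_ifs with h
      · rw [h, mul_comm]
      · rw [mul_zero]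
        exact mul_nonneg (pw_nonneg hpnn N ω) (hF _ hrel)
    -- upper bound
    have hcoord : ∀ (ω : Path ι N) i, ep x N ω i = ep (fun t => x t i) N ω := by
      intro ω i
      simp [ep, Finset.sum_apply]
    have hexp : ∑ ω : Path ι N, pw p N ω * ∑ i, f i (ep x N ω i) =
        ∑ i, ∑ s ∈ B, lw p (fun t => x t i) N s * f i s := by
      simp only [Finset.mul_sum]
      rw [Finset.sum_comm]
      refine Finset.sum_congr rfl fun i _ => ?_
      unfold lw
      simp only [Finset.sum_mul]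
      rw [Finset.sum_comm]
      refine Finset.sum_congr rfl fun ω _ => ?_
      rw [hcoord]
      simp only [ite_mul, zero_mul]
      rw [Finset.sum_ite_eq B, if_pos (hep ω i)]
    have hexp2 : ∑ i, ∑ s ∈ B, lw p (fun t => x t i) N s * f i s =
        ∑ i, ∑ s ∈ B, (lw p (fun t => x t i) N s - lw p (fun t => x t 0) N s) * f i s := by
      simp only [sub_mul, Finset.sum_sub_distrib]
      have : ∑ i, ∑ s ∈ B, lw p (fun t => x t 0) N s * f i s = 0 := by
        rw [Finset.sum_comm]
        refine Finset.sum_eq_zero fun s _ => ?_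
        rw [← Finset.mul_sum, hf0, mul_zero]
      rw [this, sub_zero]
    have hld : ∀ i, ∀ s ∈ B, |lw p (fun t => x t i) N s - lw p (fun t => x t 0) N s| ≤ E := by
      intro i s hs
      rw [hB, mem_box] at hs
      have h5 : ∀ j (ω : Path ι N) k, |co (ep (fun t => x t j) N ω) k - co s k| ≤ 2 * m := by
        intro j ω k
        have h6 := hep ω j
        rw [hB, mem_box] at h6
        have h7 := h6 k
        have h8 := hs k
        rw [abs_le] at h7 h8 ⊢
        constructor <;> linarith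
      exact law_diff p _ _ N m s (h5 i) (h5 0) fun θ hθ => hchar i N θ hθ
    have hfb : ∀ i, ∀ s ∈ B, |f i s| ≤ C * (1 + Cb * ((2 * N + 3) * D₁)) ^ c := by
      intro i s hs
      refine (hgrow i s).trans (mul_le_mul_of_nonneg_left ?_ hC0)
      refine pow_le_pow_left₀ (by have := sz_nonneg s; positivity) ?_ c
      rw [hB, mem_box] at hs
      have h1 : sz s ≤ Cb * ((2 * N + 3) * D₁) := by
        refine (sz_le s).trans ?_
        rw [hCb, Finset.sum_mul]
        refine Finset.sum_le_sum fun k _ => ?_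
        rw [mul_comm]
        refine mul_le_mul_of_nonneg_left ?_ (sz_nonneg _)
        have := hs k
        have h2 : (|(co s k : ℝ)|) ≤ (m : ℝ) := by exact_mod_cast this
        rw [hm] at h2
        push_cast at h2
        exact h2
      linarith
    have hup : ∑ i, ∑ s ∈ B,
        (lw p (fun t => x t i) N s - lw p (fun t => x t 0) N s) * f i s ≤
        n * (((2 * m + 1 : ℕ) : ℝ) ^ d * (E * (C * (1 + Cb * ((2 * N + 3) * D₁)) ^ c))) := by
      have hG0 : 0 ≤ C * (1 + Cb * ((2 * (N : ℝ) + 3) * D₁)) ^ c := by positivity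
      calc ∑ i, ∑ s ∈ B, (lw p (fun t => x t i) N s - lw p (fun t => x t 0) N s) * f i s
          ≤ ∑ _i : Fin n, ∑ _s ∈ B, E * (C * (1 + Cb * ((2 * N + 3) * D₁)) ^ c) := by
            refine Finset.sum_le_sum fun i _ => Finset.sum_le_sum fun s hs => ?_
            refine (le_abs_self _).trans ?_
            rw [abs_mul]
            exact mul_le_mul (hld i s hs) (hfb i s hs) (abs_nonneg _) hE0
        _ = n * (B.card * (E * (C * (1 + Cb * ((2 * N + 3) * D₁)) ^ c))) := by
            rw [Finset.sum_const, Finset.sum_const, Finset.card_univ, Fintype.card_fin,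
              nsmul_eq_mul, nsmul_eq_mul]
        _ ≤ _ := by
            refine mul_le_mul_of_nonneg_left ?_ (Nat.cast_nonneg _)
            refine mul_le_mul_of_nonneg_right ?_ (by positivity)
            have := card_box (K := K) m
            rw [← hB] at this
            exact_mod_cast this
    have hcard : (B'.card : ℝ) ≤ ((2 * m' + 1 : ℕ) : ℝ) ^ (d * n) := by
      rw [hB', Fintype.card_piFinset, Finset.prod_const, Finset.card_univ, Fintype.card_fin,
        pow_mul]
      have := card_box (K := K) m'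
      exact_mod_cast pow_le_pow_left₀ (Nat.zero_le _) this n
    have hSnn : 0 ≤ ∑ ω : Path ι N, if ep x N ω = x ⟨y, hyT⟩ then pw p N ω else 0 := by
      refine Finset.sum_nonneg fun ω _ => ?_
      split_ifs
      · exact pw_nonneg hpnn N _
      · exact le_rfl
    calc (∑ i, f i (y i)) * p ⟨y, hyT⟩
        ≤ (∑ i, f i (y i)) *
          (B'.card * ∑ ω : Path ι N, if ep x N ω = x ⟨y, hyT⟩ then pw p N ω else 0) :=
          mul_le_mul_of_nonneg_left hcol hFy.le
      _ = B'.card * ((∑ i, f i (y i)) *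
          ∑ ω : Path ι N, if ep x N ω = x ⟨y, hyT⟩ then pw p N ω else 0) := by ring
      _ ≤ ((2 * m' + 1 : ℕ) : ℝ) ^ (d * n) * ((∑ i, f i (y i)) *
          ∑ ω : Path ι N, if ep x N ω = x ⟨y, hyT⟩ then pw p N ω else 0) :=
          mul_le_mul_of_nonneg_right hcard (mul_nonneg hFy.le hSnn)
      _ ≤ _ := by
          refine mul_le_mul_of_nonneg_left ?_ (by positivity)
          refine hlow.trans ?_
          rw [hexp, hexp2]
          exact hup
  -- asymptotics
  set Q : ℝ := 6 * D₁ + 1 with hQ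
  set Q' : ℝ := 1 + 3 * Cb * D₁ with hQ'
  set A : ℝ := Q ^ (d * n) * (n * (Q ^ d * ((3 * C₁ * (ℓ.factorial / (8 * c₀) ^ ℓ)) *
    (C * Q' ^ c)))) with hA
  have hQ0 : 0 ≤ Q := by positivity
  have hQ'0 : 0 ≤ Q' := by positivity
  have hA0 : 0 ≤ A := by positivity
  have hfin : ∀ N : ℕ, (∑ i, f i (y i)) * p ⟨y, hyT⟩ * ((N : ℝ) + 1) ≤ A := by
    intro N
    set R : ℝ := (N : ℝ) + 1 with hR
    have hR1 : 1 ≤ R := by rw [hR]; have : (0 : ℝ) ≤ N := Nat.cast_nonneg _; linarith
    have hR0 : 0 < R := by linarith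
    have hDnn : (0 : ℝ) ≤ D₁ := Nat.cast_nonneg _
    have e1 : ((2 * ((N + 1) * D₁) + 1 : ℕ) : ℝ) ≤ Q * R := by
      push_cast
      rw [← hR, hQ]
      nlinarith [mul_nonneg hR0.le hDnn]
    have e2 : ((2 * ((2 * N + 3) * D₁) + 1 : ℕ) : ℝ) ≤ Q * R := by
      push_cast
      have : (2 * (N : ℝ) + 3) ≤ 3 * R := by
        rw [hR]; have : (0 : ℝ) ≤ N := Nat.cast_nonneg _; linarith
      rw [hQ]
      nlinarith [mul_nonneg hR0.le hDnn, mul_le_mul_of_nonneg_right this hDnn]
    have e3 : (2 * (N : ℝ) + 3) ≤ 3 * R := by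
      rw [hR]; have : (0 : ℝ) ≤ N := Nat.cast_nonneg _; linarith
    have e4 : 4 * c₀ * (2 * (N : ℝ) + 2) = (8 * c₀) * R := by rw [hR]; ring
    have e5 : 1 + Cb * ((2 * (N : ℝ) + 3) * D₁) ≤ Q' * R := by
      rw [hQ']
      have h1 : Cb * ((2 * (N : ℝ) + 3) * D₁) ≤ Cb * ((3 * R) * D₁) :=
        mul_le_mul_of_nonneg_left (mul_le_mul_of_nonneg_right e3 hDnn) hCb0
      nlinarith [mul_nonneg (mul_nonneg hCb0 hDnn) hR0.le]
    have h1 := hmain N
    rw [e4] at h1
    have h2 : ((2 * ((N + 1) * D₁) + 1 : ℕ) : ℝ) ^ (d * n) *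
        (n * (((2 * ((2 * N + 3) * D₁) + 1 : ℕ) : ℝ) ^ d *
          (((2 * N + 3) * C₁ * (ℓ.factorial / ((8 * c₀) * R) ^ ℓ)) *
            (C * (1 + Cb * ((2 * N + 3) * D₁)) ^ c)))) ≤
        (Q * R) ^ (d * n) * (n * ((Q * R) ^ d *
          (((3 * R) * C₁ * (ℓ.factorial / ((8 * c₀) * R) ^ ℓ)) * (C * (Q' * R) ^ c)))) := by
      gcongr
    have h3 : (Q * R) ^ (d * n) * (n * ((Q * R) ^ d *
          (((3 * R) * C₁ * (ℓ.factorial / ((8 * c₀) * R) ^ ℓ)) * (C * (Q' * R) ^ c)))) =
        A * (R ^ (d * n) * R ^ d * R * R ^ c / R ^ ℓ) := by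
      rw [hA]
      simp only [mul_pow]
      field_simp
    have h4 : R ^ (d * n) * R ^ d * R * R ^ c / R ^ ℓ = R⁻¹ := by
      have h5 : R ^ ℓ = (R ^ (d * n) * R ^ d * R * R ^ c) * R := by
        rw [hℓ]; ring
      rw [h5]
      have h6 : R ^ (d * n) * R ^ d * R * R ^ c ≠ 0 := by positivity
      field_simp
    rw [h4] at h3
    have h5 := h1.trans (h2.trans_eq h3)
    calc (∑ i, f i (y i)) * p ⟨y, hyT⟩ * R ≤ (A * R⁻¹) * R :=
          mul_le_mul_of_nonneg_right h5 hR0.le
      _ = A := by field_simp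
  have hpos : 0 < (∑ i, f i (y i)) * p ⟨y, hyT⟩ := mul_pos hFy (hppos _)
  obtain ⟨N, hN⟩ := exists_nat_gt (A / ((∑ i, f i (y i)) * p ⟨y, hyT⟩))
  rw [div_lt_iff₀ hpos] at hN
  have := hfin N
  nlinarith

end Pool.Agent.TH832.Smyth
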