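import Mathlib

set_option autoImplicit false

/-! From positive real weights to positive integer weights, and from equal marginals to
permutations. -/

namespace Pool.Agent.TH832.Smyth

open Module

/-- positive real weights can be replaced by positive integers satisfying the same integral
linear relations -/
theorem ratl {X : Type} [Fintype X] (c : X → ℝ) (hc : ∀ x, 0 < c x) :
    ∃ m : X → ℕ, (∀ x, 0 < m x) ∧
      ∀ k : X → ℤ, ∑ x, (k x : ℝ) * c x = 0 → ∑ x, k x * (m x : ℤ) = 0 := by
  classical
  set V : Submodule ℚ ℝ := Submodule.span ℚ (Set.range c) with hV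
  have hfin : FiniteDimensional ℚ V := FiniteDimensional.span_of_finite ℚ (Set.finite_range c)
  let b := Module.finBasis ℚ V
  set r := Module.finrank ℚ V with hr
  set q : X → Fin r → ℚ := fun x k => b.repr ⟨c x, Submodule.subset_span ⟨x, rfl⟩⟩ k with hq
  have hcx : ∀ x, c x = ∑ k, (q x k : ℝ) * ((b k : V) : ℝ) := by
    intro x
    have h1 := b.sum_repr ⟨c x, Submodule.subset_span ⟨x, rfl⟩⟩
    have h2 := congrArg Subtype.val h1
    simp only [AddSubmonoidClass.coe_finsetSum, SetLike.val_smul] at h2
    rw [← h2]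
    exact Finset.sum_congr rfl fun k _ => by rw [Rat.smul_def]
  -- an open condition
  set U : Set (Fin r → ℝ) := {b' | ∀ x, 0 < ∑ k, (q x k : ℝ) * b' k} with hU
  have hUopen : IsOpen U := by
    have : U = ⋂ x, {b' : Fin r → ℝ | 0 < ∑ k, (q x k : ℝ) * b' k} := by
      ext b'; simp [hU]
    rw [this]
    refine isOpen_iInter_of_finite fun x => isOpen_lt continuous_const ?_
    fun_prop
  have hUne : U.Nonempty := ⟨fun k => ((b k : V) : ℝ), fun x => by rw [← hcx]; exact hc x⟩
  have hdense : DenseRange fun v : Fin r → ℚ => (fun k => ((v k : ℚ) : ℝ)) := by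
    have : DenseRange (Pi.map fun (_ : Fin r) (z : ℚ) => (z : ℝ)) :=
      DenseRange.piMap fun _ => Rat.denseRange_cast
    exact this
  obtain ⟨v, hv⟩ := hdense.exists_mem_open hUopen hUne
  set c' : X → ℚ := fun x => ∑ k, q x k * v k with hc'
  have hc'pos : ∀ x, 0 < c' x := by
    intro x
    have h1 := hv x
    have h2 : ((c' x : ℚ) : ℝ) = ∑ k, (q x k : ℝ) * (v k : ℝ) := by
      rw [hc']; push_cast; rfl
    rw [← h2] at h1
    exact_mod_cast h1
  have hrel : ∀ k : X → ℤ, ∑ x, (k x : ℝ) * c x = 0 → ∑ x, (k x : ℚ) * c' x = 0 := by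
    intro k hk
    have h1 : ∑ l, (∑ x, (k x : ℚ) * q x l) • b l = 0 := by
      apply Subtype.ext
      simp only [AddSubmonoidClass.coe_finsetSum, SetLike.val_smul, ZeroMemClass.coe_zero]
      rw [← hk]
      simp only [hcx, Finset.mul_sum, Rat.smul_def]
      rw [Finset.sum_comm]
      refine Finset.sum_congr rfl fun l _ => ?_
      push_cast
      rw [Finset.sum_mul]
      exact Finset.sum_congr rfl fun x _ => by ring
    have h2 : ∀ l, ∑ x, (k x : ℚ) * q x l = 0 :=
      Fintype.linearIndependent_iff.1 b.linearIndependent _ h1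
    rw [hc']
    simp only [Finset.mul_sum]
    rw [Finset.sum_comm]
    refine Finset.sum_eq_zero fun l _ => ?_
    have : ∑ x, (k x : ℚ) * (q x l * v l) = (∑ x, (k x : ℚ) * q x l) * v l := by
      rw [Finset.sum_mul]; exact Finset.sum_congr rfl fun x _ => by ring
    rw [this, h2, zero_mul]
  -- clear denominators
  set D : ℕ := ∏ x, (c' x).den with hD
  have hDpos : 0 < D := Finset.prod_pos fun x _ => (c' x).den_pos
  have hint : ∀ x, ∃ m : ℕ, (m : ℚ) = D * c' x := by
    intro x
    obtain ⟨e, he⟩ := Finset.dvd_prod_of_mem (fun x => (c' x).den) (Finset.mem_univ x)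
    rw [← hD] at he
    refine ⟨(c' x).num.toNat * e, ?_⟩
    have hnum : 0 < (c' x).num := Rat.num_pos.2 (hc'pos x)
    have h1 : (((c' x).num.toNat : ℕ) : ℚ) = ((c' x).num : ℚ) := by
      have : (((c' x).num.toNat : ℕ) : ℤ) = (c' x).num := Int.toNat_of_nonneg hnum.le
      exact_mod_cast this
    have h2 : c' x * (c' x).den = (c' x).num := Rat.mul_den_eq_num _
    rw [he]
    push_cast
    rw [h1, ← h2]
    ring
  choose m hm using hint
  refine ⟨m, fun x => ?_, fun k hk => ?_⟩
  · have h1 : (0 : ℚ) < m x := by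
      rw [hm]
      exact mul_pos (by exact_mod_cast hDpos) (hc'pos x)
    exact_mod_cast h1
  · have h1 := hrel k hk
    have h2 : ((∑ x, k x * (m x : ℤ) : ℤ) : ℚ) = D * ∑ x, (k x : ℚ) * c' x := by
      push_cast
      rw [Finset.mul_sum]
      exact Finset.sum_congr rfl fun x _ => by rw [hm]; ring
    rw [h1, mul_zero] at h2
    exact_mod_cast h2

/-- equal fibre cardinalities give a permutation -/
theorem exists_perm {T β : Type} [Fintype T] [DecidableEq β] (f g : T → β)
    (h : ∀ s, (Finset.univ.filter fun t => f t = s).card =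
      (Finset.univ.filter fun t => g t = s).card) :
    ∃ π : Equiv.Perm T, ∀ t, f t = g (π t) := by
  classical
  have h1 : ∀ s, Nonempty ({t // f t = s} ≃ {t // g t = s}) := by
    intro s
    refine Fintype.card_eq.1 ?_
    rw [Fintype.card_subtype, Fintype.card_subtype]
    exact h s
  refine ⟨Equiv.ofFiberEquiv fun s => (h1 s).some, fun t => ?_⟩
  exact (Equiv.ofFiberEquiv_map _ t).symm

end Pool.Agent.TH832.Smyth
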