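import Mathlib
import Pool.Agent.TH832.Smyth.Liouville
import Pool.Agent.TH832.Smyth.Ratl

set_option autoImplicit false
set_option linter.unusedSectionVars false

/-! The strict criteria give a permutation solution. -/

namespace Pool.Agent.TH832.Smyth

open NumberField Module

variable {K : Type} [Field K] [NumberField K] {n : ℕ}

/-- a nontrivial solution by permutations -/
def PermSol (a : Fin n → K) : Prop :=
  ∃ (T : Type) (_ : Fintype T) (π : Fin n → Equiv.Perm T) (y : T → K), y ≠ 0 ∧
    ∀ t, ∑ i, a i * y (π i t) = 0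

variable [NeZero n]

/-- the vector of a relation -/
noncomputable def ev (x : Fin n → 𝓞 K) : (Fin n × 𝓞 K) →₀ ℝ :=
  ∑ i, Finsupp.single (i, x i) 1

/-- the diagonal vector -/
noncomputable def dv (n : ℕ) (s : 𝓞 K) : (Fin n × 𝓞 K) →₀ ℝ :=
  ∑ i, Finsupp.single (i, s) 1

/-- generators of the cone -/
def gens (a : Fin n → 𝓞 K) : Set ((Fin n × 𝓞 K) →₀ ℝ) :=
  {v | (∃ x, Rel a x ∧ v = ev x) ∨ (∃ s, v = dv n s) ∨ ∃ s, v = -dv n s}

variable {a : Fin n → 𝓞 K}

lemma finite_sz (M : ℝ) : {t : 𝓞 K | sz t ≤ M}.Finite := by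
  have h1 := Embeddings.finite_of_norm_le K ℂ M
  refine Set.Finite.of_finite_image (f := fun t : 𝓞 K => (t : K)) (h1.subset ?_)
    (fun s _ t _ h => RingOfIntegers.ext h)
  rintro _ ⟨t, ht, rfl⟩
  refine ⟨RingOfIntegers.isIntegral_coe t, ?_⟩
  exact (canonicalEmbedding.norm_le_iff _ _).1 ht

theorem cone_sub (ha : Arch a) (hna : Nonarch a) :
    ∀ v ∈ PointedCone.hull ℝ (gens a), -v ∈ PointedCone.hull ℝ (gens a) := by
  classical
  obtain ⟨ρ, M, hρ0, hρ1, hM, hcon⟩ := contract (n := n) ha hna
  set s := PointedCone.hull ℝ (gens a) with hs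
  set B : Set ((Fin n × 𝓞 K) →₀ ℝ) :=
    (fun q : Fin n × 𝓞 K => Finsupp.single q (1 : ℝ)) '' {q | sz q.2 ≤ M} with hB
  have hBfin : B.Finite := by
    refine Set.Finite.image _ ?_
    have h1 : {q : Fin n × 𝓞 K | sz q.2 ≤ M} = Set.univ ×ˢ {t : 𝓞 K | sz t ≤ M} := by
      ext q; simp
    rw [h1]
    exact Set.finite_univ.prod (finite_sz M)
  set V₀ := Submodule.span ℝ B with hV₀
  have hfd : FiniteDimensional ℝ V₀ := FiniteDimensional.span_of_finite ℝ hBfin
  have hev : ∀ x, Rel a x → ev x ∈ s := fun x hx => PointedCone.subset_hull (Or.inl ⟨x, hx, rfl⟩)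
  have hdv : ∀ t, dv n t ∈ s := fun t => PointedCone.subset_hull (Or.inr (Or.inl ⟨t, rfl⟩))
  have hdv' : ∀ t, -dv n t ∈ s := fun t => PointedCone.subset_hull (Or.inr (Or.inr ⟨t, rfl⟩))
  -- growth bookkeeping: powers of the contraction factor
  have hpow : ∀ R : ℝ, ∃ k : ℕ, R ≤ M * (ρ⁻¹) ^ k := by
    intro R
    have h1 : 1 < ρ⁻¹ := (one_lt_inv₀ hρ0).2 hρ1
    obtain ⟨k, hk⟩ := pow_unbounded_of_one_lt (R / M) h1
    refine ⟨k, ?_⟩
    rw [div_lt_iff₀ hM] at hk
    linarith
  have hstep : ∀ k : ℕ, ∀ t : 𝓞 K, sz t ≤ M * (ρ⁻¹) ^ (k + 1) →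
      ρ * sz t ≤ M * (ρ⁻¹) ^ k := by
    intro k t ht
    calc ρ * sz t ≤ ρ * (M * (ρ⁻¹) ^ (k + 1)) := mul_le_mul_of_nonneg_left ht hρ0.le
      _ = M * (ρ⁻¹) ^ k := by rw [pow_succ]; field_simp
  -- the algebraic identities
  have hid1 : ∀ (i : Fin n) (x : Fin n → 𝓞 K),
      Finsupp.single (i, x i) (1 : ℝ) = ev x +
        ∑ j ∈ Finset.univ.erase i, -Finsupp.single (j, x j) (1 : ℝ) := by
    intro i x
    unfold ev
    rw [← Finset.add_sum_erase _ _ (Finset.mem_univ i), Finset.sum_neg_distrib]
    abel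
  have hid2 : ∀ (i : Fin n) (t : 𝓞 K),
      -Finsupp.single (i, t) (1 : ℝ) = -dv n t +
        ∑ j ∈ Finset.univ.erase i, Finsupp.single (j, t) (1 : ℝ) := by
    intro i t
    unfold dv
    rw [← Finset.add_sum_erase _ _ (Finset.mem_univ i)]
    abel
  have hfill : ∀ v, ∃ w ∈ V₀, v - w ∈ s := by
    have hadd : ∀ u v : (Fin n × 𝓞 K) →₀ ℝ, (∃ w ∈ V₀, u - w ∈ s) → (∃ w ∈ V₀, v - w ∈ s) →
        ∃ w ∈ V₀, u + v - w ∈ s := by
      rintro u v ⟨w, hw, h1⟩ ⟨w', hw', h2⟩
      exact ⟨w + w', V₀.add_mem hw hw', by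
        have : u + v - (w + w') = (u - w) + (v - w') := by abel
        rw [this]; exact s.add_mem h1 h2⟩
    have hsum : ∀ (S : Finset (Fin n)) (u : Fin n → (Fin n × 𝓞 K) →₀ ℝ),
        (∀ j ∈ S, ∃ w ∈ V₀, u j - w ∈ s) → ∃ w ∈ V₀, ∑ j ∈ S, u j - w ∈ s := by
      intro S u hu
      induction S using Finset.induction_on with
      | empty => exact ⟨0, V₀.zero_mem, by simp⟩
      | insert j S hj ih =>
        rw [Finset.sum_insert hj]
        exact hadd _ _ (hu j (Finset.mem_insert_self _ _))
          (ih fun k hk => hu k (Finset.mem_insert_of_mem hk))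
    have hmem : ∀ v ∈ s, ∃ w ∈ V₀, v - w ∈ s := fun v hv => ⟨0, V₀.zero_mem, by simpa using hv⟩
    have hsingle : ∀ k : ℕ, ∀ i t, sz t ≤ M * (ρ⁻¹) ^ k →
        ∃ w ∈ V₀, Finsupp.single ((i, t) : Fin n × 𝓞 K) (1 : ℝ) - w ∈ s := by
      intro k
      induction k with
      | zero =>
        intro i t ht
        exact ⟨Finsupp.single (i, t) 1, Submodule.subset_span ⟨(i, t), by simpa using ht, rfl⟩,
          by simp⟩
      | succ k ih =>
        intro i t ht
        by_cases hMt : M ≤ sz t
        · obtain ⟨x, hx1, hx2, hx3⟩ := hcon i t hMt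
          have h1 := hid1 i x
          rw [hx2] at h1
          rw [h1]
          refine hadd _ _ (hmem _ (hev x hx1)) (hsum _ _ fun j hj => ?_)
          rw [hid2]
          refine hadd _ _ (hmem _ (hdv' _)) (hsum _ _ fun l _ => ih l (x j) ?_)
          exact (hx3 j (Finset.ne_of_mem_erase hj)).trans (hstep k t ht)
        · push Not at hMt
          exact ⟨Finsupp.single (i, t) 1, Submodule.subset_span ⟨(i, t), hMt.le, rfl⟩, by simp⟩
    have hpos : ∀ i t, ∃ w ∈ V₀, Finsupp.single ((i, t) : Fin n × 𝓞 K) (1 : ℝ) - w ∈ s := by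
      intro i t
      obtain ⟨k, hk⟩ := hpow (sz t)
      exact hsingle k i t hk
    have hneg : ∀ i t, ∃ w ∈ V₀, -Finsupp.single ((i, t) : Fin n × 𝓞 K) (1 : ℝ) - w ∈ s := by
      intro i t
      rw [hid2]
      exact hadd _ _ (hmem _ (hdv' _)) (hsum _ _ fun l _ => hpos l t)
    have hsmul : ∀ (r : ℝ) (v : (Fin n × 𝓞 K) →₀ ℝ), 0 ≤ r → (∃ w ∈ V₀, v - w ∈ s) →
        ∃ w ∈ V₀, r • v - w ∈ s := by
      rintro r v hr ⟨w, hw, h⟩
      exact ⟨r • w, V₀.smul_mem r hw, by rw [← smul_sub]; exact s.smul_mem hr h⟩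
    intro v
    induction v using Finsupp.induction_linear with
    | zero => exact ⟨0, V₀.zero_mem, by simp⟩
    | add u v hu hv => exact hadd u v hu hv
    | single q r =>
      obtain ⟨i, t⟩ := q
      rcases le_total 0 r with hr | hr
      · have := hsmul r _ hr (hpos i t)
        simpa using this
      · have := hsmul (-r) _ (by linarith) (hneg i t)
        simpa using this
  rcases cone_alt s V₀ hfill with h | ⟨g, hg, v, hv, hgv⟩
  · exact h
  · exfalso
    set f : Fin n → 𝓞 K → ℝ := fun i t => g (Finsupp.single (i, t) 1) with hf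
    have hf0 : ∀ t, ∑ i, f i t = 0 := by
      intro t
      have h1 := hg _ (hdv t)
      have h2 := hg _ (hdv' t)
      rw [map_neg] at h2
      have h3 : g (dv n t) = ∑ i, f i t := by rw [dv, map_sum]
      rw [h3] at h1 h2
      linarith
    have hFe : ∀ x, g (ev x) = ∑ i, f i (x i) := fun x => by rw [ev, map_sum]
    have hF : ∀ x, Rel a x → 0 ≤ ∑ i, f i (x i) := fun x hx => by
      rw [← hFe]; exact hg _ (hev x hx)
    -- bound on the centre
    obtain ⟨A, hA⟩ : ∃ A : ℝ, ∀ i, ∀ t, sz t ≤ M → |f i t| ≤ A := by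
      have h1 : ((fun q : Fin n × 𝓞 K => |f q.1 q.2|) '' {q | sz q.2 ≤ M}).Finite := by
        refine Set.Finite.image _ ?_
        have h1 : {q : Fin n × 𝓞 K | sz q.2 ≤ M} = Set.univ ×ˢ {t : 𝓞 K | sz t ≤ M} := by
          ext q; simp
        rw [h1]
        exact Set.finite_univ.prod (finite_sz M)
      obtain ⟨A, hA⟩ := h1.bddAbove
      exact ⟨A, fun i t ht => hA ⟨(i, t), ht, rfl⟩⟩
    have hA0 : 0 ≤ A := by
      have h0 : sz (0 : 𝓞 K) ≤ M := by
        unfold sz
        have : canonicalEmbedding K ((0 : 𝓞 K) : K) = 0 := by simp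
        rw [this, norm_zero]; exact hM.le
      exact (abs_nonneg _).trans (hA 0 0 h0)
    set b : ℝ := (n : ℝ) ^ 2 with hb
    have hn1 : (1 : ℝ) ≤ n := by exact_mod_cast Nat.one_le_iff_ne_zero.2 (NeZero.ne n)
    have hb1 : 1 ≤ b := one_le_pow₀ hn1
    have hgrow1 : ∀ k : ℕ, ∀ i t, sz t ≤ M * (ρ⁻¹) ^ k → |f i t| ≤ A * b ^ k := by
      intro k
      induction k with
      | zero => intro i t ht; simpa using hA i t (by simpa using ht)
      | succ k ih =>
        intro i t ht
        by_cases hMt : M ≤ sz t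
        · have hlow : ∀ i, -(n * (A * b ^ k)) ≤ f i t := by
            intro i
            obtain ⟨x, hx1, hx2, hx3⟩ := hcon i t hMt
            have h1 := hF x hx1
            rw [← Finset.add_sum_erase _ _ (Finset.mem_univ i), hx2] at h1
            have h2 : ∑ j ∈ Finset.univ.erase i, f j (x j) ≤ n * (A * b ^ k) := by
              calc ∑ j ∈ Finset.univ.erase i, f j (x j)
                  ≤ ∑ _j ∈ Finset.univ.erase i, A * b ^ k := by
                    refine Finset.sum_le_sum fun j hj => ?_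
                    refine (le_abs_self _).trans (ih j (x j) ?_)
                    exact (hx3 j (Finset.ne_of_mem_erase hj)).trans (hstep k t ht)
                _ ≤ n * (A * b ^ k) := by
                    rw [Finset.sum_const, nsmul_eq_mul]
                    refine mul_le_mul_of_nonneg_right ?_ (by positivity)
                    have : (Finset.univ.erase i).card ≤ n := by
                      refine (Finset.card_le_card (Finset.erase_subset _ _)).trans ?_
                      rw [Finset.card_univ, Fintype.card_fin]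
                    exact_mod_cast this
            linarith
          have hup : f i t ≤ n * (n * (A * b ^ k)) := by
            have h1 := hf0 t
            rw [← Finset.add_sum_erase _ _ (Finset.mem_univ i)] at h1
            have h2 : ∑ j ∈ Finset.univ.erase i, -f j t ≤ n * (n * (A * b ^ k)) := by
              calc ∑ j ∈ Finset.univ.erase i, -f j t
                  ≤ ∑ _j ∈ Finset.univ.erase i, n * (A * b ^ k) :=
                    Finset.sum_le_sum fun j _ => by have := hlow j; linarith
                _ ≤ n * (n * (A * b ^ k)) := by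
                    rw [Finset.sum_const, nsmul_eq_mul]
                    refine mul_le_mul_of_nonneg_right ?_ (by positivity)
                    have : (Finset.univ.erase i).card ≤ n := by
                      refine (Finset.card_le_card (Finset.erase_subset _ _)).trans ?_
                      rw [Finset.card_univ, Fintype.card_fin]
                    exact_mod_cast this
            rw [Finset.sum_neg_distrib] at h2
            linarith
          have h5 : n * (n * (A * b ^ k)) = A * b ^ (k + 1) := by rw [hb]; ring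
          have h6 : (n : ℝ) * (A * b ^ k) ≤ A * b ^ (k + 1) := by
            rw [← h5]
            have : 0 ≤ (n : ℝ) * (A * b ^ k) := by positivity
            nlinarith
          rw [abs_le]
          constructor
          · have := hlow i; linarith
          · linarith
        · push Not at hMt
          have h1 := hA i t hMt.le
          have h2 : (1 : ℝ) ≤ b ^ (k + 1) := one_le_pow₀ hb1
          nlinarith
    -- polynomial growth
    obtain ⟨c, hc⟩ : ∃ c : ℕ, b ≤ (ρ⁻¹) ^ c := by
      have h1 : 1 < ρ⁻¹ := (one_lt_inv₀ hρ0).2 hρ1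
      obtain ⟨c, hc⟩ := pow_unbounded_of_one_lt b h1
      exact ⟨c, hc.le⟩
    have hρinv : 1 < ρ⁻¹ := (one_lt_inv₀ hρ0).2 hρ1
    have hgrow : ∀ i t, |f i t| ≤ A * (ρ⁻¹ * (1 + M⁻¹)) ^ c * (1 + sz t) ^ c := by
      intro i t
      have hex := hpow (sz t)
      set k := Nat.find hex with hk
      have hk1 : sz t ≤ M * (ρ⁻¹) ^ k := Nat.find_spec hex
      have h1 := hgrow1 k i t hk1
      have h2 : b ^ k ≤ ((ρ⁻¹) ^ k) ^ c := by
        calc b ^ k ≤ ((ρ⁻¹) ^ c) ^ k := pow_le_pow_left₀ (by linarith) hc k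
          _ = ((ρ⁻¹) ^ k) ^ c := by rw [← pow_mul, ← pow_mul, mul_comm]
      have h3 : (ρ⁻¹) ^ k ≤ ρ⁻¹ * (1 + M⁻¹) * (1 + sz t) := by
        have hszt := sz_nonneg t
        have hMi : 0 < M⁻¹ := inv_pos.2 hM
        rcases Nat.eq_zero_or_pos k with hk0 | hkpos
        · rw [hk0, pow_zero]
          have e1 : 1 ≤ 1 + M⁻¹ := by linarith
          have e2 : 1 ≤ 1 + sz t := by linarith
          have e3 : 1 ≤ ρ⁻¹ * (1 + M⁻¹) := one_le_mul_of_one_le_of_one_le hρinv.le e1
          exact one_le_mul_of_one_le_of_one_le e3 e2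
        · have h4 : ¬ sz t ≤ M * (ρ⁻¹) ^ (k - 1) := Nat.find_min hex (by omega)
          push Not at h4
          have h5 : (ρ⁻¹) ^ k = ρ⁻¹ * (ρ⁻¹) ^ (k - 1) := by
            rw [← pow_succ']; congr 1; omega
          have h6 : (ρ⁻¹) ^ (k - 1) ≤ M⁻¹ * sz t := by
            rw [inv_mul_eq_div, le_div_iff₀ hM]; linarith
          rw [h5, mul_assoc]
          refine mul_le_mul_of_nonneg_left (h6.trans ?_) (by linarith)
          nlinarith
      calc |f i t| ≤ A * b ^ k := h1
        _ ≤ A * (ρ⁻¹ * (1 + M⁻¹) * (1 + sz t)) ^ c := by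
            refine mul_le_mul_of_nonneg_left (h2.trans ?_) hA0
            exact pow_le_pow_left₀ (by positivity) h3 c
        _ = _ := by rw [mul_pow]; ring
    have hL := liouville ha hna f hf0 _ c hgrow hF
    have hzero : ∀ v ∈ s, g v = 0 := by
      intro v hv
      induction hv using Submodule.span_induction with
      | mem v hv =>
        rcases hv with ⟨x, hx, rfl⟩ | ⟨t, rfl⟩ | ⟨t, rfl⟩
        · rw [hFe]; exact hL x hx
        · rw [dv, map_sum]; exact hf0 t
        · rw [map_neg, dv, map_sum, neg_eq_zero]; exact hf0 t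
      | zero => exact map_zero g
      | add x y _ _ hx hy => rw [map_add, hx, hy, add_zero]
      | smul r x _ hx =>
        have : (r • x : (Fin n × 𝓞 K) →₀ ℝ) = (r : ℝ) • x := rfl
        rw [this, map_smul, hx, smul_zero]
    rw [hzero v hv] at hgv
    exact lt_irrefl _ hgv

/-- explicit form of membership in the cone -/
lemma mem_form (v : (Fin n × 𝓞 K) →₀ ℝ) (hv : v ∈ PointedCone.hull ℝ (gens a)) :
    ∃ (c : (Fin n → 𝓞 K) →₀ ℝ) (r : 𝓞 K → ℝ), (∀ z ∈ c.support, Rel a z) ∧ (∀ z, 0 ≤ c z) ∧
      ∀ (_ : DecidableEq (𝓞 K)) i s, v (i, s) = c.sum (fun z q => if z i = s then q else 0) + r s := by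
  classical
  induction hv using Submodule.span_induction with
  | mem v hv =>
    rcases hv with ⟨x, hx, rfl⟩ | ⟨t, rfl⟩ | ⟨t, rfl⟩
    · refine ⟨Finsupp.single x 1, 0, fun z hz => ?_, fun z => ?_, fun _ i s => ?_⟩
      · rw [Finsupp.mem_support_single] at hz
        rw [hz.1]; exact hx
      · rw [Finsupp.single_apply]; split_ifs <;> norm_num
      · rw [Finsupp.sum_single_index (by simp)]
        simp only [ev, Finsupp.coe_finsetSum, Finset.sum_apply, Finsupp.single_apply,
          Prod.mk.injEq, Pi.zero_apply, add_zero]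
        rw [Finset.sum_eq_single i]
        · simp
        · intro j _ hj; rw [if_neg]; tauto
        · intro h; exact absurd (Finset.mem_univ i) h
    · refine ⟨0, fun s => if t = s then 1 else 0, by simp, by simp, fun _ i s => ?_⟩
      simp only [dv, Finsupp.coe_finsetSum, Finset.sum_apply, Finsupp.single_apply,
        Prod.mk.injEq, Finsupp.sum_zero_index, zero_add]
      rw [Finset.sum_eq_single i]
      · simp
      · intro j _ hj; rw [if_neg]; tauto
      · intro h; exact absurd (Finset.mem_univ i) h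
    · refine ⟨0, fun s => if t = s then -1 else 0, by simp, by simp, fun _ i s => ?_⟩
      simp only [dv, Finsupp.coe_neg, Pi.neg_apply, Finsupp.coe_finsetSum, Finset.sum_apply,
        Finsupp.single_apply, Prod.mk.injEq, Finsupp.sum_zero_index, zero_add]
      rw [Finset.sum_eq_single i]
      · simp only [true_and]; split_ifs <;> simp
      · intro j _ hj; rw [if_neg]; tauto
      · intro h; exact absurd (Finset.mem_univ i) h
  | zero => exact ⟨0, 0, by simp, by simp, by simp⟩
  | add u v _ _ hu hv =>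
    obtain ⟨c, r, h1, h2, h3⟩ := hu
    obtain ⟨c', r', h1', h2', h3'⟩ := hv
    refine ⟨c + c', r + r', fun z hz => ?_, fun z => add_nonneg (h2 z) (h2' z), fun hd i s => ?_⟩
    · rcases Finset.mem_union.1 (Finsupp.support_add hz) with h | h
      · exact h1 z h
      · exact h1' z h
    · rw [Finsupp.add_apply, h3 hd, h3' hd, Finsupp.sum_add_index', Pi.add_apply]
      · ring
      · intro z; simp
      · intro z p q; split_ifs <;> simp
  | smul q v _ hv =>
    obtain ⟨c, r, h1, h2, h3⟩ := hv
    refine ⟨(q : ℝ) • c, fun s => q * r s, fun z hz => h1 z (Finsupp.support_smul hz),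
      fun z => mul_nonneg q.2 (h2 z), fun hd i s => ?_⟩
    have h4 : (q • v : (Fin n × 𝓞 K) →₀ ℝ) (i, s) = (q : ℝ) * v (i, s) := rfl
    rw [h4, h3 hd, Finsupp.sum_smul_index (by intro z; simp), Finsupp.sum, Finsupp.sum, mul_add,
      Finset.mul_sum]
    congr 1
    exact Finset.sum_congr rfl fun z _ => by split_ifs <;> simp

theorem strict_perm (ha : Arch a) (hna : Nonarch a) : PermSol (fun i => (a i : K)) := by
  classical
  obtain ⟨y, hy, hy0⟩ := exists_rel_coord hna 0 (1 : 𝓞 K)
  have h1 : -ev y ∈ PointedCone.hull ℝ (gens a) :=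
    cone_sub ha hna _ (PointedCone.subset_hull (Or.inl ⟨y, hy, rfl⟩))
  obtain ⟨c, r, hc1, hc2, hc3⟩ := mem_form _ h1
  set c' : (Fin n → 𝓞 K) →₀ ℝ := c + Finsupp.single y 1 with hc'
  have hc'nn : ∀ z, 0 ≤ c' z := by
    intro z
    rw [hc', Finsupp.add_apply]
    refine add_nonneg (hc2 z) ?_
    rw [Finsupp.single_apply]; split_ifs <;> norm_num
  have hc'y : 0 < c' y := by
    rw [hc', Finsupp.add_apply, Finsupp.single_eq_same]
    have := hc2 y
    linarith
  have hc'rel : ∀ z ∈ c'.support, Rel a z := by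
    intro z hz
    rcases Finset.mem_union.1 (Finsupp.support_add hz) with h | h
    · exact hc1 z h
    · rw [Finsupp.mem_support_single] at h
      rw [h.1]; exact hy
  have hmarg : ∀ i s, c'.sum (fun z q => if z i = s then q else 0) = -r s := by
    intro i s
    have h2 := hc3 inferInstance i s
    rw [hc', Finsupp.sum_add_index' (by intro z; simp) (by intro z p q; split_ifs <;> simp),
      Finsupp.sum_single_index (by simp)]
    have h3 : (-ev y) (i, s) = -(if y i = s then 1 else 0) := by
      simp only [ev, Finsupp.coe_neg, Pi.neg_apply, Finsupp.coe_finsetSum, Finset.sum_apply,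
        Finsupp.single_apply, Prod.mk.injEq]
      rw [Finset.sum_eq_single i]
      · simp
      · intro j _ hj; rw [if_neg]; tauto
      · intro h; exact absurd (Finset.mem_univ i) h
    rw [h3] at h2
    linarith
  -- integer weights
  set S := c'.support with hS
  obtain ⟨m, hm1, hm2⟩ := ratl (fun z : {z // z ∈ S} => c' z.1) (fun z =>
    lt_of_le_of_ne (hc'nn _) (Ne.symm (Finsupp.mem_support_iff.1 z.2)))
  have hyS : y ∈ S := Finsupp.mem_support_iff.2 hc'y.ne'
  have hmarg' : ∀ i s, ∑ z : {z // z ∈ S}, (if z.1 i = s then m z else 0) =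
      ∑ z : {z // z ∈ S}, (if z.1 0 = s then m z else 0) := by
    intro i s
    have h2 := hm2 (fun z => (if z.1 i = s then 1 else 0) - (if z.1 0 = s then 1 else 0)) (by
      have h3 : ∀ j, ∑ z : {z // z ∈ S}, (if z.1 j = s then c' z.1 else 0) = -r s := by
        intro j
        rw [← hmarg j s, Finsupp.sum]
        exact Finset.sum_coe_sort S (fun z => if z j = s then c' z else 0)
      have h4 : ∑ z : {z // z ∈ S}, ((((if z.1 i = s then 1 else 0) -
          (if z.1 0 = s then 1 else 0) : ℤ)) : ℝ) * c' z.1 =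
          ∑ z : {z // z ∈ S}, (if z.1 i = s then c' z.1 else 0) -
          ∑ z : {z // z ∈ S}, (if z.1 0 = s then c' z.1 else 0) := by
        rw [← Finset.sum_sub_distrib]
        refine Finset.sum_congr rfl fun z _ => ?_
        split_ifs <;> simp
      rw [h4, h3, h3, sub_self])
    have h5 : ((∑ z : {z // z ∈ S}, (if z.1 i = s then m z else 0) : ℕ) : ℤ) =
        ((∑ z : {z // z ∈ S}, (if z.1 0 = s then m z else 0) : ℕ) : ℤ) := by
      rw [← sub_eq_zero, ← h2]
      push_cast
      rw [← Finset.sum_sub_distrib]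
      refine Finset.sum_congr rfl fun z _ => ?_
      split_ifs <;> simp
    exact_mod_cast h5
  -- the index type
  set T : Type := Σ z : {z // z ∈ S}, Fin (m z) with hT
  have hcount : ∀ i s, (Finset.univ.filter fun t : T => t.1.1 i = s).card =
      ∑ z : {z // z ∈ S}, (if z.1 i = s then m z else 0) := by
    intro i s
    rw [Finset.card_filter, Fintype.sum_sigma]
    refine Finset.sum_congr rfl fun z _ => ?_
    by_cases hz : z.1 i = s
    · simp [hz]
    · simp [hz]
  choose π hπ using fun i => exists_perm (fun t : T => t.1.1 i) (fun t : T => t.1.1 0)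
    (fun s => by rw [hcount, hcount, hmarg'])
  refine ⟨T, inferInstance, π, fun t => (t.1.1 0 : K), ?_, fun t => ?_⟩
  · intro h
    have h2 := congrFun h ⟨⟨y, hyS⟩, ⟨0, hm1 _⟩⟩
    simp only [hy0] at h2
    simp at h2
  · have h2 := relK_of_rel (hc'rel t.1.1 t.1.2)
    unfold RelK at h2
    rw [← h2]
    refine Finset.sum_congr rfl fun i _ => ?_
    have h3 : (π i t).1.1 0 = t.1.1 i := (hπ i t).symm
    simp only [h3]

end Pool.Agent.TH832.Smyth
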