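import Mathlib
import Pool.Agent.TH832.Smyth.Strict

set_option autoImplicit false

/-! A relation between roots of unity gives a permutation solution. -/

namespace Pool.Agent.TH832.Smyth

open NumberField Module

variable {K : Type} [Field K] {n : ℕ}

/-- a solution over a larger field gives one over the ground field -/
theorem descend {Ω : Type} [Field Ω] [Algebra K Ω] (a : Fin n → K) {T : Type} [Fintype T]
    (π : Fin n → Equiv.Perm T) (y : T → Ω) (hy : y ≠ 0)
    (h : ∀ t, ∑ i, algebraMap K Ω (a i) * y (π i t) = 0) : PermSol a := by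
  classical
  set A : Matrix T T K := Matrix.of fun t s => ∑ i, if π i t = s then a i else 0 with hA
  have h1 : (A.map (algebraMap K Ω)).mulVec y = 0 := by
    funext t
    simp only [Matrix.mulVec, dotProduct, hA, Matrix.map_apply, Matrix.of_apply, map_sum,
      Pi.zero_apply, Finset.sum_mul]
    rw [Finset.sum_comm, ← h t]
    refine Finset.sum_congr rfl fun i _ => ?_
    rw [Finset.sum_eq_single (π i t)]
    · simp
    · intro s _ hs
      rw [if_neg hs.symm, map_zero, zero_mul]
    · intro h; exact absurd (Finset.mem_univ _) h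
  have h2 : (A.map (algebraMap K Ω)).det = 0 :=
    Matrix.exists_mulVec_eq_zero_iff.1 ⟨y, hy, h1⟩
  have h3 : A.det = 0 := by
    have h4 : algebraMap K Ω A.det = 0 := by
      rw [RingHom.map_det]; exact h2
    exact (map_eq_zero _).1 h4
  obtain ⟨z, hz, hz2⟩ := Matrix.exists_mulVec_eq_zero_iff.2 h3
  refine ⟨T, inferInstance, π, z, hz, fun t => ?_⟩
  have h5 := congrFun hz2 t
  simp only [Matrix.mulVec, dotProduct, hA, Matrix.of_apply, Pi.zero_apply, Finset.sum_mul] at h5
  rw [Finset.sum_comm] at h5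
  rw [← h5]
  refine Finset.sum_congr rfl fun i _ => ?_
  rw [Finset.sum_eq_single (π i t)]
  · simp
  · intro s _ hs
    rw [if_neg hs.symm, zero_mul]
  · intro h; exact absurd (Finset.mem_univ _) h

theorem unity_perm {Ω : Type} [Field Ω] [Algebra K Ω] (a : Fin n → K) (ω : Fin n → Ω)
    (hω : ∀ i, ∃ m : ℕ, 0 < m ∧ ω i ^ m = 1)
    (h : ∑ i, algebraMap K Ω (a i) * ω i = 0) : PermSol a := by
  classical
  choose m hm0 hm using hω
  set M := ∏ i, m i with hM
  have hM0 : M ≠ 0 := Finset.prod_ne_zero_iff.2 fun i _ => (hm0 i).ne'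
  have hMz : NeZero M := ⟨hM0⟩
  have hωM : ∀ i, ω i ^ M = 1 := by
    intro i
    obtain ⟨k, hk⟩ : m i ∣ M := Finset.dvd_prod_of_mem _ (Finset.mem_univ i)
    rw [hk, pow_mul, hm, one_pow]
  set T := rootsOfUnity M Ω with hT
  have hfin : Fintype T := Fintype.ofFinite (rootsOfUnity M Ω)
  set w : Fin n → T := fun i => rootsOfUnity.mkOfPowEq (ω i) (hωM i) with hw
  have hwv : ∀ i, ((w i : Ωˣ) : Ω) = ω i := fun i => rootsOfUnity.val_mkOfPowEq_coe _ _
  refine descend a (T := T) (fun i => Equiv.mulRight (w i)) (fun t => ((t : Ωˣ) : Ω)) ?_ ?_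
  · intro h0
    have := congrFun h0 1
    simp at this
  · intro t
    have h1 : ∀ i, ((Equiv.mulRight (w i) t : T) : Ωˣ) = (t : Ωˣ) * (w i : Ωˣ) := fun i => rfl
    have h2 : ∑ i, algebraMap K Ω (a i) * (((Equiv.mulRight (w i) t : T) : Ωˣ) : Ω) =
        ((t : Ωˣ) : Ω) * ∑ i, algebraMap K Ω (a i) * ω i := by
      rw [Finset.mul_sum]
      refine Finset.sum_congr rfl fun i _ => ?_
      rw [h1, Units.val_mul, hwv]
      ring
    rw [h2, h, mul_zero]

end Pool.Agent.TH832.Smyth
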