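import Mathlib
import Pool.Agent.Helper259.Selmer.Gal
import Pool.Agent.TH832.Smyth.Unity

set_option autoImplicit false

/-! Permutations realised by Galois conjugation. -/

namespace Pool.Agent.TH832.Smyth

open NumberField Module Polynomial
open Pool.Agent.Helper259.Selmer

section rat

variable (Ω : Type) [Field Ω] [CharZero Ω] [IsAlgClosed Ω] [Normal ℚ Ω]

/-- the roots of the Selmer polynomial, with the full symmetric group acting -/
theorem roots_rat {p : ℕ} (hp : p.Prime) :
    ∃ (ι : Type) (_ : Fintype ι) (r : ι → Ω), Fintype.card ι = p ∧ Function.Injective r ∧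
      ∀ τ : Equiv.Perm ι, ∃ g : Ω ≃ₐ[ℚ] Ω, ∀ i, g (r i) = r (τ i) := by
  classical
  set P : ℚ[X] := X ^ p - X - 1 with hP
  set L := IntermediateField.adjoin ℚ (P.rootSet Ω) with hL
  have h1 : IsSplittingField ℚ L P :=
    IntermediateField.adjoin_rootSet_isSplittingField (IsAlgClosed.splits _)
  have h2 : FiniteDimensional ℚ L := IsSplittingField.finiteDimensional L P
  have h3 : NumberField L := ⟨⟩
  have hsep : P.Separable := (X_pow_sub_X_sub_one_irreducible_rat hp.ne_one).separable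
  have h4 : IsGalois ℚ L := IsGalois.of_separable_splitting_field hsep
  have hb := bijective (L := L) hp h1
  have hF : (F p).map (algebraMap ℤ L) = P.map (algebraMap ℚ L) := by
    rw [F_map, hP]; simp
  have hsF : ((F p).map (algebraMap ℤ L)).Splits := by rw [hF]; exact h1.splits
  have hcard := card_rootSet_int hp.two_le hsF
  refine ⟨(F p).rootSet (𝓞 L), inferInstance, fun i => (((i : 𝓞 L) : L) : Ω), hcard, ?_, ?_⟩
  · intro i j hij
    have h5 : ((i : 𝓞 L) : L) = ((j : 𝓞 L) : L) := Subtype.ext hij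
    exact Subtype.ext (RingOfIntegers.ext h5)
  · intro τ
    obtain ⟨g, hg⟩ := hb.2 τ
    refine ⟨g.liftNormal Ω, fun i => ?_⟩
    have h5 := g.liftNormal_commutes Ω ((i : 𝓞 L) : L)
    have h6 : τ i = g • i := by rw [← hg]; rfl
    rw [h6]
    exact h5

end rat

section general

variable {K : Type} [Field K] [NumberField K]
variable {Ω : Type} [Field Ω] [CharZero Ω] [IsAlgClosed Ω] [Algebra K Ω] [Normal ℚ Ω]

/-- over a number field the even permutations are still realised -/
theorem roots_alt {p : ℕ} (hp : p.Prime) (hp5 : 5 ≤ p) (hpd : Nat.card (K →+* Ω) < p) :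
    ∃ (ι : Type) (_ : Fintype ι) (_ : DecidableEq ι) (r : ι → Ω), Fintype.card ι = p ∧
      Function.Injective r ∧
      ∀ τ ∈ alternatingGroup ι, ∃ g : Ω ≃ₐ[K] Ω, ∀ i, g (r i) = r (τ i) := by
  classical
  obtain ⟨ι, hι, r, hcard, hr, hτ⟩ := roots_rat Ω hp
  refine ⟨ι, hι, inferInstance, r, hcard, hr, ?_⟩
  -- the subgroup realised over the number field
  set H : Subgroup (Equiv.Perm ι) :=
    { carrier := {τ | ∃ g : Ω ≃ₐ[K] Ω, ∀ i, g (r i) = r (τ i)}
      mul_mem' := by
        rintro τ τ' ⟨g, hg⟩ ⟨g', hg'⟩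
        refine ⟨g * g', fun i => ?_⟩
        rw [AlgEquiv.mul_apply, hg', hg]; rfl
      one_mem' := ⟨1, fun i => rfl⟩
      inv_mem' := by
        rintro τ ⟨g, hg⟩
        refine ⟨g⁻¹, fun i => ?_⟩
        have h1 := hg (τ⁻¹ i)
        have h2 : τ (τ⁻¹ i) = i := τ.apply_symm_apply i
        rw [h2] at h1
        rw [← h1]
        exact g.symm_apply_apply _ } with hH
  choose g hg using hτ
  set rep : (Equiv.Perm ι ⧸ H) → (K →+* Ω) := fun c =>
    (g c.out : Ω →+* Ω).comp (algebraMap K Ω) with hrep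
  have hinj : Function.Injective rep := by
    intro c d hcd
    have h1 : ∀ x : K, g c.out (algebraMap K Ω x) = g d.out (algebraMap K Ω x) := fun x =>
      congrArg (fun f : K →+* Ω => f x) hcd
    have h2 : (d.out)⁻¹ * c.out ∈ H := by
      refine ⟨AlgEquiv.ofRingEquiv (f := ((g d.out)⁻¹ * g c.out : Ω ≃ₐ[ℚ] Ω).toRingEquiv) ?_, ?_⟩
      · intro x
        change ((g d.out)⁻¹ * g c.out) (algebraMap K Ω x) = algebraMap K Ω x
        rw [AlgEquiv.mul_apply, h1]
        exact (g d.out).symm_apply_apply _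
      · intro i
        change ((g d.out)⁻¹ * g c.out) (r i) = _
        rw [AlgEquiv.mul_apply, hg]
        have h3 := hg d.out ((d.out⁻¹ * c.out) i)
        rw [← Equiv.Perm.mul_apply, mul_inv_cancel_left] at h3
        rw [← h3]
        exact (g d.out).symm_apply_apply _
    rw [← Quotient.out_eq' c, ← Quotient.out_eq' d]
    exact (QuotientGroup.eq.2 h2).symm
  have hfin : Finite (K →+* Ω) := inferInstance
  have hle : Nat.card (Equiv.Perm ι ⧸ H) < p :=
    (Nat.card_le_card_of_injective rep hinj).trans_lt hpd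
  -- the action on cosets is not faithful
  set φ := MulAction.toPermHom (Equiv.Perm ι) (Equiv.Perm ι ⧸ H) with hφ
  have hker : φ.ker ≤ H := by
    intro τ hτ
    have h1 : τ • ((1 : Equiv.Perm ι) : Equiv.Perm ι ⧸ H) = ((1 : Equiv.Perm ι) : Equiv.Perm ι ⧸ H) := by
      have h2 := congrArg (fun s : Equiv.Perm (Equiv.Perm ι ⧸ H) => s ((1 : Equiv.Perm ι) : Equiv.Perm ι ⧸ H)) (MonoidHom.mem_ker.1 hτ)
      exact h2
    have h3 : ((τ * 1 : Equiv.Perm ι) : Equiv.Perm ι ⧸ H) = ((1 : Equiv.Perm ι) : Equiv.Perm ι ⧸ H) := h1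
    rw [mul_one] at h3
    have h4 := QuotientGroup.eq.1 h3
    rw [mul_one] at h4
    exact (inv_mem_iff).1 h4
  have hnt : Nontrivial φ.ker := by
    rw [Subgroup.nontrivial_iff_ne_bot]
    intro hbot
    have hinjφ : Function.Injective φ := (MonoidHom.ker_eq_bot_iff φ).1 hbot
    have h1 := Nat.card_le_card_of_injective φ hinjφ
    have h2 : Nat.card (Equiv.Perm ι) = p.factorial := by
      rw [Nat.card_eq_fintype_card, Fintype.card_perm, hcard]
    have h3 : Nat.card (Equiv.Perm (Equiv.Perm ι ⧸ H)) = (Nat.card (Equiv.Perm ι ⧸ H)).factorial := by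
      rw [Nat.card_perm]
    rw [h2, h3] at h1
    have h4 : 0 < Nat.card (Equiv.Perm ι ⧸ H) := Nat.card_pos
    have h5 := Nat.factorial_lt h4 |>.2 hle
    omega
  intro τ hτ
  have h5 : 5 ≤ Nat.card ι := by rw [Nat.card_eq_fintype_card, hcard]; exact hp5
  exact hker (Equiv.Perm.alternatingGroup_le_of_normal h5 hnt hτ)

/-- any finite family of permutations of a finite set is realised by conjugation over the
number field -/
theorem realise (T : Type) [Fintype T] :
    ∃ r : T → Ω, Function.Injective r ∧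
      ∀ τ : Equiv.Perm T, ∃ g : Ω ≃ₐ[K] Ω, ∀ t, g (r t) = r (τ t) := by
  classical
  obtain ⟨p, hp1, hp⟩ := Nat.exists_infinite_primes
    (5 + (Nat.card (K →+* Ω) + 1) + Fintype.card (T ⊕ T))
  obtain ⟨ι, hι, hdec, r, hcard, hr, hτ⟩ := roots_alt (K := K) (Ω := Ω) hp (by omega) (by omega)
  obtain ⟨f⟩ : Nonempty ((T ⊕ T) ↪ ι) :=
    Function.Embedding.nonempty_of_card_le (by omega)
  refine ⟨fun t => r (f (Sum.inl t)), fun s t h => Sum.inl_injective (f.injective (hr h)),
    fun τ => ?_⟩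
  obtain ⟨g, hg⟩ := hτ ((Equiv.Perm.sumCongr τ τ).viaFintypeEmbedding f) (by
    rw [Equiv.Perm.mem_alternatingGroup, Equiv.Perm.viaFintypeEmbedding_sign,
      Equiv.Perm.sign_sumCongr]
    exact Int.units_mul_self _)
  refine ⟨g, fun t => ?_⟩
  rw [hg, Equiv.Perm.viaFintypeEmbedding_apply_image]
  rfl

theorem perm_conj {n : ℕ} (a : Fin n → K) (h : PermSol a) :
    ∃ α : Fin n → Ω, (∀ i, α i ≠ 0) ∧ (∀ i j, minpoly K (α i) = minpoly K (α j)) ∧
      ∑ i, algebraMap K Ω (a i) * α i = 0 := by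
  classical
  obtain ⟨T, hT, π, y, hy, hsol⟩ := h
  obtain ⟨r, hr, hreal⟩ := realise (K := K) (Ω := Ω) T
  -- a power sum which does not vanish
  obtain ⟨m, hm⟩ : ∃ m : ℕ, ∑ t, algebraMap K Ω (y t) * r t ^ m ≠ 0 := by
    by_contra hcon
    push Not at hcon
    apply hy
    set e := Fintype.equivFin T with he
    have h1 : (fun k => algebraMap K Ω (y (e.symm k))) = 0 := by
      refine Matrix.eq_zero_of_forall_pow_sum_mul_pow_eq_zero (f := fun k => r (e.symm k))
        (hr.comp e.symm.injective) fun i => ?_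
      rw [← hcon i]
      exact Fintype.sum_equiv e.symm _ _ fun k => rfl
    funext t
    have h2 := congrFun h1 (e t)
    simpa using h2
  choose g hg using fun i => hreal (π i)⁻¹
  set β : Ω := ∑ t, algebraMap K Ω (y t) * r t ^ m with hβ
  refine ⟨fun i => g i β, fun i => ?_, fun i j => ?_, ?_⟩
  · exact (_root_.map_ne_zero _).2 hm
  · rw [minpoly.algEquiv_eq, minpoly.algEquiv_eq]
  · have h1 : ∀ i, g i β = ∑ s, algebraMap K Ω (y (π i s)) * r s ^ m := by
      intro i
      rw [hβ, map_sum]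
      refine (Fintype.sum_equiv (π i) _ _ fun s => ?_).symm
      have h2 : (π i)⁻¹ (π i s) = s := (π i).symm_apply_apply s
      rw [map_mul, map_pow, AlgEquiv.commutes, hg, h2]
    simp only [h1, Finset.mul_sum]
    rw [Finset.sum_comm]
    refine Finset.sum_eq_zero fun s _ => ?_
    have h2 : ∑ i, algebraMap K Ω (a i) * (algebraMap K Ω (y (π i s)) * r s ^ m) =
        algebraMap K Ω (∑ i, a i * y (π i s)) * r s ^ m := by
      rw [map_sum, Finset.sum_mul]
      refine Finset.sum_congr rfl fun i _ => ?_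
      rw [map_mul]; ring
    rw [h2, hsol, map_zero, zero_mul]

end general

end Pool.Agent.TH832.Smyth
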