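import Mathlib
import Pool.Agent.TH832.Smyth.Contract

set_option autoImplicit false

/-! The necessity of the criteria. -/

namespace Pool.Agent.TH832.Smyth

open NumberField Module Polynomial
open scoped ComplexConjugate

/-- the equality case of the triangle inequality -/
lemma tri_eq {ι : Type*} (s : Finset ι) (z : ι → ℂ) (w : ℂ) (h1 : ∑ j ∈ s, z j = w)
    (h2 : ∑ j ∈ s, ‖z j‖ ≤ ‖w‖) : ∀ j ∈ s, z j * (‖w‖ : ℂ) = w * (‖z j‖ : ℂ) := by
  classical
  by_cases hw : w = 0
  · intro j hj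
    rw [hw, norm_zero] at h2
    have h3 : ∀ j ∈ s, ‖z j‖ = 0 :=
      (Finset.sum_eq_zero_iff_of_nonneg fun j _ => norm_nonneg _).1
        (le_antisymm h2 (Finset.sum_nonneg fun j _ => norm_nonneg _))
    have h4 : z j = 0 := norm_eq_zero.1 (h3 j hj)
    rw [h4, hw, zero_mul]
  have hwpos : 0 < ‖w‖ := norm_pos_iff.2 hw
  have h3 : ∀ j ∈ s, (z j * conj w).re ≤ ‖z j‖ * ‖w‖ := by
    intro j _
    refine (Complex.re_le_norm _).trans ?_
    rw [norm_mul, Complex.norm_conj]
  have h4 : ∑ j ∈ s, (z j * conj w).re = ‖w‖ * ‖w‖ := by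
    rw [← Complex.re_sum, ← Finset.sum_mul, h1, Complex.mul_conj, Complex.ofReal_re,
      Complex.normSq_eq_norm_sq, sq]
  have h5 : ∑ j ∈ s, ‖z j‖ * ‖w‖ = ‖w‖ * ‖w‖ := by
    refine le_antisymm ?_ ?_
    · rw [← Finset.sum_mul]
      exact mul_le_mul_of_nonneg_right h2 hwpos.le
    · rw [← h4]; exact Finset.sum_le_sum h3
  have h6 := (Finset.sum_eq_sum_iff_of_le h3).1 (h4.trans h5.symm)
  intro j hj
  have h7 := h6 j hj
  have h8 : z j * conj w = ((‖z j‖ * ‖w‖ : ℝ) : ℂ) := by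
    have h9 : (z j * conj w).re = ‖z j * conj w‖ := by
      rw [h7, norm_mul, Complex.norm_conj]
    have h10 := Complex.re_eq_norm.1 h9
    have h11 : (z j * conj w).im = 0 := (Complex.nonneg_iff.1 h10).2.symm
    apply Complex.ext
    · rw [h7, Complex.ofReal_re]
    · rw [h11, Complex.ofReal_im]
  have h9 : z j * (conj w * w) = ((‖z j‖ * ‖w‖ : ℝ) : ℂ) * w := by rw [← h8]; ring
  rw [mul_comm (conj w) w, Complex.mul_conj, Complex.normSq_eq_norm_sq] at h9
  have h10 : ((‖w‖ : ℝ) : ℂ) ≠ 0 := by exact_mod_cast hwpos.ne'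
  have h11 : (z j * (‖w‖ : ℂ)) * (‖w‖ : ℂ) = (w * (‖z j‖ : ℂ)) * (‖w‖ : ℂ) := by
    push_cast at h9
    linear_combination h9
  exact mul_right_cancel₀ h10 h11

variable {K : Type} [Field K] {n : ℕ}
variable {Ω : Type} [Field Ω] [Algebra K Ω] [Normal K Ω]

/-- the set of conjugates -/
def conjs (K : Type) [Field K] {Ω : Type} [Field Ω] [Algebra K Ω] (β : Ω) : Set Ω :=
  {γ | ∃ g : Ω ≃ₐ[K] Ω, g β = γ}

lemma conjs_finite (β : Ω) : (conjs K β).Finite := by
  classical
  refine Set.Finite.subset ((minpoly K β).rootSet_finite Ω) ?_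
  rintro γ ⟨g, rfl⟩
  have hint : IsIntegral K β := (Algebra.IsAlgebraic.isAlgebraic (R := K) β).isIntegral
  rw [mem_rootSet]
  refine ⟨minpoly.ne_zero hint, ?_⟩
  have h1 : aeval (g β) (minpoly K β) = g (aeval β (minpoly K β)) := by
    exact (Polynomial.aeval_algHom_apply (g : Ω →ₐ[K] Ω) β (minpoly K β))
  rw [h1, minpoly.aeval, map_zero]

lemma conjs_of_minpoly {β γ : Ω} (h : minpoly K β = minpoly K γ) : ∃ g : Ω ≃ₐ[K] Ω, g β = γ := by
  have hint : IsAlgebraic K β := Algebra.IsAlgebraic.isAlgebraic (R := K) β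
  exact minpoly.exists_algEquiv_of_root' hint (by rw [h]; exact minpoly.aeval _ _)

/-- an equality in the archimedean criterion forces a relation between roots of unity -/
theorem arch_or_unity (a : Fin n → K) (α : Fin n → Ω) (hα0 : ∀ i, α i ≠ 0)
    (hα : ∀ i j, minpoly K (α i) = minpoly K (α j))
    (hsum : ∑ i, algebraMap K Ω (a i) * α i = 0) (τ : Ω →+* ℂ) (i : Fin n)
    (hle : ∑ j ∈ Finset.univ.erase i, ‖τ (algebraMap K Ω (a j))‖ ≤ ‖τ (algebraMap K Ω (a i))‖) :
    ∃ ω : Fin n → Ω, (∀ i, ∃ m : ℕ, 0 < m ∧ ω i ^ m = 1) ∧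
      ∑ i, algebraMap K Ω (a i) * ω i = 0 := by
  classical
  set b : Fin n → ℂ := fun j => τ (algebraMap K Ω (a j)) with hb
  by_cases hai : a i = 0
  · -- then everything vanishes
    have h1 : ∀ j, a j = 0 := by
      intro j
      by_cases hj : j = i
      · rw [hj, hai]
      · rw [hai, map_zero, map_zero, norm_zero] at hle
        have h2 := (Finset.sum_eq_zero_iff_of_nonneg (fun j _ => norm_nonneg (b j))).1
          (le_antisymm hle (Finset.sum_nonneg fun j _ => norm_nonneg _)) j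
          (Finset.mem_erase.2 ⟨hj, Finset.mem_univ _⟩)
        have h3 := norm_eq_zero.1 h2
        exact (map_eq_zero (algebraMap K Ω)).1 ((map_eq_zero τ).1 h3)
    exact ⟨fun _ => 1, fun _ => ⟨1, one_pos, one_pow _⟩, by simp [h1]⟩
  have hbi : b i ≠ 0 := fun h => hai ((map_eq_zero (algebraMap K Ω)).1 ((map_eq_zero τ).1 h))
  -- the largest conjugate
  obtain ⟨β₀, ⟨g₀, hg₀⟩, hβ₀⟩ := Set.exists_max_image (conjs K (α i)) (fun β => ‖τ β‖)
    (conjs_finite _) ⟨α i, AlgEquiv.refl, rfl⟩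
  set R : ℝ := ‖τ β₀‖ with hR
  have hβ₀0 : β₀ ≠ 0 := by rw [← hg₀]; exact (_root_.map_ne_zero _).2 (hα0 i)
  have hRpos : 0 < R := norm_pos_iff.2 ((_root_.map_ne_zero _).2 hβ₀0)
  have hmemC : ∀ (g : Ω ≃ₐ[K] Ω) j, g (α j) ∈ conjs K (α i) := by
    intro g j
    obtain ⟨h, hh⟩ := conjs_of_minpoly (hα i j)
    exact ⟨g * h, by rw [AlgEquiv.mul_apply, hh]⟩
  -- the key relation
  have hkey : ∀ g : Ω ≃ₐ[K] Ω, ‖τ (g (α i))‖ = R → ∀ j, j ≠ i → a j ≠ 0 →
      ‖τ (g (α j))‖ = R ∧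
      (b j * (‖b i‖ : ℂ)) * τ (g (α j)) = (-b i * (‖b j‖ : ℂ)) * τ (g (α i)) := by
    intro g hg j hj haj
    have h1 : ∑ k, b k * τ (g (α k)) = 0 := by
      have h2 := congrArg (fun x => τ (g x)) hsum
      simp only [map_sum, map_mul, map_zero, AlgEquiv.commutes] at h2
      exact h2
    rw [← Finset.add_sum_erase _ _ (Finset.mem_univ i)] at h1
    have h2 : ∑ k ∈ Finset.univ.erase i, b k * τ (g (α k)) = -(b i * τ (g (α i))) :=
      eq_neg_of_add_eq_zero_right h1
    have h3 : ∀ k ∈ Finset.univ.erase i, ‖b k * τ (g (α k))‖ ≤ ‖b k‖ * R := by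
      intro k _
      rw [norm_mul]
      exact mul_le_mul_of_nonneg_left (hβ₀ _ (hmemC g k)) (norm_nonneg _)
    have h4 : ∑ k ∈ Finset.univ.erase i, ‖b k‖ * R ≤ ‖b i‖ * R := by
      rw [← Finset.sum_mul]
      exact mul_le_mul_of_nonneg_right hle hRpos.le
    have h5 : ‖-(b i * τ (g (α i)))‖ = ‖b i‖ * R := by rw [norm_neg, norm_mul, hg]
    have h6 : ∑ k ∈ Finset.univ.erase i, ‖b k * τ (g (α k))‖ ≤ ‖-(b i * τ (g (α i)))‖ := by
      rw [h5]; exact (Finset.sum_le_sum h3).trans h4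
    have h7 : ‖b i‖ * R ≤ ∑ k ∈ Finset.univ.erase i, ‖b k * τ (g (α k))‖ := by
      rw [← h5, ← h2]; exact norm_sum_le _ _
    have h8 : ∑ k ∈ Finset.univ.erase i, ‖b k * τ (g (α k))‖ =
        ∑ k ∈ Finset.univ.erase i, ‖b k‖ * R :=
      le_antisymm (Finset.sum_le_sum h3) (h4.trans h7)
    have hjm : j ∈ Finset.univ.erase i := Finset.mem_erase.2 ⟨hj, Finset.mem_univ _⟩
    have h9 := (Finset.sum_eq_sum_iff_of_le h3).1 h8 j hjm
    have hbj : b j ≠ 0 := fun h => haj ((map_eq_zero (algebraMap K Ω)).1 ((map_eq_zero τ).1 h))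
    have h10 : ‖τ (g (α j))‖ = R := by
      rw [norm_mul] at h9
      exact mul_left_cancel₀ (norm_ne_zero_iff.2 hbj) h9
    refine ⟨h10, ?_⟩
    have h11 := tri_eq _ _ _ h2 h6 j hjm
    rw [h5, h9] at h11
    have hRne : (R : ℂ) ≠ 0 := by exact_mod_cast hRpos.ne'
    apply mul_right_cancel₀ hRne
    push_cast at h11
    linear_combination h11
  -- the ratios are roots of unity
  have hroot : ∀ j, j ≠ i → a j ≠ 0 → ∃ m : ℕ, 0 < m ∧ (g₀ (α j) / β₀) ^ m = 1 := by
    intro j hj haj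
    have hbj : b j ≠ 0 := fun h => haj ((map_eq_zero (algebraMap K Ω)).1 ((map_eq_zero τ).1 h))
    have hstep : ∀ β ∈ {β | β ∈ conjs K (α i) ∧ ‖τ β‖ = R},
        g₀ (α j) / β₀ * β ∈ {β | β ∈ conjs K (α i) ∧ ‖τ β‖ = R} := by
      rintro β ⟨⟨g, rfl⟩, hg⟩
      have h1 := hkey g hg j hj haj
      have h2 := (hkey g₀ (by rw [hg₀]) j hj haj).2
      have h3 : τ (g (α j) * g₀ (α i)) = τ (g (α i) * g₀ (α j)) := by
        have hP : b j * (‖b i‖ : ℂ) ≠ 0 :=
          mul_ne_zero hbj (by exact_mod_cast norm_ne_zero_iff.2 hbi)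
        apply mul_left_cancel₀ hP
        rw [map_mul, map_mul]
        linear_combination τ (g₀ (α i)) * h1.2 - τ (g (α i)) * h2
      have h4 := τ.injective h3
      have h5 : g₀ (α j) / β₀ * g (α i) = g (α j) := by
        rw [hg₀] at h4
        field_simp
        rw [mul_comm β₀, h4, mul_comm]
      rw [h5]
      exact ⟨hmemC g j, h1.1⟩
    have hpow : ∀ k : ℕ, (g₀ (α j) / β₀) ^ k * β₀ ∈ {β | β ∈ conjs K (α i) ∧ ‖τ β‖ = R} := by
      intro k
      induction k with
      | zero => rw [pow_zero, one_mul]; exact ⟨⟨g₀, hg₀⟩, rfl⟩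
      | succ k ih =>
        rw [pow_succ', mul_assoc]
        exact hstep _ ih
    obtain ⟨k, l, hkl, hkl2⟩ := Set.Finite.exists_lt_map_eq_of_forall_mem
      (f := fun k : ℕ => (g₀ (α j) / β₀) ^ k * β₀) hpow
      ((conjs_finite (K := K) (α i)).subset fun β hβ => hβ.1)
    refine ⟨l - k, by omega, ?_⟩
    have h1 : (g₀ (α j) / β₀) ^ k = (g₀ (α j) / β₀) ^ l := mul_right_cancel₀ hβ₀0 hkl2
    have hne : g₀ (α j) / β₀ ≠ 0 := div_ne_zero ((_root_.map_ne_zero _).2 (hα0 j)) hβ₀0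
    have h2 : (g₀ (α j) / β₀) ^ l = (g₀ (α j) / β₀) ^ k * (g₀ (α j) / β₀) ^ (l - k) := by
      rw [← pow_add]; congr 1; omega
    rw [h2] at h1
    exact (mul_left_cancel₀ (pow_ne_zero k hne) (by rw [mul_one]; exact h1)).symm
  refine ⟨fun j => if a j = 0 then 1 else g₀ (α j) / β₀, fun j => ?_, ?_⟩
  · by_cases haj : a j = 0
    · exact ⟨1, one_pos, by simp [haj]⟩
    · simp only [haj, if_false]
      by_cases hj : j = i
      · refine ⟨1, one_pos, ?_⟩
        rw [hj, hg₀, div_self hβ₀0, one_pow]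
      · exact hroot j hj haj
  · have h1 : ∀ j, algebraMap K Ω (a j) * (if a j = 0 then 1 else g₀ (α j) / β₀) =
        g₀ (algebraMap K Ω (a j) * α j) / β₀ := by
      intro j
      by_cases haj : a j = 0
      · simp [haj]
      · rw [if_neg haj, map_mul, AlgEquiv.commutes]; ring
    simp only [h1]
    rw [← Finset.sum_div, ← map_sum, hsum, map_zero, zero_div]

lemma nak {A : Type} [CommRing A] [IsLocalRing A] {M : Type} [AddCommGroup M] [Module A M]
    (C : Set M) (hC : C.Finite)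
    (h : ∀ β ∈ C, β ∈ IsLocalRing.maximalIdeal A • Submodule.span A C) : ∀ β ∈ C, β = 0 := by
  have h1 : Submodule.span A C = ⊥ := by
    refine Submodule.eq_bot_of_le_smul_of_le_jacobson_bot (IsLocalRing.maximalIdeal A) _
      (Submodule.fg_span hC) (Submodule.span_le.2 h) ?_
    exact IsLocalRing.maximalIdeal_le_jacobson _
  intro β hβ
  have h2 := Submodule.subset_span (R := A) hβ
  rw [h1] at h2
  exact (Submodule.mem_bot A).1 h2

/-- the nonarchimedean criterion is necessary -/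
theorem nonarch_nec {Γ : Type} [LinearOrderedCommGroupWithZero Γ] (v : Valuation K Γ)
    (a : Fin n → K) (α : Fin n → Ω) (hα0 : ∀ i, α i ≠ 0)
    (hα : ∀ i j, minpoly K (α i) = minpoly K (α j))
    (hsum : ∑ i, algebraMap K Ω (a i) * α i = 0) (i : Fin n) (hai : a i ≠ 0) :
    ∃ j, j ≠ i ∧ v (a i) ≤ v (a j) := by
  classical
  by_contra hcon
  push Not at hcon
  have hvi : v (a i) ≠ 0 := (Valuation.ne_zero_iff v).2 hai
  set A := v.valuationSubring with hA
  let _ : Algebra A Ω := ((algebraMap K Ω).comp (algebraMap A K)).toAlgebra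
  have hsmul : ∀ (r : A) (x : Ω), r • x = algebraMap K Ω (r : K) * x := fun r x => rfl
  have hb : ∀ j, j ≠ i → v (a j / a i) < 1 := by
    intro j hj
    rw [map_div₀]
    exact (div_lt_one₀ (zero_lt_iff.2 hvi)).2 (hcon j hj)
  have hfin := conjs_finite (K := K) (α i)
  have h1 : ∀ β ∈ conjs K (α i), β ∈ IsLocalRing.maximalIdeal A •
      Submodule.span A (conjs K (α i)) := by
    rintro β ⟨g, rfl⟩
    have h2 : g (α i) = ∑ j ∈ Finset.univ.erase i, -(algebraMap K Ω (a j / a i) * g (α j)) := by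
      have h3 := congrArg g hsum
      simp only [map_sum, map_mul, map_zero, AlgEquiv.commutes] at h3
      rw [← Finset.add_sum_erase _ _ (Finset.mem_univ i)] at h3
      have hai' : algebraMap K Ω (a i) ≠ 0 := (_root_.map_ne_zero _).2 hai
      apply mul_left_cancel₀ hai'
      rw [Finset.mul_sum, eq_neg_of_add_eq_zero_left h3, ← Finset.sum_neg_distrib]
      refine Finset.sum_congr rfl fun j _ => ?_
      rw [map_div₀]
      field_simp
    rw [h2]
    refine Submodule.sum_mem _ fun j hj => Submodule.neg_mem _ ?_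
    have hji := Finset.ne_of_mem_erase hj
    set c : A := ⟨a j / a i, (Valuation.mem_valuationSubring_iff _ _).2 (hb j hji).le⟩ with hc
    have h4 : algebraMap K Ω (a j / a i) * g (α j) = c • g (α j) := rfl
    rw [h4]
    refine Submodule.smul_mem_smul ?_ (Submodule.subset_span ?_)
    · rw [IsLocalRing.mem_maximalIdeal, mem_nonunits_iff]
      intro hu
      obtain ⟨d, hd⟩ := hu.exists_right_inv
      have h5 : (c : K) * (d : K) = 1 := congrArg (fun x : A => (x : K)) hd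
      have h6 : v (c : K) * v (d : K) = 1 := by rw [← map_mul, h5, map_one]
      have h7 : v (d : K) ≤ 1 := (Valuation.mem_valuationSubring_iff _ _).1 d.2
      have h8 : v (c : K) < 1 := hb j hji
      have h9 : v (c : K) * v (d : K) < 1 := mul_lt_one_of_lt_of_le h8 h7
      exact h9.ne h6
    · obtain ⟨h, hh⟩ := conjs_of_minpoly (hα i j)
      exact ⟨g * h, by rw [AlgEquiv.mul_apply, hh]⟩
  have h2 := nak _ hfin h1 (α i) ⟨AlgEquiv.refl, rfl⟩
  exact hα0 i h2

section bridge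

variable [NumberField K]

/-- the valuation criterion gives the ideal criterion -/
theorem nonarch_of_val {a : Fin n → 𝓞 K}
    (h : ∀ v : IsDedekindDomain.HeightOneSpectrum (𝓞 K), ∀ i : Fin n,
      ∃ j : Fin n, j ≠ i ∧ v.valuation K (a i : K) ≤ v.valuation K (a j : K)) : Nonarch a := by
  classical
  intro i
  set I : Ideal (𝓞 K) := Ideal.span ((fun j => a j) '' {j | j ≠ i}) with hI
  have hmem : a i ∈ I := by
    by_contra hcon
    -- the ideal of multipliers
    set J : Ideal (𝓞 K) := I.colon {a i} with hJ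
    have hJmem : ∀ x, x ∈ J ↔ x * a i ∈ I := fun x => by
      rw [hJ, Submodule.mem_colon_singleton, smul_eq_mul]
    have hJtop : J ≠ ⊤ := by
      intro htop
      apply hcon
      have h1 : (1 : 𝓞 K) ∈ J := by rw [htop]; exact Submodule.mem_top
      rw [hJmem, one_mul] at h1
      exact h1
    obtain ⟨P, hP, hJP⟩ := Ideal.exists_le_maximal J hJtop
    have hPbot : P ≠ ⊥ := Ring.ne_bot_of_isMaximal_of_not_isField hP
      (RingOfIntegers.not_isField K)
    obtain ⟨j, hj, hv⟩ := h ⟨P, hP.isPrime, hPbot⟩ i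
    set v : IsDedekindDomain.HeightOneSpectrum (𝓞 K) := ⟨P, hP.isPrime, hPbot⟩ with hvdef
    have hai : a i ≠ 0 := fun h0 => hcon (by rw [h0]; exact I.zero_mem)
    have hai' : (a i : K) ≠ 0 := fun h0 => hai (RingOfIntegers.ext (by rw [h0]; rfl))
    have hvi : v.valuation K (a i : K) ≠ 0 := (Valuation.ne_zero_iff _).2 hai'
    have haj' : (a j : K) ≠ 0 := by
      intro h0
      rw [h0, map_zero] at hv
      exact hvi (le_zero_iff.1 hv)
    have hvj : v.valuation K (a j : K) ≠ 0 := (Valuation.ne_zero_iff _).2 haj'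
    have h1 : v.valuation K ((a i : K) / (a j : K)) ≤ 1 := by
      rw [map_div₀]
      exact (div_le_one₀ (zero_lt_iff.2 hvj)).2 hv
    obtain ⟨m, d, hd⟩ := v.exists_primeCompl_mul_eq_of_integer _ h1
    have h2 : (d : 𝓞 K) * a i = m * a j := by
      apply RingOfIntegers.ext
      have h3 : (a i : K) / (a j : K) * ((d : 𝓞 K) : K) = (m : K) := hd
      field_simp at h3
      have h5 : (((d : 𝓞 K) * a i : 𝓞 K) : K) = ((d : 𝓞 K) : K) * (a i : K) := rfl
      have h6 : ((m * a j : 𝓞 K) : K) = (m : K) * (a j : K) := rfl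
      rw [h5, h6]
      linear_combination h3
    have h3 : (d : 𝓞 K) ∈ J := by
      rw [hJmem, h2]
      exact I.mul_mem_left _ (Ideal.subset_span ⟨j, hj, rfl⟩)
    exact d.2 (hJP h3)
  -- explicit coefficients
  rw [hI, Ideal.span, Finsupp.mem_span_image_iff_linearCombination] at hmem
  obtain ⟨l, hl, hl2⟩ := hmem
  refine ⟨fun j => l j, ?_⟩
  rw [← hl2, Finsupp.linearCombination_apply, Finsupp.sum]
  simp only [smul_eq_mul]
  refine Finset.sum_subset (fun j hj => ?_) (fun j _ hj => ?_)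
  · exact Finset.mem_erase.2 ⟨hl hj, Finset.mem_univ _⟩
  · rw [Finsupp.notMem_support_iff.1 hj, zero_mul]

end bridge

end Pool.Agent.TH832.Smyth
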